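import Mathlib

/-!
# Singular tuples of matrices, algebraic groups and null cones: definitions
-/

open Matrix

namespace Pool.Agent.H578R3.Sing

/-- Complex square matrices. -/
abbrev Mat (n : ℕ) := Matrix (Fin n) (Fin n) ℂ

/-- The space of `m`-tuples of complex `n × n` matrices. -/
abbrev Tup (m n : ℕ) := Fin m → Mat n

/-- The linear combination of the matrices of a tuple. -/
noncomputable def comb {m n : ℕ} (c : Fin m → ℂ) (X : Tup m n) : Mat n := ∑ i, c i • X i

/-- The set of tuples all of whose linear combinations are singular. -/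
def SING (m n : ℕ) : Set (Tup m n) := {X | ∀ c, (comb c X).det = 0}

/-- The group `GL_m × GL_n × GL_n`. -/
abbrev HH (m n : ℕ) := GL (Fin m) ℂ × GL (Fin n) ℂ × GL (Fin n) ℂ

/-- The action of `GL_m × GL_n × GL_n` on tuples. -/
noncomputable def act {m n : ℕ} (h : HH m n) (X : Tup m n) : Tup m n :=
  fun i => ∑ j, h.1 i j • ((h.2.1 : Mat n) * X j * ((h.2.2⁻¹ : GL (Fin n) ℂ) : Mat n))

/-- The subgroup `G` of `GL_N` is Zariski closed, that is, a linear algebraic group. -/
def IsZariskiClosed {N : ℕ} (G : Subgroup (GL (Fin N) ℂ)) : Prop :=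
  ∃ S : Set (MvPolynomial (Fin N × Fin N) ℂ), ∀ g : GL (Fin N) ℂ,
    g ∈ G ↔ ∀ p ∈ S, MvPolynomial.eval (fun ij => g ij.1 ij.2) p = 0

/-- The representation `ρ` is algebraic: after multiplication by a power of the determinant, the
coordinates of `ρ g X` are polynomials in the entries of `g`. -/
def IsRegular {N m n : ℕ} {G : Subgroup (GL (Fin N) ℂ)}
    (ρ : G →* (Tup m n ≃ₗ[ℂ] Tup m n)) : Prop :=
  ∀ X i j k, ∃ (p : MvPolynomial (Fin N × Fin N) ℂ) (d : ℕ), ∀ g : G,
    ρ g X i j k * ((g : GL (Fin N) ℂ) : Mat N).det ^ d =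
      MvPolynomial.eval (fun ij => (g : GL (Fin N) ℂ) ij.1 ij.2) p

/-- The null cone in the analytic sense: the points whose orbit closure (in the Euclidean
topology) contains `0`. -/
def nullCone {N m n : ℕ} {G : Subgroup (GL (Fin N) ℂ)}
    (ρ : G →* (Tup m n ≃ₗ[ℂ] Tup m n)) : Set (Tup m n) :=
  {v | (0 : Tup m n) ∈ closure (Set.range fun g : G => ρ g v)}

end Pool.Agent.H578R3.Sing
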