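import Pool.Agent.H578R3.SingSym

/-!
# The linear maps which preserve the singular tuples, continued
-/

open Matrix

namespace Pool.Agent.H578R3.Sing

variable {m n : ℕ}

lemma ell_surj (g : Tup m n ≃ₗ[ℂ] Tup m n) (c : Fin m → ℂ) (hc : c ≠ 0) :
    Function.Surjective (ell (g : Tup m n →ₗ[ℂ] Tup m n) c) := by
  obtain ⟨i, hi⟩ := Function.ne_iff.1 hc
  simp only [Pi.zero_apply] at hi
  intro W
  refine ⟨g.symm (tens (Pi.single i (c i)⁻¹) W), ?_⟩
  rw [ell_apply, LinearEquiv.coe_coe, g.apply_symm_apply, comb_tens, Finset.sum_eq_single i]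
  · rw [Pi.single_eq_same, mul_inv_cancel₀ hi, one_smul]
  · intro j _ hj; rw [Pi.single_eq_of_ne hj, mul_zero]
  · simp

lemma comb_entry (v : Fin m → ℂ) (X : Tup m n) (p q : Fin n) :
    comb v X p q = ∑ j, v j * X j p q := by
  simp [comb, Matrix.sum_apply]

/-- The structure of the linear bijections which preserve the singular tuples, first form. -/
theorem exists_P (hn : 1 ≤ n) (hm : 1 ≤ m) (g : Tup m n ≃ₗ[ℂ] Tup m n)
    (hg : ∀ X ∈ SING m n, g X ∈ SING m n) :
    ∃ (P : Matrix (Fin m) (Fin m) ℂ) (h : Mat n →ₗ[ℂ] Mat n) (lam : ℂ), P.det ≠ 0 ∧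
      Function.Injective h ∧ lam ≠ 0 ∧ (∀ Z, (h Z).det = lam * Z.det) ∧
      ∀ X i, g X i = ∑ j, P i j • h (X j) := by
  let o : Fin m := ⟨0, hm⟩
  let z : Fin n := ⟨0, hn⟩
  have hg' : ∀ X ∈ SING m n, (g : Tup m n →ₗ[ℂ] Tup m n) X ∈ SING m n := hg
  have hsing : ∀ i : Fin m, (Pi.single i 1 : Fin m → ℂ) ≠ 0 := by
    intro i h0
    have := congrFun h0 i
    simp at this
  choose v h hinj hv using fun i : Fin m =>
    exists_factor (g : Tup m n →ₗ[ℂ] Tup m n) hg' (Pi.single i 1) hn (ell_surj g _ (hsing i))
  have hv' : ∀ i X, g X i = h i (comb (v i) X) := by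
    intro i X
    rw [← hv i X, comb_single]; rfl
  -- vectors separating `v i` and `v j`
  have hsep : ∀ i j : Fin m, i ≠ j → ∃ a : Fin m → ℂ, (∑ k, v i k * a k) ≠ 0 ∧
      (∑ k, v j k * a k) = 0 := by
    intro i j hij
    set X := g.symm (Pi.single i 1) with hX
    have h1 : comb (v j) X = 0 := by
      apply hinj j
      rw [← hv', hX, g.apply_symm_apply, Pi.single_eq_of_ne hij.symm, map_zero]
    have h2 : comb (v i) X ≠ 0 := by
      intro h0
      have := hv' i X
      rw [h0, map_zero, hX, g.apply_symm_apply, Pi.single_eq_same] at this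
      have := congrFun (congrFun this z) z
      simp at this
    have : ∃ p q, comb (v i) X p q ≠ 0 := by
      by_contra hcon
      push Not at hcon
      exact h2 (by ext p q; exact hcon p q)
    obtain ⟨p, q, hpq⟩ := this
    refine ⟨fun k => X k p q, ?_, ?_⟩
    · rw [comb_entry] at hpq; exact hpq
    · rw [← comb_entry, h1]; rfl
  -- all the `h i` are proportional
  have hprop : ∀ i : Fin m, ∃ lam : ℂ, ∀ Z, h i Z = lam • h o Z := by
    intro i
    by_cases hio : i = o
    · exact ⟨1, fun Z => by rw [hio, one_smul]⟩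
    have hne : (Pi.single o 1 + Pi.single i 1 : Fin m → ℂ) ≠ 0 := by
      intro h0
      have := congrFun h0 o
      simp [Pi.single_apply, Ne.symm hio] at this
    obtain ⟨w, k, -, hw⟩ := exists_factor (g : Tup m n →ₗ[ℂ] Tup m n) hg' _ hn (ell_surj g _ hne)
    have hw' : ∀ X, h o (comb (v o) X) + h i (comb (v i) X) = k (comb w X) := by
      intro X
      rw [← hv', ← hv', ← hw X, add_comb, comb_single, comb_single]; rfl
    obtain ⟨a, ha1, ha2⟩ := hsep o i (Ne.symm hio)
    obtain ⟨b, hb1, hb2⟩ := hsep i o hio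
    have ea : ∀ Z, (∑ k, v o k * a k) • h o Z = (∑ k, w k * a k) • k Z := by
      intro Z
      have := hw' (tens a Z)
      rw [comb_tens, comb_tens, comb_tens, ha2, zero_smul, map_zero, add_zero, map_smul,
        map_smul] at this
      exact this
    have eb : ∀ Z, (∑ k, v i k * b k) • h i Z = (∑ k, w k * b k) • k Z := by
      intro Z
      have := hw' (tens b Z)
      rw [comb_tens, comb_tens, comb_tens, hb2, zero_smul, map_zero, zero_add, map_smul,
        map_smul] at this
      exact this
    have hwa : (∑ k, w k * a k) ≠ 0 := by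
      intro h0
      have := ea 1
      rw [h0, zero_smul] at this
      rcases smul_eq_zero.1 this with h2 | h2
      · exact ha1 h2
      · have h3 : (1 : Mat n) = 0 := hinj o (by rw [h2, map_zero])
        have := congrFun (congrFun h3 z) z
        simp at this
    refine ⟨(∑ k, v i k * b k)⁻¹ * (∑ k, w k * b k) * (∑ k, w k * a k)⁻¹ * (∑ k, v o k * a k),
      fun Z => ?_⟩
    have e1 : k Z = (∑ k, w k * a k)⁻¹ • ((∑ k, v o k * a k) • h o Z) := by
      rw [ea, smul_smul, inv_mul_cancel₀ hwa, one_smul]
    have e2 : h i Z = (∑ k, v i k * b k)⁻¹ • ((∑ k, w k * b k) • k Z) := by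
      rw [← eb, smul_smul, inv_mul_cancel₀ hb1, one_smul]
    rw [e2, e1]
    simp only [smul_smul, mul_assoc]
  choose lam hlam using hprop
  have hform : ∀ X i, g X i = ∑ j, (lam i * v i j) • h o (X j) := by
    intro X i
    rw [hv', hlam, comb, map_sum, Finset.smul_sum]
    exact Finset.sum_congr rfl fun j _ => by rw [map_smul, smul_smul]
  have hsurj : Function.Surjective (h o) := LinearMap.injective_iff_surjective.1 (hinj o)
  have hvo : ∃ a : Fin m → ℂ, (∑ k, v o k * a k) ≠ 0 := by
    by_contra hcon
    push Not at hcon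
    have h1 : g.symm (Pi.single o 1) = g.symm (Pi.single o 1) := rfl
    have := hv' o (g.symm (Pi.single o 1))
    rw [g.apply_symm_apply, Pi.single_eq_same] at this
    have h0 : comb (v o) (g.symm (Pi.single o 1)) = 0 := by
      ext p q
      rw [comb_entry]
      exact hcon _
    rw [h0, map_zero] at this
    have := congrFun (congrFun this z) z
    simp at this
  have hSP : SP (h o) := by
    intro Z hZ
    obtain ⟨a, ha⟩ := hvo
    have h1 : tens a Z ∈ SING m n := by
      intro c; rw [comb_tens, det_smul, hZ, mul_zero]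
    have h2 := hg _ h1 (Pi.single o 1)
    rw [comb_single, hv', comb_tens, map_smul, det_smul] at h2
    rcases mul_eq_zero.1 h2 with h3 | h3
    · exact absurd ((pow_eq_zero_iff (by simp; omega)).1 h3) ha
    · exact h3
  refine ⟨Matrix.of fun i j => lam i * v i j, h o, (h o 1).det, ?_, hinj o, ?_, ?_, hform⟩
  · intro hdet
    obtain ⟨w, hw0, hw⟩ := exists_mulVec_eq_zero_iff.2 hdet
    have : g (tens w 1) = 0 := by
      ext i : 1
      rw [hform]
      have e := congrFun hw i
      simp only [mulVec, dotProduct, of_apply, Pi.zero_apply] at e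
      simp only [tens, map_smul, smul_smul]
      rw [← Finset.sum_smul, e, zero_smul]; rfl
    have h0 : tens w (1 : Mat n) = 0 := by
      have := congrArg g.symm this
      rwa [g.symm_apply_apply, map_zero] at this
    apply hw0
    ext i
    have := congrFun (congrFun (congrFun h0 i) z) z
    simpa [tens] using this
  · obtain ⟨Z, hZ⟩ := hsurj 1
    intro h0
    have := det_map (h o) hSP Z
    rw [hZ, h0, det_one, zero_mul] at this
    exact one_ne_zero this
  · intro Z
    exact det_map (h o) hSP Z

/-- The transpose of a tuple. -/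
def ttr (X : Tup m n) : Tup m n := fun i => (X i)ᵀ

/-- Every linear bijection of the space of tuples which preserves the singular tuples is given by
an element of `GL_m × GL_n × GL_n`, or by such an element composed with the transposition. -/
theorem exists_act (hn : 2 ≤ n) (hm : 1 ≤ m) (g : Tup m n ≃ₗ[ℂ] Tup m n)
    (hg : ∀ X ∈ SING m n, g X ∈ SING m n) :
    ∃ h : HH m n, (∀ X, g X = act h X) ∨ (∀ X, g X = act h (ttr X)) := by
  obtain ⟨P, h, lam, hP, hinj, hlam, hdet, hform⟩ := exists_P (by omega) hm g hg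
  have hsurj : Function.Surjective h := LinearMap.injective_iff_surjective.1 hinj
  obtain ⟨Q, R, hQR⟩ := form hn hinj (fun x y => rank_preserved h hsurj lam hdet x y)
  have hQR0 : Q.det * R.det = lam := by
    have h1 := hdet 1
    rw [det_one, mul_one] at h1
    rcases hQR with h2 | h2
    · rw [h2, Matrix.mul_one, det_mul] at h1; exact h1
    · rw [h2, transpose_one, Matrix.mul_one, det_mul] at h1; exact h1
  have hQ : Q.det ≠ 0 := by rintro h0; rw [h0, zero_mul] at hQR0; exact hlam hQR0.symm
  have hR : R.det ≠ 0 := by rintro h0; rw [h0, mul_zero] at hQR0; exact hlam hQR0.symm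
  refine ⟨(GeneralLinearGroup.mkOfDetNeZero P hP, GeneralLinearGroup.mkOfDetNeZero Q hQ,
    (GeneralLinearGroup.mkOfDetNeZero R hR)⁻¹), ?_⟩
  rcases hQR with h2 | h2
  · left
    intro X
    ext i : 1
    rw [hform]
    simp only [act, inv_inv]
    exact Finset.sum_congr rfl fun j _ => by rw [h2]; rfl
  · right
    intro X
    ext i : 1
    rw [hform]
    simp only [act, inv_inv, ttr]
    exact Finset.sum_congr rfl fun j _ => by rw [h2]; rfl

end Pool.Agent.H578R3.Sing
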