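import Pool.Agent.H578R3.SingCore2
import Pool.Agent.H578R3.SingSym2

/-!
# Assembly: the null cone of an algebraic group is never the set of singular tuples
-/

open Matrix Filter Topology

namespace Pool.Agent.H578R3.Sing

variable {m n N : ℕ}

lemma act_one (X : Tup m n) : act 1 X = X := by
  ext i : 1
  simp only [act]
  rw [Finset.sum_eq_single i]
  · simp
  · intro j _ hj
    simp [Matrix.one_apply, Ne.symm hj]
  · simp

lemma act_mul (h h' : HH m n) (X : Tup m n) : act (h * h') X = act h (act h' X) := by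
  ext i : 1
  simp only [act, Prod.fst_mul, Prod.snd_mul, _root_.mul_inv_rev, Units.val_mul, Matrix.mul_apply,
    Finset.smul_sum, Matrix.mul_sum, Matrix.sum_mul, Finset.sum_smul]
  rw [Finset.sum_comm]
  apply Finset.sum_congr rfl
  intro j _
  apply Finset.sum_congr rfl
  intro j' _
  rw [Matrix.mul_smul, Matrix.smul_mul, smul_smul]
  congr 1
  simp only [Matrix.mul_assoc]

lemma comb_act (h : HH m n) (c : Fin m → ℂ) (X : Tup m n) :
    comb c (act h X) = (h.2.1 : Mat n) * comb (fun j => ∑ i, c i * h.1 i j) X *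
      ((h.2.2⁻¹ : GL (Fin n) ℂ) : Mat n) := by
  simp only [comb, act, Finset.smul_sum, Matrix.mul_sum, Matrix.sum_mul, Finset.sum_smul]
  rw [Finset.sum_comm]
  apply Finset.sum_congr rfl
  intro j _
  apply Finset.sum_congr rfl
  intro i _
  rw [Matrix.mul_smul, Matrix.smul_mul, smul_smul]

lemma act_mem {h : HH m n} {X : Tup m n} (hX : X ∈ SING m n) : act h X ∈ SING m n := by
  intro c
  rw [comb_act, det_mul, det_mul, hX]; ring

lemma act_mem_iff {h : HH m n} {X : Tup m n} : act h X ∈ SING m n ↔ X ∈ SING m n := by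
  constructor
  · intro hX
    have := act_mem (h := h⁻¹) hX
    rwa [← act_mul, inv_mul_cancel, act_one] at this
  · exact act_mem

/-- The transposed triple. -/
noncomputable def trH (h : HH m n) : HH m n :=
  (h.1, GeneralLinearGroup.mkOfDetNeZero ((h.2.2⁻¹ : GL (Fin n) ℂ) : Mat n)ᵀ
      (by rw [det_transpose]; exact (GeneralLinearGroup.det_ne_zero _)),
    GeneralLinearGroup.mkOfDetNeZero ((h.2.1⁻¹ : GL (Fin n) ℂ) : Mat n)ᵀ
      (by rw [det_transpose]; exact (GeneralLinearGroup.det_ne_zero _)))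

lemma ttr_act (h : HH m n) (X : Tup m n) : ttr (act h X) = act (trH h) (ttr X) := by
  have hinv : (((trH h).2.2⁻¹ : GL (Fin n) ℂ) : Mat n) = (h.2.1 : Mat n)ᵀ := by
    rw [Matrix.coe_units_inv]
    change (((h.2.1⁻¹ : GL (Fin n) ℂ) : Mat n)ᵀ)⁻¹ = _
    rw [Matrix.coe_units_inv, ← transpose_nonsing_inv, nonsing_inv_nonsing_inv]
    exact isUnit_iff_ne_zero.2 (GeneralLinearGroup.det_ne_zero _)
  ext i : 1
  simp only [ttr, act]
  rw [hinv, transpose_sum]
  apply Finset.sum_congr rfl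
  intro j _
  rw [transpose_smul, transpose_mul, transpose_mul, Matrix.mul_assoc]
  rfl

lemma ttr_ttr (X : Tup m n) : ttr (ttr X) = X := by
  ext i : 1
  simp [ttr]

lemma act_tendsto (h : HH m n) {ι : Type*} {l : Filter ι} {f : ι → Tup m n} {X : Tup m n}
    (hf : Tendsto f l (𝓝 X)) : Tendsto (fun t => act h (f t)) l (𝓝 (act h X)) := by
  rw [tendsto_tup] at hf ⊢
  intro i j k
  simp only [act_entry]
  refine tendsto_finsetSum _ fun i' _ => tendsto_finsetSum _ fun k' _ =>
    tendsto_finsetSum _ fun j' _ => ?_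
  exact ((((hf i' j' k').const_mul _).mul_const _).const_mul _)

/-- All entries are smaller than `δ`. -/
def Small (δ : ℝ) (X : Tup m n) : Prop := ∀ i j k, ‖X i j k‖ < δ

lemma small_of_closure {ι : Type*} {f : ι → Tup m n}
    (h : (0 : Tup m n) ∈ closure (Set.range f)) {δ : ℝ} (hδ : 0 < δ) : ∃ t, Small δ (f t) := by
  have hopen : IsOpen {X : Tup m n | Small δ X} := by
    have : {X : Tup m n | Small δ X} =
        ⋂ i : Fin m, ⋂ j : Fin n, ⋂ k : Fin n, {X : Tup m n | ‖X i j k‖ < δ} := by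
      ext X; simp [Small]
    rw [this]
    refine isOpen_iInter_of_finite fun i => isOpen_iInter_of_finite fun j =>
      isOpen_iInter_of_finite fun k => ?_
    have hc : Continuous fun X : Tup m n => ‖X i j k‖ := by
      apply Continuous.norm
      rw [continuous_iff_continuousAt]
      intro X
      exact (tendsto_tup (f := fun X : Tup m n => X) (l := 𝓝 X) (X := X)).1 tendsto_id i j k
    exact isOpen_lt hc continuous_const
  obtain ⟨X, hX, ⟨t, rfl⟩⟩ := mem_closure_iff.1 h _ hopen (by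
    intro i j k
    simpa using hδ)
  exact ⟨t, hX⟩

/-- Linear maps are bounded. -/
lemma exists_bound (g : Tup m n →ₗ[ℂ] Tup m n) : ∃ C : ℝ, 0 < C ∧ ∀ (δ : ℝ) (X : Tup m n),
    Small δ X → Small (C * δ) (g X) := by
  let I := Fin m × Fin n × Fin n
  let ev : I → Tup m n → ℂ := fun b X => X b.1 b.2.1 b.2.2
  let e : I → Tup m n := fun b => tens (Pi.single b.1 1) (single b.2.1 b.2.2 1)
  have hexp : ∀ X : Tup m n, X = ∑ b, ev b X • e b := by
    intro X
    ext a p q
    rw [Finset.sum_apply, Matrix.sum_apply, Finset.sum_eq_single (a, p, q)]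
    · simp [e, ev, tens]
    · rintro ⟨i, j, k⟩ _ hne
      simp only [e, ev, tens, Pi.smul_apply, Matrix.smul_apply, smul_eq_mul]
      by_cases h1 : a = i
      · by_cases h2 : p = j
        · by_cases h3 : q = k
          · subst h1; subst h2; subst h3; exact absurd rfl hne
          · rw [single_apply, if_neg (by rintro ⟨_, h⟩; exact h3 h.symm)]; ring
        · rw [single_apply, if_neg (by rintro ⟨h, _⟩; exact h2 h.symm)]; ring
      · rw [Pi.single_eq_of_ne h1]; ring
    · simp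
  have hev : ∀ b X, ev b (g X) = ∑ c, ev c X * ev b (g (e c)) := by
    intro b X
    conv_lhs => rw [hexp X]
    simp only [ev, map_sum, map_smul, Finset.sum_apply, Matrix.sum_apply, Pi.smul_apply,
      Matrix.smul_apply, smul_eq_mul]
  refine ⟨1 + ∑ b, ∑ c, ‖ev b (g (e c))‖, by positivity, ?_⟩
  intro δ X hX a p q
  have hδ : 0 < δ := lt_of_le_of_lt (norm_nonneg _) (hX a p q)
  have h2 : ‖ev (a, p, q) (g X)‖ ≤ δ * ∑ c, ‖ev (a, p, q) (g (e c))‖ := by
    rw [hev, Finset.mul_sum]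
    refine (norm_sum_le _ _).trans (Finset.sum_le_sum fun c _ => ?_)
    rw [norm_mul]
    exact mul_le_mul_of_nonneg_right (hX c.1 c.2.1 c.2.2).le (norm_nonneg _)
  have h4 : ∑ c, ‖ev (a, p, q) (g (e c))‖ ≤ ∑ b, ∑ c, ‖ev b (g (e c))‖ :=
    Finset.single_le_sum (f := fun b => ∑ c, ‖ev b (g (e c))‖)
      (fun _ _ => Finset.sum_nonneg fun _ _ => norm_nonneg _) (Finset.mem_univ (a, p, q))
  have h5 : δ * ∑ c, ‖ev (a, p, q) (g (e c))‖ ≤ δ * ∑ b, ∑ c, ‖ev b (g (e c))‖ :=
    mul_le_mul_of_nonneg_left h4 hδ.le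
  calc ‖g X a p q‖ ≤ δ * ∑ c, ‖ev (a, p, q) (g (e c))‖ := h2
    _ ≤ δ * ∑ b, ∑ c, ‖ev b (g (e c))‖ := h5
    _ < (1 + ∑ b, ∑ c, ‖ev b (g (e c))‖) * δ := by linarith

lemma ent_norm (i j k : ℕ) (h : ent 1 i j k ≠ 0) : ‖ent (-1) i j k‖ = 1 := by
  unfold ent at h ⊢
  split_ifs at h ⊢ <;> first | (exfalso; exact h rfl) | (exfalso; omega) | simp

/-- The reduction to triangular elements. -/
def Reduction {G : Subgroup (GL (Fin N) ℂ)} (ρ : G →* (Tup m n ≃ₗ[ℂ] Tup m n)) : Prop :=
  ∃ u : HH m n, ∀ v : Tup m n,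
    (∀ δ : ℝ, 0 < δ → ∃ g : G, ∃ h : HH m n, (∀ X, ρ g X = act h X) ∧
      ∀ i j k, ‖ρ g v i j k‖ < δ) →
    ∀ δ : ℝ, 0 < δ → ∃ g : G, ∃ b : HH m n, Upper b ∧ (∀ X, ρ g X = act (u * b * u⁻¹) X) ∧
      ∀ i j k, ‖ρ g v i j k‖ < δ

theorem nullCone_ne (hm : 3 ≤ m) (hn : 3 ≤ n) {G : Subgroup (GL (Fin N) ℂ)}
    (ρ : G →* (Tup m n ≃ₗ[ℂ] Tup m n)) (hred : Reduction ρ) : nullCone ρ ≠ SING m n := by
  intro heq
  -- the group preserves the singular tuples
  have hpres : ∀ g : G, ∀ X ∈ SING m n, ρ g X ∈ SING m n := by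
    intro g X hX
    rw [← heq] at hX ⊢
    have : (Set.range fun g' : G => ρ g' (ρ g X)) = Set.range fun g' : G => ρ g' X := by
      ext Y
      constructor
      · rintro ⟨g', rfl⟩
        refine ⟨g' * g, ?_⟩
        change ρ (g' * g) X = ρ g' (ρ g X)
        rw [map_mul]; rfl
      · rintro ⟨g', rfl⟩
        refine ⟨g' * g⁻¹, ?_⟩
        change ρ (g' * g⁻¹) (ρ g X) = ρ g' X
        have e : g' = (g' * g⁻¹) * g := by group
        conv_rhs => rw [e, map_mul]
        rfl
    change (0 : Tup m n) ∈ closure (Set.range fun g' : G => ρ g' (ρ g X))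
    rw [this]; exact hX
  have htype : ∀ g : G, ∃ h : HH m n, (∀ X, ρ g X = act h X) ∨ (∀ X, ρ g X = act h (ttr X)) :=
    fun g => exists_act (by omega) (by omega) (ρ g) (hpres g)
  -- contraction within the subgroup of elements of the first type
  have hone : ∀ v ∈ SING m n, ∀ δ : ℝ, 0 < δ → ∃ g : G, ∃ h : HH m n, (∀ X, ρ g X = act h X) ∧
      ∀ i j k, ‖ρ g v i j k‖ < δ := by
    intro v hv
    rw [← heq] at hv
    by_cases h2 : ∃ g0 : G, ∃ h0 : HH m n, ∀ X, ρ g0 X = act h0 (ttr X)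
    · obtain ⟨g0, h0, hg0⟩ := h2
      obtain ⟨C, hC, hbound⟩ := exists_bound ((ρ g0 : Tup m n ≃ₗ[ℂ] Tup m n) : Tup m n →ₗ[ℂ] Tup m n)
      intro δ hδ
      obtain ⟨g, hg⟩ := small_of_closure hv (δ := min δ (C⁻¹ * δ)) (by positivity)
      obtain ⟨h, hh | hh⟩ := htype g
      · exact ⟨g, h, hh, fun i j k => (hg i j k).trans_le (min_le_left _ _)⟩
      · refine ⟨g0 * g, h0 * trH h, fun X => ?_, ?_⟩
        · have : ρ (g0 * g) X = ρ g0 (ρ g X) := by rw [map_mul]; rfl
          rw [this, hg0, hh, ttr_act, ttr_ttr, act_mul]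
        · have h1 : Small (C⁻¹ * δ) (ρ g v) := fun i j k => (hg i j k).trans_le (min_le_right _ _)
          have h3 := hbound _ _ h1
          rw [mul_inv_cancel_left₀ hC.ne'] at h3
          intro i j k
          have : ρ (g0 * g) v = ρ g0 (ρ g v) := by rw [map_mul]; rfl
          rw [this]
          exact h3 i j k
    · intro δ hδ
      obtain ⟨g, hg⟩ := small_of_closure hv hδ
      obtain ⟨h, hh | hh⟩ := htype g
      · exact ⟨g, h, hh, hg⟩
      · exact absurd ⟨g, h, hh⟩ h2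
  obtain ⟨u, hu⟩ := hred
  -- the singular test tuple, moved by `u`
  have hsing : act u (tst m n (-1)) ∈ SING m n := act_mem (tst_neg_mem hm hn)
  obtain ⟨C, hC, hbound⟩ := exists_bound (actL (u⁻¹ : HH m n))
  obtain ⟨g, b, hb, hgb, hsm⟩ := hu _ (hone _ hsing) C⁻¹ (by positivity)
  have hbeps : Small 1 (act b (tst m n (-1))) := by
    have h1 := hbound _ _ (show Small C⁻¹ (ρ g (act u (tst m n (-1)))) from hsm)
    rw [mul_inv_cancel₀ hC.ne', hgb, actL_apply, ← act_mul, ← act_mul] at h1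
    have : u⁻¹ * (u * b * u⁻¹) * u = b := by group
    rwa [this] at h1
  have hlow : low (tst m n (-1)) := fun i j k h => ent_ht _ _ _ _ (by omega)
  obtain ⟨-, htop⟩ := act_low hb hlow
  obtain ⟨w, hw, hlim⟩ := core hm hn hb (by
    intro i j k hijk
    have hht : (i : ℕ) + j = k + 1 := by
      by_contra hne
      exact hijk (ent_ht _ _ _ _ hne)
    have h1 := hbeps i j k
    rw [htop i j k hht, norm_mul] at h1
    have h2 : ‖tst m n (-1) i j k‖ = 1 := ent_norm _ _ _ hijk
    rwa [h2, mul_one] at h1)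
  apply hw
  rw [← act_mem_iff (h := u), ← heq]
  have hlim2 : Tendsto (fun t : ℕ => act u (((actL b) ^ t) w)) atTop (𝓝 0) := by
    have := act_tendsto u hlim
    have h0 : act u (0 : Tup m n) = 0 := (actL u).map_zero
    rwa [h0] at this
  refine mem_closure_of_tendsto hlim2 (Eventually.of_forall fun t => ⟨g ^ t, ?_⟩)
  change ρ (g ^ t) (act u w) = act u (((actL b) ^ t) w)
  induction t with
  | zero => simp
  | succ t ih =>
    have h1 : ρ (g ^ (t + 1)) (act u w) = ρ g (ρ (g ^ t) (act u w)) := by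
      rw [pow_succ', map_mul]; rfl
    have h2 : ((actL b) ^ (t + 1)) w = act b (((actL b) ^ t) w) := by
      rw [pow_succ']; rfl
    rw [h1, ih, h2, hgb, ← act_mul, ← act_mul]
    congr 1
    group

end Pool.Agent.H578R3.Sing
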