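import Pool.Agent.H578R3.SingDefs

/-!
# Upper triangular triples which contract a nonsingular tuple
-/

open Matrix Polynomial Filter Topology

namespace Pool.Agent.H578R3.Sing

variable {m n : ℕ}

section Seq

variable {E : Type*} [NormedAddCommGroup E] [NormedSpace ℂ E]

lemma tendsto_of_step (a : ℕ → E) (ρ : ℂ) (hρ : ‖ρ‖ < 1)
    (h : Tendsto (fun N => a (N + 1) - ρ • a N) atTop (𝓝 0)) : Tendsto a atTop (𝓝 0) := by
  rw [Metric.tendsto_atTop] at h ⊢
  intro ε hε
  have h1 : 0 < 1 - ‖ρ‖ := by linarith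
  obtain ⟨N0, hN0⟩ := h (ε / 2 * (1 - ‖ρ‖)) (by positivity)
  have hb : ∀ k, ‖a (N0 + k)‖ ≤ ‖ρ‖ ^ k * ‖a N0‖ + ε / 2 := by
    intro k
    induction k with
    | zero => simp; linarith
    | succ k ih =>
      have h2 := hN0 (N0 + k) (by omega)
      rw [dist_zero_right] at h2
      have h3 : ‖a (N0 + k + 1)‖ ≤ ‖a (N0 + k + 1) - ρ • a (N0 + k)‖ + ‖ρ • a (N0 + k)‖ := by
        have := norm_add_le (a (N0 + k + 1) - ρ • a (N0 + k)) (ρ • a (N0 + k))
        rwa [sub_add_cancel] at this
      rw [norm_smul] at h3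
      have h4 : ‖ρ‖ * ‖a (N0 + k)‖ ≤ ‖ρ‖ * (‖ρ‖ ^ k * ‖a N0‖ + ε / 2) :=
        mul_le_mul_of_nonneg_left ih (norm_nonneg _)
      have h5 : N0 + (k + 1) = N0 + k + 1 := by ring
      rw [h5, pow_succ]
      nlinarith
  have hlim : Tendsto (fun k => ‖ρ‖ ^ k * ‖a N0‖) atTop (𝓝 0) := by
    have := (tendsto_pow_atTop_nhds_zero_of_lt_one (norm_nonneg ρ) hρ).mul_const ‖a N0‖
    simpa using this
  rw [Metric.tendsto_atTop] at hlim
  obtain ⟨K, hK⟩ := hlim (ε / 2) (by positivity)
  refine ⟨N0 + K, fun N hN => ?_⟩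
  obtain ⟨k, rfl⟩ : ∃ k, N = N0 + k := ⟨N - N0, by omega⟩
  have h6 := hK k (by omega)
  rw [dist_zero_right, Real.norm_eq_abs] at h6
  have h7 := le_abs_self (‖ρ‖ ^ k * ‖a N0‖)
  rw [dist_zero_right]
  have := hb k
  linarith

lemma tendsto_tup {ι : Type*} {l : Filter ι} {f : ι → Tup m n} {X : Tup m n} :
    Tendsto f l (𝓝 X) ↔ ∀ i j k, Tendsto (fun N => f N i j k) l (𝓝 (X i j k)) := by
  constructor
  · intro h i j k
    have h1 := (tendsto_pi_nhds.1 h) i
    have h2 : Tendsto (fun N => (f N i : Fin n → Fin n → ℂ)) l (𝓝 (X i : Fin n → Fin n → ℂ)) := h1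
    exact (tendsto_pi_nhds.1 ((tendsto_pi_nhds.1 h2) j)) k
  · intro h
    rw [tendsto_pi_nhds]
    intro i
    have h2 : Tendsto (fun N => (f N i : Fin n → Fin n → ℂ)) l (𝓝 (X i : Fin n → Fin n → ℂ)) :=
      tendsto_pi_nhds.2 fun j => tendsto_pi_nhds.2 fun k => h i j k
    exact h2

/-- If `w` is killed by a polynomial in `B` whose roots lie in the open unit disc, then the
iterates `B ^ N w` tend to `0`. -/
lemma tendsto_of_roots (B : Tup m n →ₗ[ℂ] Tup m n) (s : Multiset ℂ) (hs : ∀ ρ ∈ s, ‖ρ‖ < 1)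
    (w : Tup m n) (hw : (aeval B (s.map fun ρ => X - C ρ).prod) w = 0) :
    Tendsto (fun N => (B ^ N) w) atTop (𝓝 0) := by
  induction s using Multiset.induction_on generalizing w with
  | empty =>
    simp only [Multiset.map_zero, Multiset.prod_zero, map_one, Module.End.one_apply] at hw
    subst hw
    simp
  | cons ρ s ih =>
    have h1 : (aeval B (s.map fun ρ => X - C ρ).prod) (B w - ρ • w) = 0 := by
      rw [Multiset.map_cons, Multiset.prod_cons, mul_comm, map_mul, Module.End.mul_apply] at hw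
      rw [← hw]
      congr 1
      simp [Module.algebraMap_end_apply]
    have h2 := ih (fun ρ' h' => hs ρ' (Multiset.mem_cons_of_mem h')) _ h1
    rw [tendsto_tup] at h2 ⊢
    intro i j k
    apply tendsto_of_step _ ρ (hs ρ (Multiset.mem_cons_self _ _))
    refine (h2 i j k).congr fun N => ?_
    rw [map_sub, map_smul, pow_succ]
    rfl

end Seq

/-- The action as a linear map. -/
noncomputable def actL (b : HH m n) : Tup m n →ₗ[ℂ] Tup m n :=
  { toFun := act b
    map_add' := by
      intro X Y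
      ext i : 1
      simp only [act, Pi.add_apply, Matrix.mul_add, Matrix.add_mul, smul_add,
        Finset.sum_add_distrib]
    map_smul' := by
      intro c X
      ext i : 1
      simp only [act, Pi.smul_apply, RingHom.id_apply, Finset.smul_sum]
      apply Finset.sum_congr rfl
      intro j _
      rw [Matrix.mul_smul, Matrix.smul_mul, smul_comm] }

lemma actL_apply (b : HH m n) (X : Tup m n) : actL b X = act b X := rfl

/-- The triple consists of upper triangular matrices. -/
def Upper (b : HH m n) : Prop :=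
  (b.1 : Matrix (Fin m) (Fin m) ℂ).BlockTriangular id ∧
    (b.2.1 : Mat n).BlockTriangular id ∧ (b.2.2 : Mat n).BlockTriangular id

/-- The diagonal characters. -/
noncomputable def chr (b : HH m n) (i : Fin m) (j k : Fin n) : ℂ :=
  (b.1 : Matrix (Fin m) (Fin m) ℂ) i i * (b.2.1 : Mat n) j j *
    ((b.2.2⁻¹ : GL (Fin n) ℂ) : Mat n) k k

/-- The tuples supported in the positions `(i, j, k)` with `i + j ≤ k + 1`. -/
def low (X : Tup m n) : Prop := ∀ i : Fin m, ∀ j k : Fin n, (k : ℕ) + 1 < i + j → X i j k = 0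

lemma act_entry (b : HH m n) (X : Tup m n) (i : Fin m) (j k : Fin n) :
    act b X i j k = ∑ i', ∑ k', ∑ j', (b.1 : Matrix (Fin m) (Fin m) ℂ) i i' *
      ((b.2.1 : Mat n) j j' * X i' j' k' * ((b.2.2⁻¹ : GL (Fin n) ℂ) : Mat n) k' k) := by
  simp only [act, Matrix.sum_apply, Matrix.smul_apply, smul_eq_mul, Matrix.mul_apply,
    Finset.mul_sum, Finset.sum_mul]

lemma upper_inv {b : HH m n} (hb : Upper b) :
    ((b.2.2⁻¹ : GL (Fin n) ℂ) : Mat n).BlockTriangular id := by
  have h1 := hb.2.2
  rw [Matrix.coe_units_inv]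
  have h2 : Invertible (b.2.2 : Mat n) := b.2.2.invertible
  exact blockTriangular_inv_of_blockTriangular h1

lemma act_low {b : HH m n} (hb : Upper b) {X : Tup m n} (hX : low X) :
    low (act b X) ∧ ∀ (i : Fin m) (j k : Fin n), (i : ℕ) + j = k + 1 →
      act b X i j k = chr b i j k * X i j k := by
  have hP : ∀ i i' : Fin m, i' < i → (b.1 : Matrix (Fin m) (Fin m) ℂ) i i' = 0 :=
    fun i i' h => hb.1 h
  have hQ : ∀ j j' : Fin n, j' < j → (b.2.1 : Mat n) j j' = 0 := fun j j' h => hb.2.1 h
  have hR : ∀ k k' : Fin n, k' < k → ((b.2.2⁻¹ : GL (Fin n) ℂ) : Mat n) k k' = 0 :=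
    fun k k' h => upper_inv hb h
  constructor
  · intro i j k hijk
    rw [act_entry]
    apply Finset.sum_eq_zero; intro i' _
    apply Finset.sum_eq_zero; intro k' _
    apply Finset.sum_eq_zero; intro j' _
    by_cases h1 : i' < i
    · rw [hP i i' h1, zero_mul]
    by_cases h2 : j' < j
    · rw [hQ j j' h2]; ring
    by_cases h3 : k < k'
    · rw [hR k' k h3]; ring
    rw [hX i' j' k' (by
      simp only [Fin.lt_def, not_lt] at h1 h2 h3
      omega)]
    ring
  · intro i j k hijk
    rw [act_entry, Finset.sum_eq_single i, Finset.sum_eq_single k, Finset.sum_eq_single j]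
    · rw [chr]; ring
    · intro j' _ hj'
      by_cases h2 : j' < j
      · rw [hQ j j' h2]; ring
      · rw [hX i j' k (by
          have : (j' : ℕ) ≠ j := fun h => hj' (Fin.ext h)
          simp only [Fin.lt_def, not_lt] at h2
          omega)]
        ring
    · simp
    · intro k' _ hk'
      apply Finset.sum_eq_zero; intro j' _
      by_cases h2 : j' < j
      · rw [hQ j j' h2]; ring
      by_cases h3 : k < k'
      · rw [hR k' k h3]; ring
      rw [hX i j' k' (by
        have : (k' : ℕ) ≠ k := fun h => hk' (Fin.ext h)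
        simp only [Fin.lt_def, not_lt] at h2 h3
        omega)]
      ring
    · simp
    · intro i' _ hi'
      apply Finset.sum_eq_zero; intro k' _
      apply Finset.sum_eq_zero; intro j' _
      by_cases h1 : i' < i
      · rw [hP i i' h1, zero_mul]
      by_cases h2 : j' < j
      · rw [hQ j j' h2]; ring
      by_cases h3 : k < k'
      · rw [hR k' k h3]; ring
      rw [hX i' j' k' (by
        have : (i' : ℕ) ≠ i := fun h => hi' (Fin.ext h)
        simp only [Fin.lt_def, not_lt] at h1 h2 h3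
        omega)]
      ring
    · simp

lemma aeval_low {b : HH m n} (hb : Upper b) (p : ℂ[X]) :
    ∀ X : Tup m n, low X → low (aeval (actL b) p X) ∧ ∀ (i : Fin m) (j k : Fin n),
      (i : ℕ) + j = k + 1 → (aeval (actL b) p X) i j k = p.eval (chr b i j k) * X i j k := by
  induction p using Polynomial.induction_on with
  | C a =>
    intro X hX
    have h1 : aeval (actL b) (C a) X = a • X := by simp [Module.algebraMap_end_apply]
    rw [h1]
    refine ⟨fun i j k h => ?_, fun i j k h => ?_⟩
    · simp [hX i j k h]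
    · simp
  | add p q hp hq =>
    intro X hX
    rw [map_add, LinearMap.add_apply]
    obtain ⟨h1, h2⟩ := hp X hX
    obtain ⟨h3, h4⟩ := hq X hX
    refine ⟨fun i j k h => ?_, fun i j k h => ?_⟩
    · simp [h1 i j k h, h3 i j k h]
    · simp only [Pi.add_apply, Matrix.add_apply, h2 i j k h, h4 i j k h, eval_add]; ring
  | monomial N a ih =>
    intro X hX
    obtain ⟨h1, h2⟩ := act_low hb hX
    obtain ⟨h3, h4⟩ := ih (act b X) h1
    have h5 : aeval (actL b) (C a * Polynomial.X ^ (N + 1)) X =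
        aeval (actL b) (C a * Polynomial.X ^ N) (act b X) := by
      rw [pow_succ, ← mul_assoc, map_mul, Module.End.mul_apply, aeval_X, actL_apply]
    rw [h5]
    refine ⟨h3, fun i j k h => ?_⟩
    rw [h4 i j k h, h2 i j k h]
    simp only [eval_mul, eval_C, eval_pow, eval_X]
    ring

end Pool.Agent.H578R3.Sing
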