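import Pool.Agent.H578R3.SingTest

/-!
# The core: an upper triangular triple with small characters contracts a nonsingular tuple
-/

open Matrix Polynomial Filter Topology

namespace Pool.Agent.H578R3.Sing

variable {m n : ℕ}

/-- Degeneration: a singular tuple supported in the low positions has a singular top part. -/
lemma sing_of_low {w t : Tup m n} (hw : w ∈ SING m n) (hlow : low w)
    (ht : ∀ (i : Fin m) (j k : Fin n), (i : ℕ) + j ≠ k + 1 → t i j k = 0)
    (htop : ∀ (i : Fin m) (j k : Fin n), (i : ℕ) + j = k + 1 → w i j k = t i j k) :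
    t ∈ SING m n := by
  intro c
  let D : ℂ → Mat n := fun ρ => Matrix.of fun j k => ∑ i : Fin m,
    ρ ^ ((k : ℕ) + 1 - (i + j)) * (c i * w i j k)
  have hD0 : D 0 = comb c t := by
    ext j k
    simp only [D, of_apply, comb, Matrix.sum_apply, Matrix.smul_apply, smul_eq_mul]
    apply Finset.sum_congr rfl
    intro i _
    rcases lt_trichotomy ((i : ℕ) + j) (k + 1) with h | h | h
    · rw [zero_pow (by omega), ht i j k (by omega)]; ring
    · rw [h, Nat.sub_self, pow_zero, one_mul, htop i j k h]
    · rw [hlow i j k h, ht i j k (by omega)]; ring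
  have hcont : Continuous fun ρ => (D ρ).det := by
    apply Continuous.matrix_det
    apply continuous_matrix
    intro j k
    simp only [D, of_apply]
    fun_prop
  have hne : ∀ ρ : ℂ, ρ ≠ 0 → (D ρ).det = 0 := by
    intro ρ hρ
    have hfac : D ρ = diagonal (fun j : Fin n => ρ⁻¹ ^ (j : ℕ)) *
        comb (fun i => ρ⁻¹ ^ (i : ℕ) * c i) w * diagonal (fun k : Fin n => ρ ^ ((k : ℕ) + 1)) := by
      ext j k
      rw [mul_diagonal, diagonal_mul]
      simp only [D, of_apply, comb, Matrix.sum_apply, Matrix.smul_apply, smul_eq_mul,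
        Finset.mul_sum, Finset.sum_mul]
      apply Finset.sum_congr rfl
      intro i _
      rcases Nat.lt_or_ge ((k : ℕ) + 1) (i + j) with h | h
      · rw [hlow i j k h]; ring
      · have e : ρ ^ ((k : ℕ) + 1) = ρ ^ ((k : ℕ) + 1 - (i + j)) * (ρ ^ (i : ℕ) * ρ ^ (j : ℕ)) := by
          rw [← pow_add, ← pow_add]; congr 1; omega
        rw [e]
        have hi : ρ⁻¹ ^ (i : ℕ) * ρ ^ (i : ℕ) = 1 := by
          rw [← mul_pow, inv_mul_cancel₀ hρ, one_pow]
        have hj : ρ⁻¹ ^ (j : ℕ) * ρ ^ (j : ℕ) = 1 := by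
          rw [← mul_pow, inv_mul_cancel₀ hρ, one_pow]
        calc ρ ^ ((k : ℕ) + 1 - (i + j)) * (c i * w i j k)
            = ρ ^ ((k : ℕ) + 1 - (i + j)) * (c i * w i j k) * (ρ⁻¹ ^ (i : ℕ) * ρ ^ (i : ℕ)) *
              (ρ⁻¹ ^ (j : ℕ) * ρ ^ (j : ℕ)) := by rw [hi, hj]; ring
          _ = _ := by ring
    rw [hfac, det_mul, det_mul, hw]; ring
  have h0 : (D 0).det = 0 := by
    have := Continuous.ext_on (dense_compl_singleton (0:ℂ)) hcont continuous_const
      (fun ρ hρ => hne ρ hρ)
    exact congrFun this 0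
  rw [← hD0]; exact h0

/-- **Core.** If `b` is an upper triangular triple whose characters at the positions of the test
tuples have absolute value less than one, then `b` contracts some nonsingular tuple. -/
theorem core (hm : 3 ≤ m) (hn : 3 ≤ n) {b : HH m n} (hb : Upper b)
    (hsmall : ∀ (i : Fin m) (j k : Fin n), tst m n 1 i j k ≠ 0 → ‖chr b i j k‖ < 1) :
    ∃ w, w ∉ SING m n ∧ Tendsto (fun N => ((actL b) ^ N) w) atTop (𝓝 0) := by
  classical
  set χ := (actL b).charpoly with hχ
  have hmonic : χ.Monic := LinearMap.charpoly_monic _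
  have hsplit : χ = (χ.roots.map fun ρ => X - C ρ).prod := by
    have := (IsAlgClosed.splits χ).eq_prod_roots_of_monic hmonic
    exact this
  set big := χ.roots.filter fun ρ => ¬ ‖ρ‖ < 1 with hbig
  set small := χ.roots.filter fun ρ => ‖ρ‖ < 1 with hsml
  set q := (big.map fun ρ => X - C ρ).prod with hq
  set r := (small.map fun ρ => X - C ρ).prod with hr
  have hqr : χ = r * q := by
    rw [hsplit, hq, hr, ← Multiset.prod_add, ← Multiset.map_add, hbig, hsml,
      Multiset.filter_add_not]
  have hqne : ∀ (i : Fin m) (j k : Fin n), tst m n 1 i j k ≠ 0 → q.eval (chr b i j k) ≠ 0 := by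
    intro i j k h
    rw [hq, eval_multiset_prod, Multiset.map_map]
    intro h0
    rw [Multiset.prod_eq_zero_iff, Multiset.mem_map] at h0
    obtain ⟨ρ, hρ, h1⟩ := h0
    rw [hbig, Multiset.mem_filter] at hρ
    simp only [Function.comp_apply, eval_sub, eval_X, eval_C, sub_eq_zero] at h1
    apply hρ.2
    rw [← h1]
    exact hsmall i j k h
  let v : Tup m n := fun i j k => (q.eval (chr b i j k))⁻¹ * tst m n 1 i j k
  have hht : ∀ (i : Fin m) (j k : Fin n), (i : ℕ) + j ≠ k + 1 → tst m n 1 i j k = 0 :=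
    fun i j k h => ent_ht 1 i j k h
  have hvlow : low v := by
    intro i j k h
    simp only [v]
    rw [hht i j k (by omega), mul_zero]
  obtain ⟨hwlow, hwtop⟩ := aeval_low hb q v hvlow
  refine ⟨aeval (actL b) q v, ?_, ?_⟩
  · intro hmem
    apply tst_one_not_mem hm hn
    refine sing_of_low hmem hwlow hht fun i j k h => ?_
    rw [hwtop i j k h]
    simp only [v]
    by_cases h0 : tst m n 1 i j k = 0
    · rw [h0]; ring
    · rw [← mul_assoc, mul_inv_cancel₀ (hqne i j k h0), one_mul]
  · apply tendsto_of_roots (actL b) small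
    · intro ρ hρ
      rw [hsml, Multiset.mem_filter] at hρ
      exact hρ.2
    · rw [← hr, ← Module.End.mul_apply, ← map_mul, ← hqr, hχ, LinearMap.aeval_self_charpoly]
      rfl

end Pool.Agent.H578R3.Sing
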