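import Mathlib
import Pool.Agent.H578R3.SingDefs

/-!
# Linear maps of matrices which send singular matrices to singular matrices
-/

open Matrix Polynomial

namespace Pool.Agent.H578R3.Sing

variable {n : ℕ}

/-- The linear map sends singular matrices to singular matrices. -/
def SP (φ : Mat n →ₗ[ℂ] Mat n) : Prop := ∀ Z, Z.det = 0 → (φ Z).det = 0

lemma eval_pencil (A B : Mat n) (s : ℂ) :
    Polynomial.eval s ((X : ℂ[X]) • A.map C + B.map C).det = (s • A + B).det := by
  have := RingHom.map_det (Polynomial.evalRingHom s) ((X : ℂ[X]) • A.map C + B.map C)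
  rw [Polynomial.coe_evalRingHom] at this
  rw [this]
  congr 1
  ext i j
  simp only [RingHom.mapMatrix_apply, map_apply, Matrix.add_apply, Matrix.smul_apply,
    smul_eq_mul, Polynomial.coe_evalRingHom, eval_add, eval_mul, eval_X, eval_C]

lemma det_of_distinct (φ : Mat n →ₗ[ℂ] Mat n) (h : SP φ) (Q : Mat n) (lam : Fin n → ℂ)
    (hinj : Function.Injective lam)
    (hQ : ∀ s : ℂ, (Q - s • (1 : Mat n)).det = ∏ i, (lam i - s)) :
    (φ Q).det = (φ 1).det * Q.det := by
  have key : ((X : ℂ[X]) • (φ 1).map C + (-(φ Q)).map C).det =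
      C (φ 1).det * ((X : ℂ[X]) • (1 : Mat n).map C + (-Q).map C).det := by
    have hdeg1 := natDegree_det_X_add_C_le (φ 1) (-(φ Q))
    have hdeg2 := natDegree_det_X_add_C_le (1 : Mat n) (-Q)
    have hc1 := coeff_det_X_add_C_card (φ 1) (-(φ Q))
    have hc2 := coeff_det_X_add_C_card (1 : Mat n) (-Q)
    simp only [Fintype.card_fin] at hdeg1 hdeg2 hc1 hc2
    have hcard : (Finset.univ.image lam).card = n := by
      rw [Finset.card_image_of_injective _ hinj]; simp
    apply Polynomial.eq_of_degree_sub_lt_of_eval_finset_eq (Finset.univ.image lam)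
    · rw [hcard]
      rw [Polynomial.degree_lt_iff_coeff_zero]
      intro m hm
      rcases hm.eq_or_lt with rfl | hm'
      · rw [Polynomial.coeff_sub, Polynomial.coeff_C_mul, hc1, hc2]; simp
      · rw [Polynomial.coeff_sub, Polynomial.coeff_C_mul,
          Polynomial.coeff_eq_zero_of_natDegree_lt (lt_of_le_of_lt hdeg1 hm'),
          Polynomial.coeff_eq_zero_of_natDegree_lt (lt_of_le_of_lt hdeg2 hm')]
        simp
    · intro x hx
      obtain ⟨i, -, rfl⟩ := Finset.mem_image.1 hx
      rw [Polynomial.eval_mul, Polynomial.eval_C, eval_pencil, eval_pencil]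
      have h0 : (Q - lam i • (1 : Mat n)).det = 0 := by
        rw [hQ]; exact Finset.prod_eq_zero (Finset.mem_univ i) (sub_self _)
      have h1 : (lam i • (1 : Mat n) + -Q).det = 0 := by
        have : lam i • (1 : Mat n) + -Q = -(Q - lam i • (1 : Mat n)) := by abel
        rw [this, det_neg, h0, mul_zero]
      have h2 : lam i • φ 1 + -(φ Q) = φ (lam i • (1 : Mat n) + -Q) := by
        simp [map_add, map_smul, map_neg]
      rw [h2, h _ h1, h1, mul_zero]
  have h3 := congrArg (Polynomial.eval 0) key
  rw [Polynomial.eval_mul, Polynomial.eval_C, eval_pencil, eval_pencil] at h3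
  simp only [zero_smul, zero_add, det_neg, Fintype.card_fin] at h3
  have h4 : ((-1 : ℂ) ^ n) ≠ 0 := pow_ne_zero _ (by norm_num)
  apply mul_left_cancel₀ h4
  rw [h3]; ring

lemma det_of_family (φ : Mat n →ₗ[ℂ] Mat n) (h : SP φ) (Q : Mat n) (lam : Fin n → ℂ)
    (hQ : ∀ x s : ℂ, (Q + x • diagonal (fun i : Fin n => ((i : ℕ) : ℂ)) - s • (1 : Mat n)).det
      = ∏ i, (lam i + x * ((i : ℕ) : ℂ) - s)) :
    (φ Q).det = (φ 1).det * Q.det := by
  set D : Mat n := diagonal (fun i : Fin n => ((i : ℕ) : ℂ)) with hD
  have key : ((X : ℂ[X]) • (φ D).map C + (φ Q).map C).det =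
      C (φ 1).det * ((X : ℂ[X]) • D.map C + Q.map C).det := by
    apply Polynomial.eq_of_infinite_eval_eq
    -- bad set is finite
    have hfin : Set.Finite {x : ℂ | ¬ Function.Injective (fun i : Fin n => lam i + x * ((i : ℕ) : ℂ))} := by
      have : {x : ℂ | ¬ Function.Injective (fun i : Fin n => lam i + x * ((i : ℕ) : ℂ))} ⊆
          Set.range (fun p : Fin n × Fin n => (lam p.2 - lam p.1) / (((p.1 : ℕ) : ℂ) - ((p.2 : ℕ) : ℂ))) := by
        intro x hx
        simp only [Function.Injective, not_forall, Set.mem_ofPred_eq] at hx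
        obtain ⟨i, j, hij, hne⟩ := hx
        refine ⟨(i, j), ?_⟩
        have hne' : (((i : ℕ) : ℂ) - ((j : ℕ) : ℂ)) ≠ 0 := by
          intro h0
          apply hne
          apply Fin.ext
          exact_mod_cast sub_eq_zero.1 h0
        simp only
        rw [div_eq_iff hne']
        linear_combination -hij
      exact (Set.finite_range _).subset this
    refine Set.Infinite.mono ?_ hfin.infinite_compl
    intro x hx
    simp only [Set.mem_compl_iff, Set.mem_ofPred_eq, not_not] at hx
    simp only [Set.mem_ofPred_eq, Polynomial.eval_mul, Polynomial.eval_C, eval_pencil]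
    have h1 := det_of_distinct φ h (Q + x • D) _ hx (hQ x)
    have h2 : x • φ D + φ Q = φ (Q + x • D) := by
      simp [map_add, map_smul, add_comm]
    rw [h2, h1, add_comm (x • D) Q]
  have h3 := congrArg (Polynomial.eval 0) key
  rw [Polynomial.eval_mul, Polynomial.eval_C, eval_pencil, eval_pencil] at h3
  simpa using h3

lemma det_of_upper (φ : Mat n →ₗ[ℂ] Mat n) (h : SP φ) (Q : Mat n)
    (hQ : Q.BlockTriangular id) : (φ Q).det = (φ 1).det * Q.det := by
  apply det_of_family φ h Q (fun i => Q i i)
  intro x s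
  have : (Q + x • diagonal (fun i : Fin n => ((i : ℕ) : ℂ)) - s • (1 : Mat n)).BlockTriangular id := by
    intro i j hij
    have hne : i ≠ j := (ne_of_lt hij).symm
    have := hQ hij
    simp [this, hne]
  rw [det_of_isUpperTriangular this]
  apply Finset.prod_congr rfl
  intro i _
  simp

lemma det_of_lower (φ : Mat n →ₗ[ℂ] Mat n) (h : SP φ) (Q : Mat n)
    (hQ : Q.BlockTriangular OrderDual.toDual) : (φ Q).det = (φ 1).det * Q.det := by
  apply det_of_family φ h Q (fun i => Q i i)
  intro x s
  have : (Q + x • diagonal (fun i : Fin n => ((i : ℕ) : ℂ)) - s • (1 : Mat n)).BlockTriangular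
      OrderDual.toDual := by
    intro i j hij
    have hne : i ≠ j := by
      intro h; subst h; exact lt_irrefl _ hij
    have := hQ hij
    simp [this, hne]
  rw [det_of_isLowerTriangular _ this]
  apply Finset.prod_congr rfl
  intro i _
  simp

/-- A linear map of matrices which preserves singularity multiplies the determinant by a
constant. -/
theorem det_map (φ : Mat n →ₗ[ℂ] Mat n) (h : SP φ) (Q : Mat n) :
    (φ Q).det = (φ 1).det * Q.det := by
  revert φ
  apply diagonal_transvection_induction
    (fun Q : Mat n => ∀ φ : Mat n →ₗ[ℂ] Mat n, SP φ → (φ Q).det = (φ 1).det * Q.det)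
  · intro D _ φ hφ
    apply det_of_upper φ hφ
    exact blockTriangular_diagonal D
  · intro t φ hφ
    rcases lt_or_gt_of_ne t.hij with hlt | hgt
    · apply det_of_upper φ hφ
      intro i j hij
      simp only [TransvectionStruct.toMatrix, transvection, Matrix.add_apply]
      have hne : i ≠ j := (ne_of_lt hij).symm
      rw [one_apply_ne hne, zero_add]
      rw [single_apply]
      rw [if_neg]
      rintro ⟨rfl, rfl⟩
      exact lt_asymm hij hlt
    · apply det_of_lower φ hφ
      intro i j hij
      simp only [TransvectionStruct.toMatrix, transvection, Matrix.add_apply]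
      have hne : i ≠ j := by
        intro h; subst h; exact lt_irrefl _ hij
      rw [one_apply_ne hne, zero_add]
      rw [single_apply]
      rw [if_neg]
      rintro ⟨rfl, rfl⟩
      exact lt_asymm hgt (by simpa using hij)
  · intro A B hA hB φ hφ
    let ψ : Mat n →ₗ[ℂ] Mat n := φ ∘ₗ LinearMap.mulRight ℂ B
    have hψ : SP ψ := by
      intro Z hZ
      apply hφ
      simp [hZ]
    have h1 := hA ψ hψ
    simp only [ψ, LinearMap.comp_apply, LinearMap.mulRight_apply, one_mul] at h1
    rw [h1, hB φ hφ, det_mul]; ring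

end Pool.Agent.H578R3.Sing
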