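import Pool.Agent.H578R3.SingRad

/-!
# Linear maps which preserve matrices of rank at most one (Frobenius, Dieudonne)
-/

open Matrix

namespace Pool.Agent.H578R3.Sing

variable {n : ℕ}

/-- The vectors `a`, `b` are parallel. -/
def Par (a b : Fin n → ℂ) : Prop := ∀ k l, a k * b l = a l * b k

lemma par_or {a b a' b' x y : Fin n → ℂ} (h : vecMulVec a b + vecMulVec a' b' = vecMulVec x y) :
    Par a a' ∨ Par b b' := by
  by_contra hcon
  push Not at hcon
  obtain ⟨h1, h2⟩ := hcon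
  unfold Par at h1 h2
  push Not at h1 h2
  obtain ⟨i, j, hij⟩ := h1
  obtain ⟨k, l, hkl⟩ := h2
  have e : ∀ p q, a p * b q + a' p * b' q = x p * y q := by
    intro p q
    have := congrFun (congrFun h p) q
    simpa [vecMulVec_apply] using this
  have m : (a i * a' j - a j * a' i) * (b k * b' l - b l * b' k) = 0 := by
    have : (a i * b k + a' i * b' k) * (a j * b l + a' j * b' l) -
      (a i * b l + a' i * b' l) * (a j * b k + a' j * b' k) = 0 := by
      rw [e, e, e, e]; ring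
    linear_combination this
  rcases mul_eq_zero.1 m with m | m
  · exact hij (sub_eq_zero.1 m)
  · exact hkl (sub_eq_zero.1 m)

lemma Par.exists_smul {a b : Fin n → ℂ} (h : Par a b) (ha : a ≠ 0) : ∃ c : ℂ, b = c • a := by
  obtain ⟨k, hk⟩ := Function.ne_iff.1 ha
  simp only [Pi.zero_apply] at hk
  refine ⟨b k / a k, funext fun l => ?_⟩
  simp only [Pi.smul_apply, smul_eq_mul]
  have := h k l
  field_simp
  linear_combination this

lemma vmv_ne {x y : Fin n → ℂ} (hx : x ≠ 0) (hy : y ≠ 0) : vecMulVec x y ≠ 0 := by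
  obtain ⟨k, hk⟩ := Function.ne_iff.1 hx
  obtain ⟨l, hl⟩ := Function.ne_iff.1 hy
  intro h
  have := congrFun (congrFun h k) l
  simp only [vecMulVec_apply, Matrix.zero_apply, mul_eq_zero] at this
  rcases this with h | h
  · exact hk h
  · exact hl h

lemma vmv_add (x y y' : Fin n → ℂ) : vecMulVec x (y + y') = vecMulVec x y + vecMulVec x y' := by
  ext i j; simp [vecMulVec_apply, mul_add]

lemma vmv_sub (x y y' : Fin n → ℂ) : vecMulVec x (y - y') = vecMulVec x y - vecMulVec x y' := by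
  ext i j; simp [vecMulVec_apply, mul_sub]

lemma add_vmv (x x' y : Fin n → ℂ) : vecMulVec (x + x') y = vecMulVec x y + vecMulVec x' y := by
  ext i j; simp [vecMulVec_apply, add_mul]

lemma sub_vmv (x x' y : Fin n → ℂ) : vecMulVec (x - x') y = vecMulVec x y - vecMulVec x' y := by
  ext i j; simp [vecMulVec_apply, sub_mul]

lemma vmv_smul (c : ℂ) (x y : Fin n → ℂ) : vecMulVec x (c • y) = c • vecMulVec x y := by
  ext i j; simp [vecMulVec_apply]; ring

lemma smul_vmv (c : ℂ) (x y : Fin n → ℂ) : vecMulVec (c • x) y = c • vecMulVec x y := by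
  ext i j; simp [vecMulVec_apply]; ring

/-- The map preserves matrices of rank at most one. -/
def R1P (h : Mat n →ₗ[ℂ] Mat n) : Prop :=
  ∀ x y, ∃ x' y', h (vecMulVec x y) = vecMulVec x' y'

/-- `h` maps `x ⊗ ℂⁿ` to `u ⊗ ℂⁿ`. -/
def TA (h : Mat n →ₗ[ℂ] Mat n) (x u : Fin n → ℂ) : Prop :=
  ∀ y, ∃ z, h (vecMulVec x y) = vecMulVec u z

/-- `h` maps `x ⊗ ℂⁿ` to `ℂⁿ ⊗ v`. -/
def TB (h : Mat n →ₗ[ℂ] Mat n) (x v : Fin n → ℂ) : Prop :=
  ∀ y, ∃ z, h (vecMulVec x y) = vecMulVec z v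

lemma type_dich (h : Mat n →ₗ[ℂ] Mat n) (hr : R1P h) (x : Fin n → ℂ) :
    (∃ u, TA h x u) ∨ (∃ v, TB h x v) := by
  by_cases hall : ∀ y, h (vecMulVec x y) = 0
  · left
    exact ⟨0, fun y => ⟨0, by rw [hall y]; ext i j; simp [vecMulVec_apply]⟩⟩
  push Not at hall
  obtain ⟨y0, hy0⟩ := hall
  obtain ⟨α, β, hαβ⟩ := hr x y0
  have hα : α ≠ 0 := by
    rintro rfl; apply hy0; rw [hαβ]; ext i j; simp [vecMulVec_apply]
  have hβ : β ≠ 0 := by
    rintro rfl; apply hy0; rw [hαβ]; ext i j; simp [vecMulVec_apply]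
  have hor : ∀ y, (∃ z, h (vecMulVec x y) = vecMulVec α z) ∨ (∃ z, h (vecMulVec x y) = vecMulVec z β) := by
    intro y
    obtain ⟨a, b, hab⟩ := hr x y
    obtain ⟨p, q, hpq⟩ := hr x (y0 + y)
    rw [vmv_add, map_add, hαβ, hab] at hpq
    rcases par_or hpq with hp | hp
    · left
      obtain ⟨c, rfl⟩ := hp.exists_smul hα
      exact ⟨c • b, by rw [hab, smul_vmv, vmv_smul]⟩
    · right
      obtain ⟨c, rfl⟩ := hp.exists_smul hβ
      exact ⟨c • a, by rw [hab, smul_vmv, vmv_smul]⟩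
  by_cases hA : TA h x α
  · exact Or.inl ⟨α, hA⟩
  by_cases hB : TB h x β
  · exact Or.inr ⟨β, hB⟩
  exfalso
  unfold TA at hA
  unfold TB at hB
  push Not at hA hB
  obtain ⟨u, hu⟩ := hA
  obtain ⟨v, hv⟩ := hB
  obtain ⟨zu, hzu⟩ := (hor u).resolve_left (by rintro ⟨z, hz⟩; exact hu z hz)
  obtain ⟨zv, hzv⟩ := (hor v).resolve_right (by rintro ⟨z, hz⟩; exact hv z hz)
  rcases hor (u + v) with ⟨z, hz⟩ | ⟨z, hz⟩
  · apply hu (z - zv)
    rw [vmv_sub, ← hz, vmv_add, map_add, hzv]; abel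
  · apply hv (z - zu)
    rw [sub_vmv, ← hz, vmv_add, map_add, hzu]; abel

/-- In the first type, `h` is given on `x ⊗ ℂⁿ` by a bijective linear map. -/
lemma TA.exists_map {h : Mat n →ₗ[ℂ] Mat n} (hi : Function.Injective h) {x u : Fin n → ℂ}
    (hx : x ≠ 0) (hu : u ≠ 0) (hT : TA h x u) :
    ∃ T : (Fin n → ℂ) →ₗ[ℂ] (Fin n → ℂ), Function.Bijective T ∧
      ∀ y, h (vecMulVec x y) = vecMulVec u (T y) := by
  obtain ⟨k, hk⟩ := Function.ne_iff.1 hu
  simp only [Pi.zero_apply] at hk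
  let T : (Fin n → ℂ) →ₗ[ℂ] (Fin n → ℂ) :=
    { toFun := fun y => (u k)⁻¹ • (h (vecMulVec x y)) k
      map_add' := by
        intro y y'
        rw [vmv_add, map_add]
        ext l; simp [mul_add]
      map_smul' := by
        intro c y
        rw [vmv_smul, map_smul]
        ext l; simp; ring }
  have hTz : ∀ y, h (vecMulVec x y) = vecMulVec u (T y) := by
    intro y
    obtain ⟨z, hz⟩ := hT y
    have : T y = z := by
      change (u k)⁻¹ • (h (vecMulVec x y)) k = z
      rw [hz]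
      ext l
      simp only [Pi.smul_apply, vecMulVec_apply, smul_eq_mul]
      field_simp
    rw [this, hz]
  have hinj : Function.Injective T := by
    rw [← LinearMap.ker_eq_bot, LinearMap.ker_eq_bot']
    intro y hy
    by_contra hne
    apply vmv_ne hx hne
    apply hi
    rw [hTz y, hy, map_zero]
    ext i j; simp [vecMulVec_apply]
  exact ⟨T, ⟨hinj, LinearMap.injective_iff_surjective.1 hinj⟩, hTz⟩

end Pool.Agent.H578R3.Sing
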