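import Pool.Agent.H578R3.SingFrob

/-!
# Linear maps which preserve matrices of rank at most one, continued
-/

open Matrix

namespace Pool.Agent.H578R3.Sing

variable {n : ℕ}

/-- The composition of `h` with the transpose. -/
noncomputable def trc (h : Mat n →ₗ[ℂ] Mat n) : Mat n →ₗ[ℂ] Mat n :=
  { toFun := fun Z => (h Z)ᵀ
    map_add' := by intro a b; simp
    map_smul' := by intro a b; simp }

lemma trc_apply (h : Mat n →ₗ[ℂ] Mat n) (Z : Mat n) : trc h Z = (h Z)ᵀ := rfl

lemma vmv_tr (x y : Fin n → ℂ) : (vecMulVec x y)ᵀ = vecMulVec y x := by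
  ext i j; simp [vecMulVec_apply, mul_comm]

lemma TB.trc {h : Mat n →ₗ[ℂ] Mat n} {x v : Fin n → ℂ} (hT : TB h x v) : TA (trc h) x v := by
  intro y
  obtain ⟨z, hz⟩ := hT y
  exact ⟨z, by rw [trc_apply, hz, vmv_tr]⟩

lemma R1P.trc {h : Mat n →ₗ[ℂ] Mat n} (hr : R1P h) : R1P (trc h) := by
  intro x y
  obtain ⟨x', y', hxy⟩ := hr x y
  exact ⟨y', x', by rw [trc_apply, hxy, vmv_tr]⟩

lemma trc_inj {h : Mat n →ₗ[ℂ] Mat n} (hi : Function.Injective h) :
    Function.Injective (trc h) := by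
  intro a b hab
  apply hi
  rw [trc_apply, trc_apply] at hab
  exact transpose_injective hab

lemma not_all_par (hn : 2 ≤ n) (u : Fin n → ℂ) : ∃ w : Fin n → ℂ, ∀ c : ℂ, w ≠ c • u := by
  by_contra hcon
  push Not at hcon
  obtain ⟨c0, h0⟩ := hcon (Pi.single ⟨0, by omega⟩ 1)
  obtain ⟨c1, h1⟩ := hcon (Pi.single ⟨1, by omega⟩ 1)
  have a := congrFun h0 ⟨0, by omega⟩
  have b := congrFun h0 ⟨1, by omega⟩
  have c := congrFun h1 ⟨0, by omega⟩
  have d := congrFun h1 ⟨1, by omega⟩
  simp only [Pi.single_eq_same, Pi.smul_apply, smul_eq_mul] at a d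
  rw [Pi.single_eq_of_ne (by intro h; simpa using congrArg Fin.val h)] at b c
  simp only [Pi.smul_apply, smul_eq_mul] at b c
  have hc0 : c0 ≠ 0 := by rintro rfl; simp at a
  have hu1 : u ⟨1, by omega⟩ = 0 := by
    rcases mul_eq_zero.1 b.symm with h | h
    · exact absurd h hc0
    · exact h
  rw [hu1, mul_zero] at d
  exact one_ne_zero d

lemma TA.ne_zero {h : Mat n →ₗ[ℂ] Mat n} (hi : Function.Injective h) {x u : Fin n → ℂ}
    (hx : x ≠ 0) (hT : TA h x u) : u ≠ 0 := by
  rintro rfl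
  obtain ⟨z, hz⟩ := hT x
  apply vmv_ne hx hx
  apply hi
  rw [hz, map_zero]; ext i j; simp [vecMulVec_apply]

lemma TA_all (hn : 2 ≤ n) {h : Mat n →ₗ[ℂ] Mat n} (hi : Function.Injective h) (hr : R1P h)
    {x0 u0 : Fin n → ℂ} (hx0 : x0 ≠ 0) (hT0 : TA h x0 u0) (x : Fin n → ℂ) : ∃ u, TA h x u := by
  by_cases hx : x = 0
  · subst hx
    exact ⟨0, fun y => ⟨0, by
      have : vecMulVec (0 : Fin n → ℂ) y = 0 := by ext i j; simp [vecMulVec_apply]
      rw [this, map_zero]; ext i j; simp [vecMulVec_apply]⟩⟩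
  rcases type_dich h hr x with hA | ⟨v, hB⟩
  · exact hA
  exfalso
  have hu0 := hT0.ne_zero hi hx0
  obtain ⟨T, hTb, hT⟩ := hT0.exists_map hi hx0 hu0
  have hB' := hB.trc
  have hv := hB'.ne_zero (trc_inj hi) hx
  obtain ⟨T', hTb', hT'⟩ := hB'.exists_map (trc_inj hi) hx hv
  have hT'' : ∀ y, h (vecMulVec x y) = vecMulVec (T' y) v := by
    intro y
    have := hT' y
    rw [trc_apply] at this
    have := congrArg transpose this
    rwa [transpose_transpose, vmv_tr] at this
  obtain ⟨y, hy⟩ := hTb.2 v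
  obtain ⟨y', hy'⟩ := hTb'.2 u0
  have e1 : vecMulVec x0 y = vecMulVec x y' := by
    apply hi
    rw [hT, hT'', hy, hy']
  have hy'0 : y' ≠ 0 := by
    rintro rfl
    rw [map_zero] at hy'
    exact hu0 hy'.symm
  obtain ⟨l, hl⟩ := Function.ne_iff.1 hy'0
  simp only [Pi.zero_apply] at hl
  have hxx : x = (y l / y' l) • x0 := by
    ext i
    have := congrFun (congrFun e1 i) l
    simp only [vecMulVec_apply] at this
    simp only [Pi.smul_apply, smul_eq_mul]
    field_simp
    linear_combination -this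
  obtain ⟨m, hm⟩ := Function.ne_iff.1 hv
  simp only [Pi.zero_apply] at hm
  obtain ⟨w, hw⟩ := not_all_par hn u0
  obtain ⟨y2, hy2⟩ := hTb'.2 w
  have e2 : vecMulVec w v = (y l / y' l) • vecMulVec u0 (T y2) := by
    rw [← hy2, ← hT'', ← hT, ← map_smul, ← smul_vmv, ← hxx]
  apply hw ((y l / y' l) * T y2 m / v m)
  ext i
  have := congrFun (congrFun e2 i) m
  simp only [vecMulVec_apply, Matrix.smul_apply, smul_eq_mul] at this
  simp only [Pi.smul_apply, smul_eq_mul]
  field_simp
  field_simp at this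
  linear_combination this

lemma vmv_smul_eq (c : ℂ) (x y : Fin n → ℂ) : vecMulVec (c • x) y = vecMulVec x (c • y) := by
  rw [smul_vmv, vmv_smul]

/-- A rank-one preserver of the first type is of the form `Z ↦ Q Z R`. -/
lemma formA (hn : 2 ≤ n) {h : Mat n →ₗ[ℂ] Mat n} (hi : Function.Injective h) (hr : R1P h)
    (hall : ∀ x, ∃ u, TA h x u) : ∃ Q R : Mat n, ∀ Z, h Z = Q * Z * R := by
  have hei : ∀ i : Fin n, (Pi.single i 1 : Fin n → ℂ) ≠ 0 := by
    intro i h0
    have := congrFun h0 i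
    simp at this
  choose u hu using fun i : Fin n => hall (Pi.single i 1)
  have hu0 : ∀ i, u i ≠ 0 := fun i => (hu i).ne_zero hi (hei i)
  choose T hTb hT using fun i : Fin n => (hu i).exists_map hi (hei i) (hu0 i)
  let o : Fin n := ⟨0, by omega⟩
  -- all `T i` are multiples of `T o`
  have hpar : ∀ i j, i ≠ j → ∀ y, Par (T i y) (T j y) := by
    intro i j hij y
    obtain ⟨p, q, hpq⟩ := hr (Pi.single i 1 + Pi.single j 1) y
    rw [add_vmv, map_add, hT, hT] at hpq
    rcases par_or hpq with hp | hp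
    · exfalso
      obtain ⟨c, hc⟩ := hp.exists_smul (hu0 i)
      obtain ⟨y', hy'⟩ := (hTb i).2 (c • T j (Pi.single o 1))
      have : vecMulVec (Pi.single i 1) y' = vecMulVec (Pi.single j 1) (Pi.single o 1) := by
        apply hi
        rw [hT, hT, hy', hc, vmv_smul_eq]
      have := congrFun (congrFun this j) o
      simp [vecMulVec_apply, Ne.symm hij] at this
    · exact hp
  have hmul : ∀ i, ∃ c : ℂ, ∀ y, T i y = c • T o y := by
    intro i
    by_cases hio : i = o
    · exact ⟨1, fun y => by rw [hio, one_smul]⟩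
    let e : (Fin n → ℂ) ≃ₗ[ℂ] (Fin n → ℂ) := LinearEquiv.ofBijective (T o) (hTb o)
    have : ∃ a : ℂ, (T i ∘ₗ (e.symm : (Fin n → ℂ) →ₗ[ℂ] (Fin n → ℂ))) = a • 1 := by
      apply LinearMap.exists_eq_smul_id_of_forall_notLinearIndependent
      intro v hli
      have hp := hpar o i (Ne.symm hio) (e.symm v)
      have hev : T o (e.symm v) = v := e.apply_symm_apply v
      rw [hev] at hp
      by_cases hv0 : v = 0
      · exact hli.ne_zero 0 (by simpa using hv0)
      obtain ⟨c, hc⟩ := hp.exists_smul hv0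
      rw [LinearIndependent.pair_iff] at hli
      have := hli c (-1) (by
        simp only [LinearMap.comp_apply, LinearEquiv.coe_coe]
        rw [hc]; simp)
      simp at this
    obtain ⟨a, ha⟩ := this
    refine ⟨a, fun y => ?_⟩
    have := congrArg (fun f => f (T o y)) ha
    simp only [LinearMap.comp_apply, LinearEquiv.coe_coe] at this
    have hey : e.symm (T o y) = y := e.symm_apply_apply y
    rw [hey] at this
    rw [this]; simp
  choose c hc using hmul
  -- the matrix of `T o`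
  refine ⟨Matrix.of fun k i => c i * u i k, (LinearMap.toMatrix' (T o))ᵀ, fun Z => ?_⟩
  have hZ : Z = ∑ i, vecMulVec (Pi.single i 1) (Z i) := by
    ext p q
    rw [Matrix.sum_apply]
    simp [vecMulVec_apply, Pi.single_apply]
  conv_lhs => rw [hZ]
  rw [map_sum]
  ext p q
  rw [Matrix.sum_apply]
  have hto : ∀ y q, T o y q = ∑ l, LinearMap.toMatrix' (T o) q l * y l := by
    intro y q
    have := congrFun (LinearMap.toMatrix'_mulVec (T o) y) q
    rw [← this]; rfl
  have h1 : ∀ i, h (vecMulVec (Pi.single i 1) (Z i)) p q =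
      ∑ l, (c i * u i p) * Z i l * LinearMap.toMatrix' (T o) q l := by
    intro i
    rw [hT i, hc i, vecMulVec_apply, Pi.smul_apply, hto, smul_eq_mul, Finset.mul_sum,
      Finset.mul_sum]
    apply Finset.sum_congr rfl
    intro l _; ring
  rw [Finset.sum_congr rfl (fun i _ => h1 i), Matrix.mul_apply]
  simp only [Matrix.mul_apply, Matrix.of_apply, Matrix.transpose_apply, Finset.sum_mul]
  rw [Finset.sum_comm]

/-- A bijective linear map of matrices which preserves matrices of rank at most one is of the form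
`Z ↦ Q Z R` or `Z ↦ Q Zᵀ R`. -/
theorem form (hn : 2 ≤ n) {h : Mat n →ₗ[ℂ] Mat n} (hi : Function.Injective h) (hr : R1P h) :
    ∃ Q R : Mat n, (∀ Z, h Z = Q * Z * R) ∨ (∀ Z, h Z = Q * Zᵀ * R) := by
  have he : (Pi.single (⟨0, by omega⟩ : Fin n) 1 : Fin n → ℂ) ≠ 0 := by
    intro h0
    have := congrFun h0 ⟨0, by omega⟩
    simp at this
  rcases type_dich h hr (Pi.single (⟨0, by omega⟩ : Fin n) 1) with ⟨u, hA⟩ | ⟨v, hB⟩
  · obtain ⟨Q, R, hQR⟩ := formA hn hi hr (TA_all hn hi hr he hA)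
    exact ⟨Q, R, Or.inl hQR⟩
  · obtain ⟨Q, R, hQR⟩ := formA hn (trc_inj hi) hr.trc (TA_all hn (trc_inj hi) hr.trc he hB.trc)
    refine ⟨Rᵀ, Qᵀ, Or.inr fun Z => ?_⟩
    have := hQR Z
    rw [trc_apply] at this
    have := congrArg transpose this
    rw [transpose_transpose] at this
    rw [this, transpose_mul, transpose_mul, Matrix.mul_assoc]

end Pool.Agent.H578R3.Sing
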