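import Pool.Agent.H578R3.SingPoint

set_option autoImplicit false

namespace Pool.Agent.H578R3.Sing

open Matrix MvPolynomial

/-- The coordinate ring of the space of `m`-tuples of complex `n × n` matrices. -/
abbrev CoordRing (n m : ℕ) : Type := MvPolynomial (Fin m × Fin n × Fin n) ℂ

/-- The `k`-th generic matrix. -/
noncomputable def genericMatrix (n m : ℕ) (k : Fin m) : Matrix (Fin n) (Fin n) (CoordRing n m) :=
  Matrix.of fun i j => X (k, i, j)

/-- The determinantal polynomial `f_c`. -/
noncomputable def detPoly (n m : ℕ) (c : Fin m → ℂ) : CoordRing n m :=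
  (∑ k, (C (c k) : CoordRing n m) • genericMatrix n m k).det

/-- The ideal generated by the determinantal polynomials. -/
noncomputable def J (n m : ℕ) : Ideal (CoordRing n m) := Ideal.span (Set.range (detPoly n m))

/-- The tuples whose linear span contains no invertible matrix. -/
def SING (n m : ℕ) : Set (Fin m → Matrix (Fin n) (Fin n) ℂ) :=
  {A | ∀ c : Fin m → ℂ, (∑ k, c k • A k).det = 0}

/-- The ideal of all polynomials vanishing on `SING n m`. -/
noncomputable def I (n m : ℕ) : Ideal (CoordRing n m) where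
  carrier := {F | ∀ A ∈ SING n m, eval (fun v => A v.1 v.2.1 v.2.2) F = 0}
  add_mem' := by
    intro a b ha hb A hA
    rw [map_add, ha A hA, hb A hA, add_zero]
  zero_mem' := by
    intro A _
    rw [map_zero]
  smul_mem' := by
    intro c a ha A hA
    rw [smul_eq_mul, map_mul, ha A hA, mul_zero]

theorem mem_I {n m : ℕ} {F : CoordRing n m} :
    F ∈ I n m ↔ ∀ A ∈ SING n m, eval (fun v => A v.1 v.2.1 v.2.2) F = 0 := Iff.rfl

theorem map_detPoly {n m : ℕ} {S : Type*} [CommRing S] (f : CoordRing n m →+* S) (c : Fin m → ℂ) :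
    f (detPoly n m c) =
      (∑ k, (f (C (c k)) : S) • (genericMatrix n m k).map f).det := by
  unfold detPoly
  rw [RingHom.map_det, RingHom.mapMatrix_apply]
  congr 1
  ext i j
  simp [Matrix.sum_apply, genericMatrix]

theorem J_le_I (n m : ℕ) : J n m ≤ I n m := by
  unfold J
  rw [Ideal.span_le]
  rintro _ ⟨c, rfl⟩
  rw [SetLike.mem_coe, mem_I]
  intro A hA
  have h := map_detPoly (eval (fun v => A v.1 v.2.1 v.2.2)) c
  rw [h]
  have h2 := hA c
  have h3 : (∑ k, (eval (fun v : Fin m × Fin n × Fin n => A v.1 v.2.1 v.2.2)) (C (c k)) •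
      (genericMatrix n m k).map (eval (fun v => A v.1 v.2.1 v.2.2))) = ∑ k, c k • A k := by
    apply Finset.sum_congr rfl
    intro k _
    ext i j
    simp [genericMatrix]
  rw [h3, h2]

section Neg

open Pool.Agent.H578R3.SingNeg

variable {S : Type} [CommRing S] [Algebra ℂ S]

theorem det_colMat_eq (N : ℕ) (hN : 1 ≤ N) (e2 : S) :
    ∃ c : ℂ, c ≠ 0 ∧ (colMat (D0 S N) (D2 N e2)).det = algebraMap ℂ S c * e2 := by
  rw [det_colMat]
  set q : Fin (N + 1) → ℂ := fun j => if j = Fin.last N then
      ∏ l : Fin (N + 1), (if l = Fin.last N then (1 : ℂ) else (1 + ((l : ℕ) : ℂ)))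
    else (-∏ l : Fin (N + 1), (if l = j ∨ l = Fin.last N then (1 : ℂ) else
        (-((j : ℕ) : ℂ) + ((l : ℕ) : ℂ)))) with hq
  set t : Fin (N + 1) → S := fun j => if j = 0 then -e2 else 1 with ht
  have hlast : (0 : Fin (N + 1)) ≠ Fin.last N := by
    intro h
    have := congrArg Fin.val h
    simp at this
    omega
  have h1 : ∀ j, colMat (D0 S N) (D2 N e2) j j = algebraMap ℂ S (q j) * t j := by
    intro j
    by_cases hj : j = Fin.last N
    · subst hj
      rw [colMat_last]
      simp only [hq, ht, if_true, hlast.symm, if_false, mul_one]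
      rw [map_prod]
      apply Finset.prod_congr rfl
      intro l _
      split_ifs <;> simp
    · rw [colMat_apply_self _ hj]
      simp only [hq, ht, hj, if_false, or_false]
      rw [map_neg, map_prod, mul_comm]
      have h2 : bval e2 j = (if j = 0 then -e2 else 1 : S) := rfl
      rw [h2]
      congr 2
      apply Finset.prod_congr rfl
      intro l _
      split_ifs <;> simp
  refine ⟨-∏ j, q j, ?_, ?_⟩
  · rw [neg_ne_zero]
    rw [Finset.prod_ne_zero_iff]
    intro j _
    simp only [hq]
    split_ifs with hj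
    · rw [Finset.prod_ne_zero_iff]
      intro l _
      split_ifs
      · exact one_ne_zero
      · have : (1 : ℂ) + ((l : ℕ) : ℂ) = ((1 + (l : ℕ) : ℕ) : ℂ) := by push_cast; ring
        rw [this]
        exact Nat.cast_ne_zero.2 (by omega)
    · rw [neg_ne_zero, Finset.prod_ne_zero_iff]
      intro l _
      split_ifs with h
      · exact one_ne_zero
      · intro h'
        apply h
        left
        have h2 : ((l : ℕ) : ℂ) = ((j : ℕ) : ℂ) := by linear_combination h'
        exact Fin.ext (Nat.cast_injective h2)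
  · rw [Finset.prod_congr rfl (fun j _ => h1 j), Finset.prod_mul_distrib, ← map_prod]
    have h2 : ∏ j, t j = -e2 := by
      rw [Finset.prod_eq_single 0]
      · simp [ht]
      · intro b _ hb
        simp [ht, hb]
      · intro h
        exact absurd (Finset.mem_univ _) h
    rw [h2, map_neg]
    ring

/-- The explicit polynomial. -/
noncomputable def Fpoly (N m : ℕ) (h : 3 ≤ m) : CoordRing (N + 1) m :=
  Fval (genericMatrix (N + 1) m ⟨0, by omega⟩) (genericMatrix (N + 1) m ⟨1, by omega⟩)
    (genericMatrix (N + 1) m ⟨2, by omega⟩)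

theorem Fpoly_mem_I (N m : ℕ) (h : 3 ≤ m) : Fpoly N m h ∈ I (N + 1) m := by
  rw [mem_I]
  intro A hA
  unfold Fpoly
  rw [map_Fval]
  have e : ∀ k : Fin m, (genericMatrix (N + 1) m k).map
      (eval (fun v : Fin m × Fin (N + 1) × Fin (N + 1) => A v.1 v.2.1 v.2.2)) = A k := by
    intro k
    ext i j
    simp [genericMatrix]
  rw [e, e, e]
  apply Fval_eq_zero
  intro a b c
  have h1 := hA (fun k => if k = ⟨0, by omega⟩ then a else if k = ⟨1, by omega⟩ then b else
    if k = ⟨2, by omega⟩ then c else 0)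
  have h2 : (∑ k, (fun k : Fin m => if k = ⟨0, by omega⟩ then a else if k = ⟨1, by omega⟩ then b else
    if k = ⟨2, by omega⟩ then c else 0) k • A k) =
      a • A ⟨0, by omega⟩ + b • A ⟨1, by omega⟩ + c • A ⟨2, by omega⟩ := by
    rw [← Finset.sum_subset (Finset.subset_univ
      ({⟨0, by omega⟩, ⟨1, by omega⟩, ⟨2, by omega⟩} : Finset (Fin m)))]
    · rw [Finset.sum_insert, Finset.sum_insert, Finset.sum_singleton]
      · simp [Fin.ext_iff, add_assoc]
      · simp [Fin.ext_iff]
      · simp [Fin.ext_iff]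
    · intro x _ hx
      simp only [Finset.mem_insert, Finset.mem_singleton, not_or] at hx
      simp [hx.1, hx.2.1, hx.2.2]
  rw [h2] at h1
  exact h1

theorem Fpoly_not_mem_J_of (N m : ℕ) (hN : 1 ≤ N) (h : 3 ≤ m) (e1 e2 : S) (e1_sq : e1 * e1 = 0)
    (e2_sq : e2 * e2 = 0) (smul_ne : ∀ c : ℂ, c ≠ 0 → e1 * (algebraMap ℂ S c * e2) ≠ 0) :
    Fpoly N m h ∉ J (N + 1) m := by
  intro hF
  set pt : Fin m × Fin (N + 1) × Fin (N + 1) → S := fun v =>
    if v.1 = ⟨0, by omega⟩ then D0 S N v.2.1 v.2.2 else
    if v.1 = ⟨1, by omega⟩ then D1 N e1 v.2.1 v.2.2 else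
    if v.1 = ⟨2, by omega⟩ then D2 N e2 v.2.1 v.2.2 else 0 with hpt
  set φ : CoordRing (N + 1) m →+* S := eval₂Hom (algebraMap ℂ S) pt with hφ
  have hX : ∀ k i j, φ (X (k, i, j)) = pt (k, i, j) := by
    intro k i j
    rw [hφ, coe_eval₂Hom, eval₂_X]
  have hJ : J (N + 1) m ≤ RingHom.ker φ := by
    unfold J
    rw [Ideal.span_le]
    rintro _ ⟨c, rfl⟩
    rw [SetLike.mem_coe, RingHom.mem_ker, map_detPoly]
    have h2 : (∑ k, φ (C (c k)) • (genericMatrix (N + 1) m k).map φ) =
        (algebraMap ℂ S (c ⟨0, by omega⟩)) • D0 S N + (algebraMap ℂ S (c ⟨1, by omega⟩)) • D1 N e1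
          + (algebraMap ℂ S (c ⟨2, by omega⟩)) • D2 N e2 := by
      rw [← Finset.sum_subset (Finset.subset_univ
        ({⟨0, by omega⟩, ⟨1, by omega⟩, ⟨2, by omega⟩} : Finset (Fin m)))]
      · rw [Finset.sum_insert, Finset.sum_insert, Finset.sum_singleton, add_assoc]
        · have e0 : (genericMatrix (N + 1) m ⟨0, by omega⟩).map φ = D0 S N := by
            ext i j
            simp [genericMatrix, hX, hpt]
          have e1' : (genericMatrix (N + 1) m ⟨1, by omega⟩).map φ = D1 N e1 := by
            ext i j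
            simp [genericMatrix, hX, hpt]
          have e2' : (genericMatrix (N + 1) m ⟨2, by omega⟩).map φ = D2 N e2 := by
            ext i j
            simp [genericMatrix, hX, hpt]
          rw [e0, e1', e2']
          have hC : ∀ z : ℂ, φ (C z) = algebraMap ℂ S z := by
            intro z
            rw [hφ, coe_eval₂Hom, eval₂_C]
          rw [hC, hC, hC]
        · simp [Fin.ext_iff]
        · simp [Fin.ext_iff]
      · intro x _ hx
        simp only [Finset.mem_insert, Finset.mem_singleton, not_or] at hx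
        have : (genericMatrix (N + 1) m x).map φ = 0 := by
          ext i j
          simp [genericMatrix, hX, hpt, hx.1, hx.2.1, hx.2.2]
        rw [this, smul_zero]
    rw [h2]
    exact det_point hN e1 e2 e1_sq e2_sq _ _ _
  have h1 := hJ hF
  rw [RingHom.mem_ker] at h1
  unfold Fpoly at h1
  rw [map_Fval] at h1
  have e0 : (genericMatrix (N + 1) m ⟨0, by omega⟩).map φ = D0 S N := by
    ext i j
    simp [genericMatrix, hX, hpt]
  have e1' : (genericMatrix (N + 1) m ⟨1, by omega⟩).map φ = D1 N e1 := by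
    ext i j
    simp [genericMatrix, hX, hpt]
  have e2' : (genericMatrix (N + 1) m ⟨2, by omega⟩).map φ = D2 N e2 := by
    ext i j
    simp [genericMatrix, hX, hpt]
  rw [e0, e1', e2'] at h1
  unfold Fval at h1
  obtain ⟨c, hc, hE⟩ := det_colMat_eq N hN e2
  rw [hE] at h1
  have hlast : (0 : Fin (N + 1)) ≠ Fin.last N := by
    intro h
    have := congrArg Fin.val h
    simp at this
    omega
  have h3 : (adjugate (D0 S N) * D1 N e1) (Fin.last N) 0 = e1 := by
    have h4 : adjugate (D0 S N) (Fin.last N) = Pi.single (Fin.last N) 1 := by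
      ext j
      rw [Matrix.adjugate_apply]
      by_cases hj : j = Fin.last N
      · subst hj
        rw [Pi.single_eq_same]
        rw [det_tri (d := fun _ => 1) (b := fun _ => 0)]
        · simp
        · intro l hl
          rw [Matrix.updateRow_ne hl]
          ext x
          by_cases hx : x = l
          · subst hx
            simp [D0, hl]
          · have : ¬ (l = x) := fun h => hx h.symm
            simp [D0, hx, this]
        · rw [Matrix.updateRow_self]
        · rfl
      · rw [Pi.single_eq_of_ne hj]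
        apply Matrix.det_eq_zero_of_row_eq_zero (Fin.last N)
        intro x
        rw [Matrix.updateRow_ne (fun h => hj h.symm)]
        simp [D0]
    rw [Matrix.mul_apply]
    rw [Finset.sum_eq_single (Fin.last N)]
    · rw [h4]
      simp [D1, hlast]
    · intro b _ hb
      rw [h4, Pi.single_eq_of_ne hb, zero_mul]
    · intro h
      exact absurd (Finset.mem_univ _) h
  rw [h3] at h1
  exact smul_ne c hc h1

/-- The double dual numbers. -/
abbrev BB : Type := DualNumber (DualNumber ℂ)

/-- first infinitesimal -/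
noncomputable def e1 : BB := TrivSqZeroExt.inl DualNumber.eps

/-- second infinitesimal -/
noncomputable def e2 : BB := DualNumber.eps

theorem e1_sq : e1 * e1 = 0 := by
  unfold e1
  rw [← TrivSqZeroExt.inl_mul, DualNumber.eps_mul_eps, TrivSqZeroExt.inl_zero]

theorem e2_sq : e2 * e2 = 0 := DualNumber.eps_mul_eps

theorem smul_ne {c : ℂ} (hc : c ≠ 0) : e1 * (algebraMap ℂ BB c * e2) ≠ 0 := by
  intro h
  have h1 : e1 * (algebraMap ℂ BB c * e2) = c • (e1 * e2) := by
    rw [← Algebra.smul_def, mul_smul_comm]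
  rw [h1] at h
  have h2 : e1 * e2 = 0 := by
    have := congrArg (fun x => c⁻¹ • x) h
    simp only [smul_smul, inv_mul_cancel₀ hc, one_smul, smul_zero] at this
    exact this
  have h3 := congrArg TrivSqZeroExt.snd h2
  have h4 : TrivSqZeroExt.snd (e1 * e2) = (DualNumber.eps : DualNumber ℂ) := by
    unfold e1 e2
    rw [TrivSqZeroExt.snd_mul, DualNumber.snd_eps, DualNumber.fst_eps, TrivSqZeroExt.fst_inl,
      smul_eq_mul, mul_one, MulOpposite.op_zero, zero_smul, add_zero]
  rw [h4] at h3
  have h5 := congrArg TrivSqZeroExt.snd h3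
  rw [DualNumber.snd_eps] at h5
  exact one_ne_zero h5

theorem Fpoly_not_mem_J (N m : ℕ) (hN : 1 ≤ N) (h : 3 ≤ m) : Fpoly N m h ∉ J (N + 1) m :=
  Fpoly_not_mem_J_of (S := BB) N m hN h e1 e2 e1_sq e2_sq (fun _ hc => smul_ne hc)

theorem neg_part (n m : ℕ) (hn : 2 ≤ n) (hm : 3 ≤ m) : J n m ≠ I n m := by
  obtain ⟨N, rfl⟩ : ∃ N, n = N + 1 := ⟨n - 1, by omega⟩
  intro h
  exact Fpoly_not_mem_J N m (by omega) hm (h ▸ Fpoly_mem_I N m hm)

end Neg

end Pool.Agent.H578R3.Sing
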