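import Mathlib

set_option autoImplicit false

namespace Pool.Agent.H578R3.SingNeg

open Matrix

/-- The auxiliary integer nodes: `-j` for `j` not the last index, `1` for the last index. -/
def node {N : ℕ} (j : Fin (N + 1)) : ℤ := if j = Fin.last N then 1 else -((j : ℕ) : ℤ)

/-- The matrix whose columns are the last columns of the adjugates of `z_j X₀ + X₂`. -/
def colMat {S : Type*} [CommRing S] {N : ℕ} (X0 X2 : Matrix (Fin (N + 1)) (Fin (N + 1)) S) :
    Matrix (Fin (N + 1)) (Fin (N + 1)) S :=
  Matrix.of fun i j => adjugate ((node j : S) • X0 + X2) i (Fin.last N)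

/-- The value of the explicit polynomial. -/
def Fval {S : Type*} [CommRing S] {N : ℕ} (X0 X1 X2 : Matrix (Fin (N + 1)) (Fin (N + 1)) S) : S :=
  (adjugate X0 * X1) (Fin.last N) 0 * (colMat X0 X2).det

theorem map_colMat {S T : Type*} [CommRing S] [CommRing T] (f : S →+* T) {N : ℕ}
    (X0 X2 : Matrix (Fin (N + 1)) (Fin (N + 1)) S) :
    (colMat X0 X2).map f = colMat (X0.map f) (X2.map f) := by
  ext i j
  simp only [colMat, Matrix.map_apply, Matrix.of_apply]
  have h : ((node j : T) • X0.map f + X2.map f) = ((node j : S) • X0 + X2).map f := by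
    ext a b
    simp
  rw [h]
  have := congrFun (congrFun (RingHom.map_adjugate f ((node j : S) • X0 + X2)) i) (Fin.last N)
  simpa [RingHom.mapMatrix_apply] using this

theorem map_Fval {S T : Type*} [CommRing S] [CommRing T] (f : S →+* T) {N : ℕ}
    (X0 X1 X2 : Matrix (Fin (N + 1)) (Fin (N + 1)) S) :
    f (Fval X0 X1 X2) = Fval (X0.map f) (X1.map f) (X2.map f) := by
  unfold Fval
  rw [map_mul, RingHom.map_det, RingHom.mapMatrix_apply, map_colMat]
  congr 1
  have h1 := RingHom.map_adjugate f X0
  rw [RingHom.mapMatrix_apply, RingHom.mapMatrix_apply] at h1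
  rw [← h1, ← Matrix.map_mul, Matrix.map_apply]

/-- Key identity: on singular triples the row `(adj X₀ Y)_last` is killed by the determinant of the
matrix of cofactor columns. -/
theorem row_mul_det {S : Type*} [CommRing S] {N : ℕ} (X0 Y : Matrix (Fin (N + 1)) (Fin (N + 1)) S)
    (h0 : X0.det = 0) (h : ∀ j : Fin (N + 1), ((node j : S) • X0 + Y).det = 0) (i : Fin (N + 1)) :
    (adjugate X0 * Y) (Fin.last N) i * (colMat X0 Y).det = 0 := by
  have h1 : (adjugate X0 * Y) (Fin.last N) ᵥ* colMat X0 Y = 0 := by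
    ext j
    have h2 : ((adjugate X0 * Y) (Fin.last N) ᵥ* colMat X0 Y) j =
        ((adjugate X0 * Y) * adjugate ((node j : S) • X0 + Y)) (Fin.last N) (Fin.last N) := by
      simp only [Matrix.vecMul, dotProduct, Matrix.mul_apply, colMat, Matrix.of_apply]
    rw [h2]
    have h3 : (adjugate X0 * Y) * adjugate ((node j : S) • X0 + Y) = 0 := by
      have h4 : adjugate X0 * Y = adjugate X0 * ((node j : S) • X0 + Y) := by
        rw [Matrix.mul_add, Matrix.mul_smul, Matrix.adjugate_mul, h0, zero_smul, smul_zero,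
          zero_add]
      rw [h4, Matrix.mul_assoc, Matrix.mul_adjugate, h j, zero_smul, Matrix.mul_zero]
    rw [h3]
    rfl
  have h5 : (adjugate X0 * Y) (Fin.last N) ᵥ* (colMat X0 Y * adjugate (colMat X0 Y)) = 0 := by
    rw [← Matrix.vecMul_vecMul, h1, Matrix.zero_vecMul]
  rw [Matrix.mul_adjugate, Matrix.vecMul_smul, Matrix.vecMul_one] at h5
  have h6 := congrFun h5 i
  simp only [Pi.smul_apply, smul_eq_mul, Pi.zero_apply] at h6
  rw [mul_comm]
  exact h6

open Polynomial in
theorem Fval_eq_zero {N : ℕ} (X0 X1 X2 : Matrix (Fin (N + 1)) (Fin (N + 1)) ℂ)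
    (h : ∀ a b c : ℂ, (a • X0 + b • X1 + c • X2).det = 0) : Fval X0 X1 X2 = 0 := by
  -- polynomial versions
  set P0 : Matrix (Fin (N + 1)) (Fin (N + 1)) ℂ[X] := X0.map (Polynomial.C : ℂ →+* ℂ[X]) with hP0
  set PY : Matrix (Fin (N + 1)) (Fin (N + 1)) ℂ[X] :=
    (Polynomial.X : ℂ[X]) • X1.map (Polynomial.C : ℂ →+* ℂ[X]) + X2.map (Polynomial.C : ℂ →+* ℂ[X])
    with hPY
  have e0 : ∀ b : ℂ, P0.map (evalRingHom b) = X0 := by
    intro b; ext i j; simp [hP0]
  have eY : ∀ b : ℂ, PY.map (evalRingHom b) = b • X1 + X2 := by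
    intro b; ext i j
    simp only [hPY, Matrix.map_apply, Matrix.add_apply, Matrix.smul_apply, smul_eq_mul,
      coe_evalRingHom, eval_add, eval_mul, eval_X, eval_C]
  have hd0 : P0.det = 0 := by
    apply Polynomial.funext
    intro b
    have := RingHom.map_det (evalRingHom b) P0
    rw [RingHom.mapMatrix_apply, e0] at this
    have h2 := h 1 0 0
    simp only [one_smul, zero_smul, add_zero] at h2
    rw [h2] at this
    simpa using this
  have hdY : ∀ j : Fin (N + 1), ((node j : ℂ[X]) • P0 + PY).det = 0 := by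
    intro j
    apply Polynomial.funext
    intro b
    have := RingHom.map_det (evalRingHom b) ((node j : ℂ[X]) • P0 + PY)
    rw [RingHom.mapMatrix_apply] at this
    have h3 : ((node j : ℂ[X]) • P0 + PY).map (evalRingHom b) =
        (node j : ℂ) • X0 + b • X1 + (1 : ℂ) • X2 := by
      rw [one_smul, add_assoc, ← eY b]
      ext i k
      simp [hP0]
    rw [h3, h] at this
    simpa using this
  have key := row_mul_det P0 PY hd0 hdY 0
  rcases mul_eq_zero.1 key with h1 | h1
  · -- the row entry vanishes identically, hence its linear coefficient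
    have h2 : ∀ b : ℂ, b * (adjugate X0 * X1) (Fin.last N) 0 + (adjugate X0 * X2) (Fin.last N) 0
        = 0 := by
      intro b
      have h3 := congrArg (evalRingHom b) h1
      rw [map_zero] at h3
      have h4 : (evalRingHom b) ((adjugate P0 * PY) (Fin.last N) 0) =
          ((adjugate P0 * PY).map (evalRingHom b)) (Fin.last N) 0 := rfl
      rw [h4, Matrix.map_mul, eY] at h3
      have h5 := RingHom.map_adjugate (evalRingHom b) P0
      rw [RingHom.mapMatrix_apply, RingHom.mapMatrix_apply, e0] at h5
      rw [h5, Matrix.mul_add, Matrix.mul_smul] at h3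
      simpa using h3
    have h3 := h2 0
    have h4 := h2 1
    rw [zero_mul, zero_add] at h3
    rw [h3, one_mul, add_zero] at h4
    unfold Fval
    rw [h4, zero_mul]
  · have h2 := congrArg (evalRingHom (0 : ℂ)) h1
    rw [map_zero, RingHom.map_det, RingHom.mapMatrix_apply, map_colMat, e0, eY, zero_smul,
      zero_add] at h2
    unfold Fval
    rw [h2, mul_zero]

end Pool.Agent.H578R3.SingNeg
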