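import Pool.Agent.H578R3.SingNeg

set_option autoImplicit false

namespace Pool.Agent.H578R3.SingNeg

open Matrix

section Point

variable {S : Type*} [CommRing S] {N : ℕ}

/-- First matrix of the infinitesimal point. -/
def D0 (S : Type*) [CommRing S] (N : ℕ) : Matrix (Fin (N + 1)) (Fin (N + 1)) S :=
  Matrix.of fun i j => if i = j ∧ i ≠ Fin.last N then 1 else 0

/-- Second matrix of the infinitesimal point. -/
def D1 (N : ℕ) (e : S) : Matrix (Fin (N + 1)) (Fin (N + 1)) S :=
  Matrix.of fun i j => if i = 0 ∧ j = Fin.last N then e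
    else if i = Fin.last N ∧ j = 0 then e else 0

/-- Third matrix of the infinitesimal point. -/
def D2 (N : ℕ) (e : S) : Matrix (Fin (N + 1)) (Fin (N + 1)) S :=
  Matrix.of fun i j =>
    if i = Fin.last N then (if j = 0 then e else 0)
    else if j = Fin.last N then (if i = 0 then -e else 1)
    else if i = j then ((i : ℕ) : S) else 0

theorem det_point (hN : 1 ≤ N) (e1 e2 : S) (h1 : e1 * e1 = 0) (h2 : e2 * e2 = 0) (a b c : S) :
    (a • D0 S N + b • D1 N e1 + c • D2 N e2).det = 0 := by
  have hlast : (0 : Fin (N + 1)) ≠ Fin.last N := by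
    intro h
    have := congrArg Fin.val h
    simp at this
    omega
  set M := a • D0 S N + b • D1 N e1 + c • D2 N e2 with hM
  have e : M = M.updateRow (Fin.last N) ((b * e1 + c * e2) • (Pi.single 0 1)) := by
    ext i j
    by_cases hi : i = Fin.last N
    · subst hi
      rw [Matrix.updateRow_self]
      by_cases hj : j = 0
      · subst hj
        simp [hM, D0, D1, D2, hlast, hlast.symm]
      · simp [hM, D0, D1, D2, hlast, hlast.symm, hj]
    · rw [Matrix.updateRow_ne hi]
  rw [e, Matrix.det_updateRow_smul]
  set M' := M.updateRow (Fin.last N) (Pi.single 0 1) with hM'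
  have e' : M' = M'.updateRow 0 (a • Pi.single 0 1 + (b * e1 - c * e2) • Pi.single (Fin.last N) 1) := by
    ext i j
    by_cases hi : i = 0
    · subst hi
      rw [Matrix.updateRow_self, hM', Matrix.updateRow_ne hlast]
      by_cases hj : j = 0
      · subst hj
        simp [hM, D0, D1, D2, hlast, hlast.symm]
      · by_cases hj' : j = Fin.last N
        · subst hj'
          simp [hM, D0, D1, D2, hlast, hlast.symm]
          ring
        · have hj0 : (0 : Fin (N+1)) ≠ j := fun h => hj h.symm
          simp [hM, D0, D1, D2, hlast, hlast.symm, hj, hj', hj0]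
    · rw [Matrix.updateRow_ne hi]
  rw [e', Matrix.det_updateRow_add, Matrix.det_updateRow_smul, Matrix.det_updateRow_smul]
  have h3 : (M'.updateRow 0 (Pi.single 0 1)).det = 0 := by
    apply Matrix.det_zero_of_row_eq hlast
    rw [Matrix.updateRow_self, Matrix.updateRow_ne hlast.symm, hM', Matrix.updateRow_self]
  rw [h3, mul_zero, zero_add, ← mul_assoc]
  have h4 : (b * e1 + c * e2) * (b * e1 - c * e2) = 0 := by
    linear_combination (b * b) * h1 - (c * c) * h2
  rw [h4, zero_mul]

/-- The entry in the last column (row `l`, `l` not last) of `D2`. -/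
def bval (e : S) (l : Fin (N + 1)) : S := if l = 0 then -e else 1

theorem row_of_ne (e : S) (z : S) (l : Fin (N + 1)) (hl : l ≠ Fin.last N) :
    (z • D0 S N + D2 N e) l =
      (z + ((l : ℕ) : S)) • Pi.single l 1 + bval e l • Pi.single (Fin.last N) 1 := by
  ext j
  have hB : (D2 N e) l (Fin.last N) = bval e l := by
    simp [D2, hl, bval]
  by_cases hj : j = l
  · subst hj
    have h1 : (D2 N e) j j = ((j : ℕ) : S) := by simp [D2, hl]
    have h2 : (D0 S N) j j = 1 := by simp [D0, hl]
    rw [Matrix.add_apply, Matrix.smul_apply, h1, h2]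
    simp [hl]
  · by_cases hj' : j = Fin.last N
    · subst hj'
      have h2 : (D0 S N) l (Fin.last N) = 0 := by simp [D0, hl]
      rw [Matrix.add_apply, Matrix.smul_apply, hB, h2]
      simp [hj]
    · have h' : ¬ (l = j) := fun h => hj h.symm
      have h1 : (D2 N e) l j = 0 := by simp [D2, hl, hj', h']
      have h2 : (D0 S N) l j = 0 := by simp [D0, h']
      rw [Matrix.add_apply, Matrix.smul_apply, h1, h2]
      simp [hj, hj']

theorem node_of_ne {j : Fin (N + 1)} (hj : j ≠ Fin.last N) : ((node j : ℤ) : S) = -((j : ℕ) : S) := by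
  simp [node, hj]

theorem row_node (e : S) {j : Fin (N + 1)} (hj : j ≠ Fin.last N) :
    (((node j : ℤ) : S) • D0 S N + D2 N e) j = bval e j • Pi.single (Fin.last N) 1 := by
  rw [row_of_ne e _ j hj, node_of_ne hj]
  simp

theorem colMat_apply_ne (e : S) {i j : Fin (N + 1)} (hj : j ≠ Fin.last N) (hij : i ≠ j) :
    colMat (D0 S N) (D2 N e) i j = 0 := by
  unfold colMat
  rw [Matrix.of_apply, Matrix.adjugate_apply]
  set Y := (((node j : ℤ) : S) • D0 S N + D2 N e) with hY
  set Z := Y.updateRow (Fin.last N) (Pi.single i 1) with hZ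
  have hZj : Z j = bval e j • Pi.single (Fin.last N) 1 := by
    rw [hZ, Matrix.updateRow_ne hj, hY, row_node e hj]
  have hZl : Z (Fin.last N) = Pi.single i 1 := by rw [hZ, Matrix.updateRow_self]
  have e1 : Z = Z.updateRow j (bval e j • Pi.single (Fin.last N) 1) := by
    rw [← hZj, Matrix.updateRow_eq_self]
  by_cases hi : i = Fin.last N
  · rw [e1, Matrix.det_updateRow_smul]
    have : (Z.updateRow j (Pi.single (Fin.last N) 1)).det = 0 := by
      apply Matrix.det_zero_of_row_eq hj
      rw [Matrix.updateRow_self, Matrix.updateRow_ne hj.symm, hZl, hi]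
    rw [this, mul_zero]
  · have hZi : Z i = (((node j : ℤ) : S) + ((i : ℕ) : S)) • Z (Fin.last N) +
        bval e i • Pi.single (Fin.last N) 1 := by
      rw [hZl, hZ, Matrix.updateRow_ne hi, hY, row_of_ne e _ i hi]
    have e2 : Z = Z.updateRow i ((((node j : ℤ) : S) + ((i : ℕ) : S)) • Z (Fin.last N) +
        bval e i • Pi.single (Fin.last N) 1) := by
      rw [← hZi, Matrix.updateRow_eq_self]
    rw [e2, Matrix.det_updateRow_add, Matrix.det_updateRow_smul, Matrix.det_updateRow_smul]
    have h1 : (Z.updateRow i (Z (Fin.last N))).det = 0 := by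
      apply Matrix.det_zero_of_row_eq hi
      rw [Matrix.updateRow_self, Matrix.updateRow_ne (fun h => hi h.symm)]
    have h2 : (Z.updateRow i (Pi.single (Fin.last N) 1)).det = 0 := by
      have e3 : Z.updateRow i (Pi.single (Fin.last N) 1) =
          (Z.updateRow i (Pi.single (Fin.last N) 1)).updateRow j
            (bval e j • Pi.single (Fin.last N) 1) := by
        rw [← hZj]
        have : Z j = (Z.updateRow i (Pi.single (Fin.last N) 1)) j := by
          rw [Matrix.updateRow_ne (fun h => hij h.symm)]
        rw [this, Matrix.updateRow_eq_self]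
      rw [e3, Matrix.det_updateRow_smul]
      have : ((Z.updateRow i (Pi.single (Fin.last N) 1)).updateRow j
          (Pi.single (Fin.last N) 1)).det = 0 := by
        apply Matrix.det_zero_of_row_eq hij
        rw [Matrix.updateRow_self, Matrix.updateRow_ne hij, Matrix.updateRow_self]
      rw [this, mul_zero]
    rw [h1, h2, mul_zero, mul_zero, add_zero]

/-- An upper triangular determinant: rows `d_l e_l + b_l e_last`, last row `e_last`. -/
theorem det_tri (d b : Fin (N + 1) → S) (T : Matrix (Fin (N + 1)) (Fin (N + 1)) S)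
    (hT : ∀ l, l ≠ Fin.last N → T l = d l • Pi.single l 1 + b l • Pi.single (Fin.last N) 1)
    (hl : T (Fin.last N) = Pi.single (Fin.last N) 1) (hd : d (Fin.last N) = 1) :
    T.det = ∏ l, d l := by
  rw [Matrix.det_of_isUpperTriangular]
  · apply Finset.prod_congr rfl
    intro l _
    by_cases h : l = Fin.last N
    · subst h
      rw [hl, hd]; simp
    · rw [hT l h]
      simp [h]
  · intro i j hij
    simp only [id] at hij
    by_cases h : i = Fin.last N
    · subst h
      rw [hl]
      simp [hij.ne]
    · rw [hT i h]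
      have h1 : j ≠ Fin.last N := by
        intro h'
        subst h'
        exact absurd hij (not_lt.2 (Fin.le_last i))
      simp [hij.ne, h1]

theorem colMat_apply_self (e : S) {j : Fin (N + 1)} (hj : j ≠ Fin.last N) :
    colMat (D0 S N) (D2 N e) j j = bval e j *
      (-∏ l : Fin (N + 1), (if l = j ∨ l = Fin.last N then (1 : S) else
        (-((j : ℕ) : S) + ((l : ℕ) : S)))) := by
  unfold colMat
  rw [Matrix.of_apply, Matrix.adjugate_apply]
  set Y := (((node j : ℤ) : S) • D0 S N + D2 N e) with hY
  set Z := Y.updateRow (Fin.last N) (Pi.single j 1) with hZ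
  have hZj : Z j = bval e j • Pi.single (Fin.last N) 1 := by
    rw [hZ, Matrix.updateRow_ne hj, hY, row_node e hj]
  have hZl : Z (Fin.last N) = Pi.single j 1 := by rw [hZ, Matrix.updateRow_self]
  have e1 : Z = Z.updateRow j (bval e j • Pi.single (Fin.last N) 1) := by
    rw [← hZj, Matrix.updateRow_eq_self]
  rw [e1, Matrix.det_updateRow_smul]
  congr 1
  set Q := Z.updateRow j (Pi.single (Fin.last N) 1) with hQ
  have h1 := Matrix.det_permute (Equiv.swap j (Fin.last N)) Q
  rw [Equiv.Perm.sign_swap hj] at h1
  have h2 : (Q.submatrix (Equiv.swap j (Fin.last N)) id).det =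
      ∏ l : Fin (N + 1), (if l = j ∨ l = Fin.last N then (1 : S) else
        (-((j : ℕ) : S) + ((l : ℕ) : S))) := by
    apply det_tri (d := fun l => if l = j ∨ l = Fin.last N then (1 : S) else
        (-((j : ℕ) : S) + ((l : ℕ) : S))) (b := fun l => if l = j then 0 else bval e l)
    · intro l hl
      by_cases hlj : l = j
      · subst hlj
        have : (Q.submatrix (Equiv.swap l (Fin.last N)) id) l = Q (Fin.last N) := by
          ext x
          simp [Matrix.submatrix_apply]
        rw [this, hQ, Matrix.updateRow_ne hj.symm, hZl]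
        simp
      · have : (Q.submatrix (Equiv.swap j (Fin.last N)) id) l = Q l := by
          ext x
          rw [Matrix.submatrix_apply, Equiv.swap_apply_of_ne_of_ne hlj hl]
          rfl
        rw [this, hQ, Matrix.updateRow_ne hlj, hZ, Matrix.updateRow_ne hl, hY, row_of_ne e _ l hl,
          node_of_ne hj]
        simp [hlj, hl]
    · have : (Q.submatrix (Equiv.swap j (Fin.last N)) id) (Fin.last N) = Q j := by
        ext x
        simp [Matrix.submatrix_apply]
      rw [this, hQ, Matrix.updateRow_self]
    · simp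
  rw [h2] at h1
  rw [h1]
  simp

theorem colMat_last (e : S) :
    colMat (D0 S N) (D2 N e) (Fin.last N) (Fin.last N) =
      ∏ l : Fin (N + 1), (if l = Fin.last N then (1 : S) else (1 + ((l : ℕ) : S))) := by
  unfold colMat
  rw [Matrix.of_apply, Matrix.adjugate_apply]
  apply det_tri (d := fun l => if l = Fin.last N then (1 : S) else (1 + ((l : ℕ) : S)))
    (b := fun l => bval e l)
  · intro l hl
    rw [Matrix.updateRow_ne hl, row_of_ne e _ l hl]
    simp [node, hl]
  · rw [Matrix.updateRow_self]
  · simp

theorem det_colMat (e : S) : (colMat (D0 S N) (D2 N e)).det =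
    ∏ j, colMat (D0 S N) (D2 N e) j j := by
  apply Matrix.det_of_isUpperTriangular
  intro i j hij
  simp only [id] at hij
  apply colMat_apply_ne e _ hij.ne'
  intro h
  subst h
  exact absurd hij (not_lt.2 (Fin.le_last i))

end Point

end Pool.Agent.H578R3.SingNeg
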