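import Pool.Agent.H578R3.SingDet

/-!
# The radical of the determinant and matrices of rank at most one
-/

open Matrix Polynomial

namespace Pool.Agent.H578R3.Sing

variable {n : ℕ}

lemma exists_diag (Z : Mat n) : ∃ (A B : Mat n) (D : Fin n → ℂ), A.det = 1 ∧ B.det = 1 ∧
    Z = A * diagonal D * B := by
  obtain ⟨L, L', D, h⟩ := Pivot.exists_list_transvec_mul_diagonal_mul_list_transvec Z
  exact ⟨_, _, D, TransvectionStruct.det_toMatrix_prod L, TransvectionStruct.det_toMatrix_prod L',
    h⟩

lemma det_sandwich (A B : Mat n) (hA : A.det = 1) (hB : B.det = 1) (y D : Fin n → ℂ) (s : ℂ) :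
    (A * diagonal y * B + s • (A * diagonal D * B)).det = ∏ i, (y i + s * D i) := by
  have : A * diagonal y * B + s • (A * diagonal D * B) =
      A * diagonal (fun i => y i + s * D i) * B := by
    have h1 : diagonal (fun i => y i + s * D i) = diagonal y + s • diagonal D := by
      ext i j
      by_cases h : i = j
      · subst h; simp
      · simp [h]
    rw [h1, Matrix.mul_add, Matrix.add_mul]
    simp
  rw [this, det_mul, det_mul, hA, hB, det_diagonal]; ring

/-- The determinant has zero radical. -/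
theorem radical_zero (Z : Mat n) (h : ∀ Y : Mat n, (Y + Z).det = Y.det) : Z = 0 := by
  obtain ⟨A, B, D, hA, hB, hZ⟩ := exists_diag Z
  by_contra hne
  have hD : ∃ i, D i ≠ 0 := by
    by_contra hcon
    push Not at hcon
    apply hne
    have : D = 0 := funext hcon
    rw [hZ, this]; simp
  obtain ⟨i, hi⟩ := hD
  have h1 := h (A * diagonal (fun i => if D i = 0 then 1 else - D i) * B)
  have h2 := det_sandwich A B hA hB (fun i => if D i = 0 then 1 else - D i) D 1
  have h3 := det_sandwich A B hA hB (fun i => if D i = 0 then 1 else - D i) D 0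
  rw [one_smul, ← hZ, h1] at h2
  rw [zero_smul, add_zero] at h3
  rw [h3] at h2
  have h4 : ∏ i, ((if D i = 0 then (1:ℂ) else - D i) + 1 * D i) = 0 := by
    apply Finset.prod_eq_zero (Finset.mem_univ i)
    simp [hi]
  rw [h4] at h2
  rw [Finset.prod_eq_zero_iff] at h2
  obtain ⟨j, -, hj⟩ := h2
  by_cases hj0 : D j = 0
  · simp [hj0] at hj
  · simp [hj0] at hj

/-- The function `s ↦ det (Y + s Z)` has vanishing second difference, for all `Y`. -/
def Aff (Z : Mat n) : Prop :=
  ∀ Y : Mat n, (Y + (2 : ℂ) • Z).det - 2 * (Y + Z).det + Y.det = 0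

lemma rank_le_of_aff (Z : Mat n) (h : Aff Z) : Z.rank ≤ 1 := by
  obtain ⟨A, B, D, hA, hB, hZ⟩ := exists_diag Z
  have hrank : Z.rank = Fintype.card {i // D i ≠ 0} := by
    rw [hZ, rank_mul_eq_left_of_isUnit_det _ _ (by rw [hB]; exact isUnit_one),
      rank_mul_eq_right_of_isUnit_det _ _ (by rw [hA]; exact isUnit_one), rank_diagonal]
  rw [hrank]
  by_contra hcon
  push Not at hcon
  set y : Fin n → ℂ := fun i => if D i = 0 then 1 else 0 with hy
  have h0 := h (A * diagonal y * B)
  have e2 := det_sandwich A B hA hB y D 2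
  have e1 := det_sandwich A B hA hB y D 1
  have e0 := det_sandwich A B hA hB y D 0
  rw [← hZ] at e2 e1
  rw [one_smul] at e1
  rw [zero_smul, add_zero] at e0
  rw [e2, e1, e0] at h0
  have key : ∀ s : ℂ, ∏ i, (y i + s * D i) =
      s ^ (Fintype.card {i // D i ≠ 0}) * ∏ i, (if D i = 0 then 1 else D i) := by
    intro s
    have : ∀ i, y i + s * D i = (if D i = 0 then 1 else s) * (if D i = 0 then 1 else D i) := by
      intro i
      by_cases hi : D i = 0 <;> simp [hy, hi]
    rw [Finset.prod_congr rfl (fun i _ => this i), Finset.prod_mul_distrib]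
    congr 1
    rw [Fintype.card_subtype, Finset.prod_ite]
    simp
  rw [key, key, key] at h0
  have hc : ∏ i, (if D i = 0 then (1:ℂ) else D i) ≠ 0 := by
    rw [Finset.prod_ne_zero_iff]
    intro i _
    by_cases hi : D i = 0 <;> simp [hi]
  set r := Fintype.card {i // D i ≠ 0} with hr
  have hr2 : (0:ℂ) ^ r = 0 := zero_pow (by omega)
  rw [hr2, one_pow] at h0
  have h5 : ((2:ℂ) ^ r - 2) * ∏ i, (if D i = 0 then (1:ℂ) else D i) = 0 := by
    linear_combination h0
  rcases mul_eq_zero.1 h5 with h6 | h6
  · have h7 : (2:ℂ) ^ r = 2 := by linear_combination h6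
    have h8 : (2:ℕ) ^ r = 2 := by exact_mod_cast h7
    have h9 : 2 ^ 2 ≤ 2 ^ r := Nat.pow_le_pow_right (by norm_num) hcon
    omega
  · exact hc h6

lemma aff_of_rank_le (Z : Mat n) (h : Z.rank ≤ 1) : Aff Z := by
  obtain ⟨A, B, D, hA, hB, hZ⟩ := exists_diag Z
  have hrank : Z.rank = Fintype.card {i // D i ≠ 0} := by
    rw [hZ, rank_mul_eq_left_of_isUnit_det _ _ (by rw [hB]; exact isUnit_one),
      rank_mul_eq_right_of_isUnit_det _ _ (by rw [hA]; exact isUnit_one), rank_diagonal]
  rw [hrank] at h
  rw [Fintype.card_le_one_iff] at h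
  -- D has at most one nonzero entry
  by_cases hD : ∃ i, D i ≠ 0
  · obtain ⟨i, hi⟩ := hD
    have hother : ∀ j, j ≠ i → D j = 0 := by
      intro j hj
      by_contra hne
      exact hj (congrArg Subtype.val (h ⟨j, hne⟩ ⟨i, hi⟩))
    intro Y
    have hAu : IsUnit A.det := by rw [hA]; exact isUnit_one
    have hBu : IsUnit B.det := by rw [hB]; exact isUnit_one
    set Y' : Mat n := A⁻¹ * Y * B⁻¹ with hY'
    have hY : Y = A * Y' * B := by
      rw [hY', show A * (A⁻¹ * Y * B⁻¹) * B = (A * A⁻¹) * Y * (B⁻¹ * B) by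
        simp only [Matrix.mul_assoc], mul_nonsing_inv _ hAu, nonsing_inv_mul _ hBu]
      simp
    have hdet : ∀ s : ℂ, (Y + s • Z).det = Y'.det + s * (D i * (Y'.updateRow i (Pi.single i 1)).det) := by
      intro s
      have h1 : Y + s • Z = A * (Y' + s • diagonal D) * B := by
        rw [hZ, hY, Matrix.mul_add, Matrix.add_mul]; simp
      have h2 : Y' + s • diagonal D = Y'.updateRow i (Y' i + (s * D i) • Pi.single i 1) := by
        ext j k
        by_cases hj : j = i
        · subst hj
          simp only [updateRow_self, Matrix.add_apply, Matrix.smul_apply, diagonal_apply, Pi.add_apply,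
            Pi.smul_apply, Pi.single_apply, smul_eq_mul]
          by_cases hk : j = k
          · subst hk; simp
          · simp [hk, Ne.symm hk]
        · rw [updateRow_ne hj]
          simp only [Matrix.add_apply, Matrix.smul_apply, diagonal_apply, hother j hj]
          simp
      rw [h1, det_mul, det_mul, hA, hB, h2, det_updateRow_add, det_updateRow_smul, updateRow_eq_self]
      ring
    have e2 := hdet 2
    have e1 := hdet 1
    have e0 := hdet 0
    rw [one_smul] at e1
    rw [zero_smul, add_zero] at e0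
    rw [e2, e1, e0]; ring
  · push Not at hD
    have : Z = 0 := by
      rw [hZ, show D = 0 from funext hD]; simp
    intro Y
    rw [this]; simp; ring

theorem aff_iff (Z : Mat n) : Aff Z ↔ Z.rank ≤ 1 := ⟨rank_le_of_aff Z, aff_of_rank_le Z⟩

lemma exists_vecMulVec (Z : Mat n) (h : Z.rank ≤ 1) : ∃ x y : Fin n → ℂ, Z = vecMulVec x y := by
  obtain ⟨A, B, D, hA, hB, hZ⟩ := exists_diag Z
  have hrank : Z.rank = Fintype.card {i // D i ≠ 0} := by
    rw [hZ, rank_mul_eq_left_of_isUnit_det _ _ (by rw [hB]; exact isUnit_one),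
      rank_mul_eq_right_of_isUnit_det _ _ (by rw [hA]; exact isUnit_one), rank_diagonal]
  rw [hrank] at h
  rw [Fintype.card_le_one_iff] at h
  by_cases hD : ∃ i, D i ≠ 0
  · obtain ⟨i, hi⟩ := hD
    have hother : ∀ j, j ≠ i → D j = 0 := by
      intro j hj
      by_contra hne
      exact hj (congrArg Subtype.val (h ⟨j, hne⟩ ⟨i, hi⟩))
    have h1 : diagonal D = vecMulVec (Pi.single i (D i)) (Pi.single i 1) := by
      ext j k
      rw [vecMulVec_apply, diagonal_apply]
      by_cases hj : j = i
      · subst hj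
        by_cases hk : j = k
        · subst hk; simp
        · simp [hk, Ne.symm hk]
      · simp [hj, hother j hj]
    refine ⟨A *ᵥ Pi.single i (D i), Pi.single i 1 ᵥ* B, ?_⟩
    rw [hZ, h1, mul_vecMulVec, vecMulVec_mul]
  · push Not at hD
    refine ⟨0, 0, ?_⟩
    rw [hZ, show D = 0 from funext hD]; simp

/-- A bijective linear map which multiplies determinants by a nonzero constant preserves
matrices of rank at most one. -/
lemma rank_preserved (h : Mat n →ₗ[ℂ] Mat n) (hs : Function.Surjective h) (lam : ℂ)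
    (hdet : ∀ Z, (h Z).det = lam * Z.det) (x y : Fin n → ℂ) :
    ∃ x' y' : Fin n → ℂ, h (vecMulVec x y) = vecMulVec x' y' := by
  apply exists_vecMulVec
  rw [← aff_iff]
  have h1 : Aff (vecMulVec x y) := by
    rw [aff_iff]; exact rank_vecMulVec_le _ _
  intro Y
  obtain ⟨W, rfl⟩ := hs Y
  have h2 := h1 W
  rw [← map_smul, ← map_add, ← map_add, hdet, hdet, hdet]
  linear_combination lam * h2

end Pool.Agent.H578R3.Sing
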