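import Pool.Agent.H578R3.SingFrob2

/-!
# The linear maps which preserve the singular tuples
-/

open Matrix

namespace Pool.Agent.H578R3.Sing

variable {m n : ℕ}

lemma comb_add (c : Fin m → ℂ) (X Y : Tup m n) : comb c (X + Y) = comb c X + comb c Y := by
  simp [comb, Finset.sum_add_distrib]

lemma comb_smul (c : Fin m → ℂ) (s : ℂ) (X : Tup m n) : comb c (s • X) = s • comb c X := by
  simp only [comb, Finset.smul_sum, Pi.smul_apply]
  exact Finset.sum_congr rfl fun i _ => smul_comm _ _ _

lemma add_comb (c d : Fin m → ℂ) (X : Tup m n) : comb (c + d) X = comb c X + comb d X := by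
  simp [comb, Finset.sum_add_distrib, add_smul]

lemma smul_comb (s : ℂ) (c : Fin m → ℂ) (X : Tup m n) : comb (s • c) X = s • comb c X := by
  simp only [comb, Finset.smul_sum, Pi.smul_apply, smul_eq_mul, mul_smul]

lemma comb_single (i : Fin m) (X : Tup m n) : comb (Pi.single i 1) X = X i := by
  rw [comb, Finset.sum_eq_single i]
  · simp
  · intro j _ hj; rw [Pi.single_eq_of_ne hj, zero_smul]
  · simp

/-- Left multiplication of a tuple by a matrix. -/
def lm (Q : Mat n) (X : Tup m n) : Tup m n := fun i => Q * X i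

/-- Right multiplication of a tuple by a matrix. -/
def rm (X : Tup m n) (Q : Mat n) : Tup m n := fun i => X i * Q

/-- The tensor product of a vector and a matrix. -/
def tens (a : Fin m → ℂ) (Z : Mat n) : Tup m n := fun i => a i • Z

lemma comb_lm (c : Fin m → ℂ) (Q : Mat n) (X : Tup m n) : comb c (lm Q X) = Q * comb c X := by
  simp [comb, lm, Finset.mul_sum]

lemma comb_rm (c : Fin m → ℂ) (Q : Mat n) (X : Tup m n) : comb c (rm X Q) = comb c X * Q := by
  simp [comb, rm, Finset.sum_mul]

lemma comb_tens (c a : Fin m → ℂ) (Z : Mat n) : comb c (tens a Z) = (∑ i, c i * a i) • Z := by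
  simp [comb, tens, Finset.sum_smul, mul_smul]

lemma lm_mem {Q : Mat n} (hQ : Q.det = 0) (X : Tup m n) : lm Q X ∈ SING m n := by
  intro c; rw [comb_lm, det_mul, hQ, zero_mul]

lemma rm_mem {Q : Mat n} (hQ : Q.det = 0) (X : Tup m n) : rm X Q ∈ SING m n := by
  intro c; rw [comb_rm, det_mul, hQ, mul_zero]

section
variable (g : Tup m n →ₗ[ℂ] Tup m n) (hg : ∀ X ∈ SING m n, g X ∈ SING m n) (c : Fin m → ℂ)

/-- The linear map `X ↦ ∑ i, c i (g X) i`. -/
noncomputable def ell : Tup m n →ₗ[ℂ] Mat n :=
  { toFun := fun X => comb c (g X)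
    map_add' := by intro X Y; rw [map_add, comb_add]
    map_smul' := by intro s X; rw [map_smul, comb_smul]; rfl }

lemma ell_apply (X : Tup m n) : ell g c X = comb c (g X) := rfl

include hg in
lemma det_ell_lm (Q : Mat n) (X : Tup m n) : (ell g c (lm Q X)).det = (ell g c X).det * Q.det := by
  let ψ : Mat n →ₗ[ℂ] Mat n :=
    { toFun := fun Q => ell g c (lm Q X)
      map_add' := by
        intro a b
        rw [← map_add]; congr 1; ext i; simp [lm, Matrix.add_mul]
      map_smul' := by
        intro a b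
        rw [RingHom.id_apply, ← map_smul]; congr 1; ext i; simp [lm] }
  have hψ : SP ψ := fun Z hZ => hg _ (lm_mem hZ X) c
  have := det_map ψ hψ Q
  have h1 : ψ 1 = ell g c X := by
    change ell g c (lm 1 X) = _
    congr 1; ext i; simp [lm]
  rw [h1] at this
  exact this

include hg in
lemma det_ell_rm (Q : Mat n) (X : Tup m n) : (ell g c (rm X Q)).det = (ell g c X).det * Q.det := by
  let ψ : Mat n →ₗ[ℂ] Mat n :=
    { toFun := fun Q => ell g c (rm X Q)
      map_add' := by
        intro a b
        rw [← map_add]; congr 1; ext i; simp [rm, Matrix.mul_add]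
      map_smul' := by
        intro a b
        rw [RingHom.id_apply, ← map_smul]; congr 1; ext i; simp [rm] }
  have hψ : SP ψ := fun Z hZ => hg _ (rm_mem hZ X) c
  have := det_map ψ hψ Q
  have h1 : ψ 1 = ell g c X := by
    change ell g c (rm X 1) = _
    congr 1; ext i; simp [rm]
  rw [h1] at this
  exact this

lemma exists_shift (Q : Mat n) : ∃ s : ℂ, (Q + s • (1 : Mat n)).det ≠ 0 := by
  by_contra hcon
  push Not at hcon
  have h1 : ((Polynomial.X : Polynomial ℂ) • (1 : Mat n).map Polynomial.C +
      Q.map Polynomial.C).det = 0 := by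
    apply Polynomial.funext
    intro s
    rw [eval_pencil, Polynomial.eval_zero, add_comm]; exact hcon s
  have h2 := Polynomial.coeff_det_X_add_C_card (1 : Mat n) Q
  rw [h1] at h2
  simp at h2

include hg in
lemma ker_lm (hs : Function.Surjective (ell g c)) (Q : Mat n) (X : Tup m n)
    (hX : ell g c X = 0) : ell g c (lm Q X) = 0 := by
  have key : ∀ Q : Mat n, Q.det ≠ 0 → ell g c (lm Q X) = 0 := by
    intro Q hQ
    apply radical_zero
    intro W
    obtain ⟨Y, rfl⟩ := hs W
    have hu : IsUnit Q.det := isUnit_iff_ne_zero.2 hQ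
    have e1 : Y = lm Q (lm Q⁻¹ Y) := by
      ext i; simp [lm, ← Matrix.mul_assoc, mul_nonsing_inv _ hu]
    have e2 : Y + lm Q X = lm Q (lm Q⁻¹ Y + X) := by
      conv_lhs => rw [e1]
      ext i; simp [lm, Matrix.mul_add]
    rw [← map_add, e2, det_ell_lm g hg, map_add, hX, add_zero, ← det_ell_lm g hg, ← e1]
  obtain ⟨s, hs'⟩ := exists_shift Q
  have h1 := key _ hs'
  have h2 : lm (Q + s • (1 : Mat n)) X = lm Q X + s • X := by
    ext i; simp [lm, Matrix.add_mul]
  rw [h2, map_add, map_smul, hX, smul_zero, add_zero] at h1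
  exact h1

include hg in
lemma ker_rm (hs : Function.Surjective (ell g c)) (Q : Mat n) (X : Tup m n)
    (hX : ell g c X = 0) : ell g c (rm X Q) = 0 := by
  have key : ∀ Q : Mat n, Q.det ≠ 0 → ell g c (rm X Q) = 0 := by
    intro Q hQ
    apply radical_zero
    intro W
    obtain ⟨Y, rfl⟩ := hs W
    have hu : IsUnit Q.det := isUnit_iff_ne_zero.2 hQ
    have e1 : Y = rm (rm Y Q⁻¹) Q := by
      ext i; simp [rm, Matrix.mul_assoc, nonsing_inv_mul _ hu]
    have e2 : Y + rm X Q = rm (rm Y Q⁻¹ + X) Q := by
      conv_lhs => rw [e1]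
      ext i; simp [rm, Matrix.add_mul]
    rw [← map_add, e2, det_ell_rm g hg, map_add, hX, add_zero, ← det_ell_rm g hg, ← e1]
  obtain ⟨s, hs'⟩ := exists_shift Q
  have h1 := key _ hs'
  have h2 : rm X (Q + s • (1 : Mat n)) = rm X Q + s • X := by
    ext i; simp [rm, Matrix.mul_add]
  rw [h2, map_add, map_smul, hX, smul_zero, add_zero] at h1
  exact h1

include hg in
lemma ker_entry (hs : Function.Surjective (ell g c)) (X : Tup m n)
    (hX : ell g c X = 0) (j k : Fin n) (Z : Mat n) : ell g c (tens (fun i => X i j k) Z) = 0 := by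
  have h1 : ∀ p q, ell g c (tens (fun i => X i j k) (single p q 1)) = 0 := by
    intro p q
    have := ker_rm g hg c hs (single k q 1) _ (ker_lm g hg c hs (single p j 1) X hX)
    rw [← this]
    congr 1
    ext i : 1
    simp only [tens, rm, lm]
    rw [single_mul_mul_single]
    simp
  have h2 : tens (fun i => X i j k) Z =
      ∑ p, ∑ q, Z p q • tens (fun i => X i j k) (single p q (1 : ℂ)) := by
    ext i p q
    simp only [tens, Finset.sum_apply, Pi.smul_apply, Matrix.smul_apply, Matrix.sum_apply,
      smul_eq_mul]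
    simp [single_apply]
    rw [Finset.sum_eq_single p, Finset.sum_eq_single q]
    · simp; ring
    · intro b _ hb; simp [hb]
    · simp
    · intro b _ hb
      apply Finset.sum_eq_zero
      intro d _; simp [hb]
    · simp
  rw [h2, map_sum]
  apply Finset.sum_eq_zero
  intro p _
  rw [map_sum]
  apply Finset.sum_eq_zero
  intro q _
  rw [map_smul, h1, smul_zero]

lemma sum_tens (X : Tup m n) : X = ∑ i, tens (Pi.single i 1) (X i) := by
  ext j p q
  rw [Finset.sum_apply, Matrix.sum_apply, Finset.sum_eq_single j]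
  · simp [tens]
  · intro i _ hi
    simp [tens, Pi.single_apply, Ne.symm hi]
  · simp

include hg in
lemma exists_factor (hn : 1 ≤ n) (hs : Function.Surjective (ell g c)) :
    ∃ (v : Fin m → ℂ) (h : Mat n →ₗ[ℂ] Mat n), Function.Injective h ∧
      ∀ X, comb c (g X) = h (comb v X) := by
  let o : Fin n := ⟨0, hn⟩
  have hex : ∃ a0 : Fin m → ℂ, ∃ Z0 : Mat n, ell g c (tens a0 Z0) ≠ 0 := by
    by_contra hcon
    push Not at hcon
    obtain ⟨X, hX⟩ := hs 1
    rw [sum_tens X, map_sum, Finset.sum_eq_zero (fun i _ => hcon _ _)] at hX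
    have := congrFun (congrFun hX o) o
    simp at this
  obtain ⟨a0, Z0, h0⟩ := hex
  let h : Mat n →ₗ[ℂ] Mat n :=
    { toFun := fun Z => ell g c (tens a0 Z)
      map_add' := by
        intro a b
        rw [← map_add]; congr 1; ext i; simp [tens]; ring
      map_smul' := by
        intro a b
        rw [RingHom.id_apply, ← map_smul]; congr 1; ext i; simp [tens]; ring }
  have hinj : Function.Injective h := by
    rw [← LinearMap.ker_eq_bot, LinearMap.ker_eq_bot']
    intro Z hZ
    by_contra hne
    have : ∃ j k, Z j k ≠ 0 := by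
      by_contra hcon
      push Not at hcon
      exact hne (by ext j k; exact hcon j k)
    obtain ⟨j, k, hjk⟩ := this
    have h1 := ker_entry g hg c hs (tens a0 Z) hZ j k ((Z j k)⁻¹ • Z0)
    apply h0
    rw [← h1]
    congr 1
    ext i p q
    simp only [tens, Matrix.smul_apply, smul_eq_mul]
    field_simp
  have hbij : Function.Surjective h := LinearMap.injective_iff_surjective.1 hinj
  have hw : ∀ a : Fin m → ℂ, ∃ w : ℂ, ∀ Z, ell g c (tens a Z) = w • h Z := by
    intro a
    obtain ⟨W, hW⟩ := hbij (ell g c (tens a 1))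
    have hk : ell g c (tens a 1 - tens a0 W) = 0 := by
      rw [map_sub, ← hW]; exact sub_self _
    refine ⟨W o o, fun Z => ?_⟩
    have h1 := ker_entry g hg c hs _ hk o o Z
    have h2 : tens (fun i => (tens a (1 : Mat n) - tens a0 W) i o o) Z = tens a Z - W o o • tens a0 Z := by
      ext i p q
      simp [tens]; ring
    rw [h2, map_sub, map_smul, sub_eq_zero] at h1
    exact h1
  choose v hv using fun i : Fin m => hw (Pi.single i 1)
  refine ⟨v, h, hinj, fun X => ?_⟩
  have : comb c (g X) = ell g c X := rfl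
  rw [this]
  conv_lhs => rw [sum_tens X]
  rw [map_sum, comb, map_sum]
  exact Finset.sum_congr rfl fun i _ => by rw [hv, map_smul]

end

end Pool.Agent.H578R3.Sing
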