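import Pool.Agent.H578R3.SingCore

/-!
# The two test tuples
-/

open Matrix Polynomial Filter Topology

namespace Pool.Agent.H578R3.Sing

variable {m n : ℕ}

/-- The entries of the test tuples. -/
noncomputable def ent (s : ℂ) (i j k : ℕ) : ℂ :=
  if i = 0 then (if j = 1 ∧ k = 0 then 1 else if j = 2 ∧ k = 1 then 1 else 0)
  else if i = 1 then (if j = k then (if j = 1 then 0 else if j = 2 then s else 1) else 0)
  else if i = 2 then (if j = 0 ∧ k = 1 then 1 else if j = 1 ∧ k = 2 then 1 else 0)
  else 0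

/-- The test tuples: `s = -1` gives a singular tuple, `s = 1` a nonsingular one. -/
noncomputable def tst (m n : ℕ) (s : ℂ) : Tup m n := fun i j k => ent s i j k

lemma ent_ht (s : ℂ) (i j k : ℕ) (h : i + j ≠ k + 1) : ent s i j k = 0 := by
  unfold ent
  split_ifs <;> first | rfl | (exfalso; omega)

lemma ent_big (s : ℂ) (i j k : ℕ) (h : 3 ≤ i) : ent s i j k = 0 := by
  unfold ent
  rw [if_neg (by omega), if_neg (by omega), if_neg (by omega)]

lemma sum3 {A : Type*} [AddCommMonoid A] (hm : 3 ≤ m) (f : Fin m → A)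
    (hf : ∀ i : Fin m, 3 ≤ (i : ℕ) → f i = 0) :
    ∑ i, f i = f ⟨0, by omega⟩ + f ⟨1, by omega⟩ + f ⟨2, by omega⟩ := by
  have h1 : ∑ i, f i = ∑ i ∈ ({⟨0, by omega⟩, ⟨1, by omega⟩, ⟨2, by omega⟩} : Finset (Fin m)), f i := by
    symm
    apply Finset.sum_subset (Finset.subset_univ _)
    intro i _ hi
    apply hf
    simp only [Finset.mem_insert, Finset.mem_singleton, Fin.ext_iff, not_or] at hi
    omega
  rw [h1, Finset.sum_insert (by simp [Fin.ext_iff]), Finset.sum_insert (by simp [Fin.ext_iff]),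
    Finset.sum_singleton, add_assoc]

lemma comb_tst (hm : 3 ≤ m) (s : ℂ) (c : Fin m → ℂ) (j k : Fin n) :
    comb c (tst m n s) j k = c ⟨0, by omega⟩ * ent s 0 j k + c ⟨1, by omega⟩ * ent s 1 j k +
      c ⟨2, by omega⟩ * ent s 2 j k := by
  have h1 : comb c (tst m n s) j k = ∑ i, c i * ent s i j k := by
    simp [comb, Matrix.sum_apply, tst]
  rw [h1, sum3 hm]
  intro i hi
  rw [ent_big s i j k hi, mul_zero]

lemma tst_neg_mem (hm : 3 ≤ m) (hn : 3 ≤ n) : tst m n (-1) ∈ SING m n := by
  intro c
  set c0 := c ⟨0, by omega⟩ with hc0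
  set c1 := c ⟨1, by omega⟩ with hc1
  set c2 := c ⟨2, by omega⟩ with hc2
  rw [← exists_mulVec_eq_zero_iff]
  -- a kernel vector, supported in the first three coordinates
  have key : ∀ w : Fin n → ℂ, (∀ k : Fin n, 3 ≤ (k : ℕ) → w k = 0) →
      c1 * w ⟨0, by omega⟩ + c2 * w ⟨1, by omega⟩ = 0 →
      c0 * w ⟨0, by omega⟩ + c2 * w ⟨2, by omega⟩ = 0 →
      c0 * w ⟨1, by omega⟩ - c1 * w ⟨2, by omega⟩ = 0 →
      comb c (tst m n (-1)) *ᵥ w = 0 := by
    intro w hw e0 e1 e2
    ext j
    simp only [mulVec, dotProduct, Pi.zero_apply]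
    rw [sum3 hn _ (fun k hk => by rw [hw k hk, mul_zero])]
    rw [comb_tst hm, comb_tst hm, comb_tst hm]
    rcases Nat.lt_or_ge (j : ℕ) 3 with hj | hj
    · obtain ⟨j, hjn⟩ := j
      simp only at hj
      interval_cases j
      · simp [ent, ← hc0, ← hc1, ← hc2]; linear_combination e0
      · simp [ent, ← hc0, ← hc1, ← hc2]; linear_combination e1
      · simp [ent, ← hc0, ← hc1, ← hc2]; linear_combination e2
    · have h0 : ∀ i k : ℕ, k < 3 → ent (-1) i j k = 0 := by
        intro i k hk
        unfold ent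
        split_ifs <;> first | rfl | (exfalso; omega)
      simp only [h0 _ 0 (by norm_num), h0 _ 1 (by norm_num), h0 _ 2 (by norm_num)]
      ring
  by_cases hz : c0 = 0 ∧ c1 = 0 ∧ c2 = 0
  · refine ⟨Pi.single ⟨0, by omega⟩ 1, by simp, ?_⟩
    obtain ⟨h0, h1, h2⟩ := hz
    apply key
    · intro k hk
      rw [Pi.single_eq_of_ne]
      intro h; rw [h] at hk; simp at hk
    · rw [h1, h2]; ring
    · rw [h0, h2]; ring
    · rw [h0, h1]; ring
  · refine ⟨fun k => if (k : ℕ) = 0 then c2 else if (k : ℕ) = 1 then -c1 else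
      if (k : ℕ) = 2 then -c0 else 0, ?_, ?_⟩
    · intro h
      apply hz
      have a := congrFun h ⟨0, by omega⟩
      have b := congrFun h ⟨1, by omega⟩
      have d := congrFun h ⟨2, by omega⟩
      simp at a b d
      exact ⟨d, b, a⟩
    · apply key
      · intro k hk
        rw [if_neg (by omega), if_neg (by omega), if_neg (by omega)]
      · simp; ring
      · simp; ring
      · simp; ring

lemma tst_one_not_mem (hm : 3 ≤ m) (hn : 3 ≤ n) : tst m n 1 ∉ SING m n := by
  intro hmem
  have h := hmem (fun _ => 1)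
  rw [← exists_mulVec_eq_zero_iff] at h
  obtain ⟨w, hw0, hw⟩ := h
  apply hw0
  have hent : ∀ j k : Fin n, comb (fun _ => (1:ℂ)) (tst m n 1) j k =
      ent 1 0 j k + ent 1 1 j k + ent 1 2 j k := by
    intro j k; rw [comb_tst hm]; ring
  have hbig : ∀ j : Fin n, 3 ≤ (j : ℕ) → w j = 0 := by
    intro j hj
    have := congrFun hw j
    simp only [mulVec, dotProduct, Pi.zero_apply] at this
    rw [Finset.sum_eq_single j] at this
    · rw [hent] at this
      have e : ent 1 0 j j + ent 1 1 j j + ent 1 2 j j = 1 := by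
        unfold ent
        simp only [if_true]
        rw [if_neg (by omega), if_neg (by omega), if_neg (by norm_num), if_neg (by omega),
          if_neg (by omega), if_neg (by norm_num), if_neg (by norm_num), if_neg (by omega),
          if_neg (by omega)]
        norm_num
      rw [e, one_mul] at this
      exact this
    · intro k _ hk
      rw [hent]
      have hk' : (k : ℕ) ≠ j := fun h => hk (Fin.ext h)
      have e : ent 1 0 j k + ent 1 1 j k + ent 1 2 j k = 0 := by
        unfold ent
        simp only [if_true]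
        rw [if_neg (by omega), if_neg (by omega), if_neg (by norm_num),
          if_neg (by omega), if_neg (by norm_num), if_neg (by norm_num), if_neg (by omega),
          if_neg (by omega)]
        norm_num
      rw [e, zero_mul]
    · simp
  have hrow : ∀ j : Fin n, (ent 1 0 j 0 + ent 1 1 j 0 + ent 1 2 j 0) * w ⟨0, by omega⟩ +
      (ent 1 0 j 1 + ent 1 1 j 1 + ent 1 2 j 1) * w ⟨1, by omega⟩ +
      (ent 1 0 j 2 + ent 1 1 j 2 + ent 1 2 j 2) * w ⟨2, by omega⟩ = 0 := by
    intro j
    have := congrFun hw j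
    simp only [mulVec, dotProduct, Pi.zero_apply] at this
    rw [sum3 hn _ (fun k hk => by rw [hbig k hk, mul_zero]), hent, hent, hent] at this
    exact this
  have r0 := hrow ⟨0, by omega⟩
  have r1 := hrow ⟨1, by omega⟩
  have r2 := hrow ⟨2, by omega⟩
  simp [ent] at r0 r1 r2
  have w0 : w ⟨0, by omega⟩ = 0 := by linear_combination (r0 + r1 - r2) / 2
  have w1 : w ⟨1, by omega⟩ = 0 := by linear_combination (r0 - r1 + r2) / 2
  have w2 : w ⟨2, by omega⟩ = 0 := by linear_combination (r1 - r0 + r2) / 2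
  ext k
  rcases Nat.lt_or_ge (k : ℕ) 3 with hk | hk
  · obtain ⟨k, hkn⟩ := k
    simp only at hk
    interval_cases k
    · exact w0
    · exact w1
    · exact w2
  · exact hbig k hk

end Pool.Agent.H578R3.Sing
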