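import Mathlib

set_option autoImplicit false

/-! Homological lemma: a four term exact sequence `0 → C → D → D → C → 0` of (augmented)
complexes. -/

namespace Pool.Agent.H578R3.TorRigid

open Function

section LemmaH

variable {R₀ : Type*} [CommRing R₀]
variable {C D : ℕ → Type*} [∀ i, AddCommGroup (C i)] [∀ i, Module R₀ (C i)]
  [∀ i, AddCommGroup (D i)] [∀ i, Module R₀ (D i)]
variable (dC : ∀ i, C (i + 1) →ₗ[R₀] C i) (dD : ∀ i, D (i + 1) →ₗ[R₀] D i)
  (Δ : ∀ i, C i →ₗ[R₀] D i) (t : ∀ i, D i →ₗ[R₀] D i) (e : ∀ i, D i →ₗ[R₀] C i)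

/-- The data of a four term sequence of augmented complexes (index `0` is the augmentation). -/
structure FourTerm : Prop where
  dC_dC : ∀ i x, dC i (dC (i + 1) x) = 0
  dD_dD : ∀ i x, dD i (dD (i + 1) x) = 0
  commΔ : ∀ i x, Δ i (dC i x) = dD i (Δ (i + 1) x)
  commt : ∀ i x, t i (dD i x) = dD i (t (i + 1) x)
  comme : ∀ i x, e i (dD i x) = dC i (e (i + 1) x)
  e_surj : ∀ i, Surjective (e i)
  ex_te : ∀ i, Exact (t i) (e i)
  ex_Δt : ∀ i, Exact (Δ (i + 1)) (t (i + 1))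
  Δ_inj : ∀ i, Injective (Δ (i + 1))
  surjC : Surjective (dC 0)
  surjD : Surjective (dD 0)
  exC : Exact (dC 1) (dC 0)
  exD : Exact (dD 1) (dD 0)

variable {dC dD Δ t e}

namespace FourTerm

variable (h : FourTerm dC dD Δ t e)

include h

/-- `ker τ = im α` on `H₀`. -/
theorem ker_t0 (E1 : Exact (dC 2) (dC 1)) (y : D 0) (hy : t 0 y = 0) : ∃ c, Δ 0 c = y := by
  obtain ⟨d, rfl⟩ := h.surjD y
  rw [h.commt] at hy
  obtain ⟨d1, hd1⟩ := (h.exD _).1 hy
  -- `t 1 d = ∂ d1`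
  have h1 : dC 1 (e 2 d1) = 0 := by
    rw [← h.comme, hd1]
    exact (h.ex_te 1).apply_apply_eq_zero d
  obtain ⟨c2, hc2⟩ := (E1 _).1 h1
  obtain ⟨d2, rfl⟩ := h.e_surj 3 c2
  have h2 : e 2 (d1 - dD 2 d2) = 0 := by
    rw [map_sub, h.comme, hc2, sub_self]
  obtain ⟨d1', hd1'⟩ := (h.ex_te 2 _).1 h2
  have h3 : t 1 (d - dD 1 d1') = 0 := by
    rw [map_sub, h.commt, hd1', map_sub, h.dD_dD, sub_zero, hd1, sub_self]
  obtain ⟨c, hc⟩ := (h.ex_Δt 0 _).1 h3
  refine ⟨dC 0 c, ?_⟩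
  rw [h.commΔ, hc, map_sub, h.dD_dD, sub_zero]

theorem t0_Δ0 (c : C 0) : t 0 (Δ 0 c) = 0 := by
  obtain ⟨c, rfl⟩ := h.surjC c
  rw [h.commΔ, h.commt, (h.ex_Δt 0).apply_apply_eq_zero, map_zero]

theorem Δ0_inj [IsArtinian R₀ (D 0)] [IsNoetherian R₀ (D 0)] (E1 : Exact (dC 2) (dC 1)) :
    Injective (Δ 0) := by
  have hfin : Module.length R₀ (D 0) ≠ ⊤ := Module.length_ne_top
  -- `length D₀ = length (ker t) + length (range t)`
  have h1 : Module.length R₀ (D 0) =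
      Module.length R₀ (LinearMap.ker (t 0)) + Module.length R₀ (LinearMap.range (t 0)) := by
    refine Module.length_eq_add_of_exact (LinearMap.ker (t 0)).subtype (t 0).rangeRestrict
      (Submodule.subtype_injective _) (LinearMap.surjective_rangeRestrict _) ?_
    intro y
    constructor
    · intro hy
      exact ⟨⟨y, by simpa using congrArg Subtype.val hy⟩, rfl⟩
    · rintro ⟨⟨z, hz⟩, rfl⟩
      exact Subtype.ext hz
  have h2 : Module.length R₀ (D 0) =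
      Module.length R₀ (LinearMap.range (t 0)) + Module.length R₀ (C 0) := by
    refine Module.length_eq_add_of_exact (LinearMap.range (t 0)).subtype (e 0)
      (Submodule.subtype_injective _) (h.e_surj 0) ?_
    intro y
    constructor
    · intro hy
      obtain ⟨z, hz⟩ := (h.ex_te 0 _).1 hy
      exact ⟨⟨y, z, hz⟩, rfl⟩
    · rintro ⟨⟨z, w, rfl⟩, rfl⟩
      exact (h.ex_te 0).apply_apply_eq_zero w
  let α : C 0 →ₗ[R₀] LinearMap.ker (t 0) := (Δ 0).codRestrict _ (fun c => h.t0_Δ0 c)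
  have hα : Surjective α := by
    rintro ⟨y, hy⟩
    obtain ⟨c, hc⟩ := h.ker_t0 E1 y hy
    exact ⟨c, Subtype.ext hc⟩
  have h3 : Module.length R₀ (C 0) =
      Module.length R₀ (LinearMap.ker α) + Module.length R₀ (LinearMap.ker (t 0)) := by
    refine Module.length_eq_add_of_exact (LinearMap.ker α).subtype α
      (Submodule.subtype_injective _) hα ?_
    intro y
    constructor
    · intro hy
      exact ⟨⟨y, hy⟩, rfl⟩
    · rintro ⟨⟨z, hz⟩, rfl⟩
      exact hz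
  have hr : Module.length R₀ (LinearMap.range (t 0)) ≠ ⊤ := by
    intro hr
    apply hfin
    rw [h1, hr, add_top]
  have hk : Module.length R₀ (LinearMap.ker (t 0)) ≠ ⊤ := by
    intro hr
    apply hfin
    rw [h1, hr, top_add]
  have h4 : Module.length R₀ (C 0) = Module.length R₀ (LinearMap.ker (t 0)) := by
    rw [h1, add_comm] at h2
    exact (ENat.add_right_injective_of_ne_top hr h2).symm
  rw [h4] at h3
  have h5 : Module.length R₀ (LinearMap.ker α) = 0 := by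
    have : 0 + Module.length R₀ (LinearMap.ker (t 0)) =
        Module.length R₀ (LinearMap.ker α) + Module.length R₀ (LinearMap.ker (t 0)) := by
      rw [zero_add]; exact h3
    exact (ENat.add_left_injective_of_ne_top hk this).symm
  rw [Module.length_eq_zero_iff] at h5
  intro x y hxy
  have hxy' : x - y ∈ LinearMap.ker α := by
    rw [LinearMap.mem_ker]
    apply Subtype.ext
    change Δ 0 (x - y) = 0
    rw [map_sub, hxy, sub_self]
  have : (⟨x - y, hxy'⟩ : LinearMap.ker α) = 0 := Subsingleton.elim _ _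
  have h6 : x - y = 0 := congrArg Subtype.val this
  exact sub_eq_zero.1 h6

/-- `t` is surjective on `H₁(D)`. -/
theorem t_surj [IsArtinian R₀ (D 0)] [IsNoetherian R₀ (D 0)] (E1 : Exact (dC 2) (dC 1))
    (z : D 2) (hz : dD 1 z = 0) :
    ∃ (z' : D 2) (w : D 3), dD 1 z' = 0 ∧ z = t 2 z' + dD 2 w := by
  have h1 : dC 1 (e 2 z) = 0 := by rw [← h.comme, hz, map_zero]
  obtain ⟨c2, hc2⟩ := (E1 _).1 h1
  obtain ⟨d2, rfl⟩ := h.e_surj 3 c2
  have h2 : e 2 (z - dD 2 d2) = 0 := by rw [map_sub, h.comme, hc2, sub_self]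
  obtain ⟨y, hy⟩ := (h.ex_te 2 _).1 h2
  have h3 : t 1 (dD 1 y) = 0 := by rw [h.commt, hy, map_sub, hz, h.dD_dD, sub_zero]
  obtain ⟨c0, hc0⟩ := (h.ex_Δt 0 _).1 h3
  have h4 : Δ 0 (dC 0 c0) = 0 := by rw [h.commΔ, hc0, h.dD_dD]
  have h5 : dC 0 c0 = 0 := (h.Δ0_inj E1) (by rw [h4, map_zero])
  obtain ⟨c1, rfl⟩ := (h.exC _).1 h5
  refine ⟨y - Δ 2 c1, d2, ?_, ?_⟩
  · rw [map_sub, ← h.commΔ, hc0, sub_self]
  · rw [map_sub, (h.ex_Δt 1).apply_apply_eq_zero, sub_zero, hy, sub_add_cancel]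

/-- If `H₁(D) = 0 = H₂(D)` then `H₂(C) = 0`. -/
theorem exact2 [IsArtinian R₀ (D 0)] [IsNoetherian R₀ (D 0)] (E1 : Exact (dC 2) (dC 1))
    (D1 : Exact (dD 2) (dD 1)) (D2 : Exact (dD 3) (dD 2)) : Exact (dC 3) (dC 2) := by
  intro c
  constructor
  · intro hc
    obtain ⟨d, rfl⟩ := h.e_surj 3 c
    rw [← h.comme] at hc
    obtain ⟨y, hy⟩ := (h.ex_te 2 _).1 hc
    have h3 : t 1 (dD 1 y) = 0 := by rw [h.commt, hy, h.dD_dD]
    obtain ⟨c0, hc0⟩ := (h.ex_Δt 0 _).1 h3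
    have h4 : Δ 0 (dC 0 c0) = 0 := by rw [h.commΔ, hc0, h.dD_dD]
    have h5 : dC 0 c0 = 0 := (h.Δ0_inj E1) (by rw [h4, map_zero])
    obtain ⟨c1, rfl⟩ := (h.exC _).1 h5
    have h6 : dD 1 (y - Δ 2 c1) = 0 := by rw [map_sub, ← h.commΔ, hc0, sub_self]
    obtain ⟨d', hd'⟩ := (D1 _).1 h6
    have h7 : dD 2 (d - t 3 d') = 0 := by
      rw [map_sub, ← h.commt, hd', map_sub, (h.ex_Δt 1).apply_apply_eq_zero, sub_zero, hy,
        sub_self]
    obtain ⟨d'', hd''⟩ := (D2 _).1 h7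
    refine ⟨e 4 d'', ?_⟩
    rw [← h.comme, hd'', map_sub, (h.ex_te 3).apply_apply_eq_zero, sub_zero]
  · rintro ⟨x, rfl⟩
    exact h.dC_dC 2 x

end FourTerm

end LemmaH

end Pool.Agent.H578R3.TorRigid
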