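import Mathlib
import Pool.Agent.H578R3.TorStep

set_option autoImplicit false

/-! The four term exact sequence `0 → M → B ⊗[A] M → B ⊗[A] M → M → 0` for a monogenic
extension `B = A[X]/(p)`. -/

namespace Pool.Agent.H578R3.TorRigid

open Function TensorProduct Polynomial

section Mono

set_option linter.unusedSectionVars false

variable {A B : Type*} [CommRing A] [CommRing B] [Algebra A B]
variable (M : Type*) [AddCommGroup M] [Module A M] [Module B M] [IsScalarTower A B M]
variable {p : A[X]}

/-- The action map `B ⊗[A] M → M`. -/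
noncomputable def eE : B ⊗[A] M →ₗ[B] M :=
  TensorProduct.AlgebraTensorModule.lift
    { toFun := fun b =>
        { toFun := fun m => b • m
          map_add' := smul_add b
          map_smul' := fun a m => by simp only [RingHom.id_apply]; exact smul_comm b a m }
      map_add' := fun b b' => by ext m; exact add_smul b b' m
      map_smul' := fun b b' => by ext m; exact mul_smul b b' m }

@[simp] theorem eE_tmul (b : B) (m : M) : eE (A := A) M (b ⊗ₜ m) = b • m := by
  simp [eE]

/-- Multiplication by `x` on the right factor, `A`-linear map of `M`. -/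
noncomputable def xM (x : B) : M →ₗ[A] M where
  toFun := fun m => x • m
  map_add' := smul_add x
  map_smul' := fun a m => by simp only [RingHom.id_apply]; exact smul_comm x a m

@[simp] theorem xM_apply (x : B) (m : M) : xM (A := A) M x m = x • m := rfl

/-- `x ⊗ 1`. -/
noncomputable def XE (A : Type*) {B : Type*} [CommRing A] [CommRing B] [Algebra A B]
    (M : Type*) [AddCommGroup M] [Module A M] (x : B) :
    Module.End B (B ⊗[A] M) := algebraMap B (Module.End B (B ⊗[A] M)) x

@[simp] theorem XE_apply (x : B) (w : B ⊗[A] M) : XE A M x w = x • w := by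
  simp [XE, Module.algebraMap_end_apply]

/-- `1 ⊗ x`. -/
noncomputable def YE (A : Type*) {B : Type*} [CommRing A] [CommRing B] [Algebra A B]
    (M : Type*) [AddCommGroup M] [Module A M] [Module B M] [IsScalarTower A B M] (x : B) :
    Module.End B (B ⊗[A] M) := LinearMap.baseChange B (xM (A := A) M x)

@[simp] theorem YE_tmul (x : B) (b : B) (m : M) : YE A M x (b ⊗ₜ m) = b ⊗ₜ (x • m) := by
  simp [YE]

theorem commXY (x y : B) : Commute (XE A M x) (YE A M y) := by
  unfold XE
  exact Algebra.commutes x (YE A M y)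

theorem YE_pow_tmul (x : B) (i : ℕ) (b : B) (m : M) :
    (YE A M x ^ i) (b ⊗ₜ m) = b ⊗ₜ (x ^ i • m) := by
  induction i generalizing m with
  | zero => simp
  | succ i ih => rw [pow_succ, Module.End.mul_apply, YE_tmul, ih, smul_smul, ← pow_succ]

theorem XE_pow_apply (x : B) (i : ℕ) (w : B ⊗[A] M) : (XE A M x ^ i) w = x ^ i • w := by
  unfold XE
  rw [← map_pow, Module.algebraMap_end_apply]

/-- `t = x ⊗ 1 - 1 ⊗ x`. -/
noncomputable def tE (A : Type*) {B : Type*} [CommRing A] [CommRing B] [Algebra A B]
    (M : Type*) [AddCommGroup M] [Module A M] [Module B M] [IsScalarTower A B M] (x : B) :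
    Module.End B (B ⊗[A] M) := XE A M x - YE A M x

theorem eE_tE (x : B) (w : B ⊗[A] M) : eE (A := A) M (tE A M x w) = 0 := by
  induction w using TensorProduct.induction_on with
  | zero => simp
  | tmul b m =>
    simp only [tE, LinearMap.sub_apply, XE_apply, YE_tmul, map_sub, TensorProduct.smul_tmul',
      eE_tmul, smul_eq_mul]
    rw [mul_comm, mul_smul, sub_self]
  | add a b ha hb => rw [map_add, map_add, ha, hb, add_zero]

theorem eE_surj : Surjective (eE (A := A) (B := B) M) := fun m => ⟨1 ⊗ₜ m, by simp⟩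

omit [Algebra A B] [AddCommGroup M] [Module A M] [Module B M] [IsScalarTower A B M] in
theorem geom_aux {E : Type*} [AddCommGroup E] [Module B E] (X Y : Module.End B E)
    (hXY : Commute X Y) (n : ℕ) :
    (X - Y) * ∑ i ∈ Finset.range n, X ^ i * Y ^ (n - 1 - i) = X ^ n - Y ^ n :=
  hXY.mul_geom_sum₂ n

theorem geomXY (x : B) (n : ℕ) :
    (XE A M x - YE A M x) *
      ∑ i ∈ Finset.range n, XE A M x ^ i * YE A M x ^ (n - 1 - i) = XE A M x ^ n - YE A M x ^ n :=
  geom_aux (XE A M x) (YE A M x) (commXY (A := A) M x x) n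

variable (h : IsAdjoinRootMonic B p)

include h in
theorem sub_mem_range (b : B) (m : M) :
    b ⊗ₜ[A] m - 1 ⊗ₜ[A] (b • m) ∈ LinearMap.range (tE A M h.root) := by
  obtain ⟨q, rfl⟩ := h.map_surjective b
  induction q using Polynomial.induction_on' with
  | add q r hq hr =>
    have : h.map (q + r) ⊗ₜ[A] m - 1 ⊗ₜ[A] (h.map (q + r) • m) =
        (h.map q ⊗ₜ[A] m - 1 ⊗ₜ[A] (h.map q • m)) +
          (h.map r ⊗ₜ[A] m - 1 ⊗ₜ[A] (h.map r • m)) := by
      rw [map_add, TensorProduct.add_tmul, add_smul, TensorProduct.tmul_add]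
      abel
    rw [this]
    exact Submodule.add_mem _ hq hr
  | monomial i a =>
    have h1 : h.map (monomial i a) = a • h.root ^ i := by
      rw [← Polynomial.C_mul_X_pow_eq_monomial, map_mul, map_pow, h.map_X,
        ← IsAdjoinRoot.algebraMap_apply, Algebra.smul_def]
    rw [h1]
    have h2 : (a • h.root ^ i) ⊗ₜ[A] m - 1 ⊗ₜ[A] ((a • h.root ^ i) • m) =
        (algebraMap A B a) • ((XE A M h.root ^ i - YE A M h.root ^ i) ((1 : B) ⊗ₜ[A] m)) := by
      rw [LinearMap.sub_apply, YE_pow_tmul, XE_pow_apply, smul_sub, algebraMap_smul,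
        algebraMap_smul, TensorProduct.smul_tmul', TensorProduct.smul_tmul', smul_eq_mul, mul_one,
        ← TensorProduct.tmul_smul, smul_assoc]
    rw [h2, ← geomXY M h.root i]
    refine Submodule.smul_mem _ _ ?_
    exact ⟨_, rfl⟩

include h in
theorem exact_te : Exact (tE A M h.root) (eE (A := A) (B := B) M) := by
  intro w
  constructor
  · intro hw
    have key : ∀ w : B ⊗[A] M, w - 1 ⊗ₜ[A] (eE (A := A) M w) ∈
        LinearMap.range (tE A M h.root) := by
      intro w
      induction w using TensorProduct.induction_on with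
      | zero => simp
      | tmul b m => rw [eE_tmul]; exact sub_mem_range M h b m
      | add a b ha hb =>
        have : a + b - 1 ⊗ₜ[A] (eE (A := A) M (a + b)) =
            (a - 1 ⊗ₜ[A] (eE (A := A) M a)) + (b - 1 ⊗ₜ[A] (eE (A := A) M b)) := by
          rw [map_add, TensorProduct.tmul_add]; abel
        rw [this]
        exact Submodule.add_mem _ ha hb
    have := key w
    rw [hw, TensorProduct.tmul_zero, sub_zero] at this
    exact this
  · rintro ⟨w, rfl⟩
    exact eE_tE M _ w

/-- The Bezoutian operator. -/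
noncomputable def GE : Module.End B (B ⊗[A] M) :=
  ∑ k ∈ Finset.range p.natDegree, (algebraMap A B (p.coeff (k + 1))) •
    ∑ i ∈ Finset.range (k + 1), XE A M h.root ^ i * YE A M h.root ^ (k + 1 - 1 - i)

theorem tE_GE : tE A M h.root * GE M h = 0 := by
  have h1 : tE A M h.root * GE M h =
      ∑ k ∈ Finset.range p.natDegree, (algebraMap A B (p.coeff (k + 1))) •
        (XE A M h.root ^ (k + 1) - YE A M h.root ^ (k + 1)) := by
    unfold GE tE
    rw [Finset.mul_sum]
    refine Finset.sum_congr rfl fun k _ => ?_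
    rw [mul_smul_comm, geomXY M h.root (k + 1)]
  have h2 : tE A M h.root * GE M h =
      ∑ k ∈ Finset.range (p.natDegree + 1), (algebraMap A B (p.coeff k)) •
        (XE A M h.root ^ k - YE A M h.root ^ k) := by
    have e0 : (1 : Module.End B (B ⊗[A] M)) - 1 = 0 :=
      LinearMap.ext fun w => by rw [LinearMap.sub_apply, sub_self]; rfl
    rw [h1, Finset.sum_range_succ' _ p.natDegree, pow_zero, pow_zero, e0, smul_zero, add_zero]
  have hx : (∑ k ∈ Finset.range (p.natDegree + 1), algebraMap A B (p.coeff k) * h.root ^ k) = 0 := by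
    have := h.aeval_root_self
    rw [Polynomial.aeval_eq_sum_range] at this
    simpa [Algebra.smul_def] using this
  rw [h2]
  apply LinearMap.ext
  intro w
  rw [LinearMap.zero_apply]
  induction w using TensorProduct.induction_on with
  | zero => simp
  | tmul b m =>
    have e1 : (∑ k ∈ Finset.range (p.natDegree + 1), (algebraMap A B (p.coeff k)) •
        (XE A M h.root ^ k - YE A M h.root ^ k)) (b ⊗ₜ[A] m) =
        ∑ k ∈ Finset.range (p.natDegree + 1), ((algebraMap A B (p.coeff k) * h.root ^ k) •
          (b ⊗ₜ[A] m) - b ⊗ₜ[A] ((algebraMap A B (p.coeff k) * h.root ^ k) • m)) := by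
      rw [LinearMap.sum_apply]
      refine Finset.sum_congr rfl fun k _ => ?_
      rw [LinearMap.smul_apply, LinearMap.sub_apply, XE_pow_apply, YE_pow_tmul, smul_sub,
        mul_smul (algebraMap A B (p.coeff k)) (h.root ^ k) m,
        mul_smul (algebraMap A B (p.coeff k)) (h.root ^ k) (b ⊗ₜ[A] m),
        algebraMap_smul B (p.coeff k) (h.root ^ k • m),
        TensorProduct.tmul_smul (p.coeff k) b (h.root ^ k • m),
        algebraMap_smul B (p.coeff k) (b ⊗ₜ[A] (h.root ^ k • m))]
    rw [e1, Finset.sum_sub_distrib, ← Finset.sum_smul, ← TensorProduct.tmul_sum,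
      ← Finset.sum_smul, hx]
    simp
  | add a b ha hb => rw [map_add, ha, hb, add_zero]

theorem YE_one_tmul_smul (x : B) (m : M) :
    (1 : B) ⊗ₜ[A] (x • m) = YE A M x ((1 : B) ⊗ₜ[A] m) := by
  rw [YE_tmul]

theorem commGY (y : B) : Commute (GE M h) (YE A M y) := by
  unfold GE
  refine Commute.sum_left _ _ _ fun k _ => ?_
  refine Commute.smul_left ?_ _
  refine Commute.sum_left _ _ _ fun i _ => ?_
  refine Commute.mul_left ((commXY M h.root y).pow_left i) ?_
  refine Commute.pow_left ?_ _
  apply LinearMap.ext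
  intro w
  induction w using TensorProduct.induction_on with
  | zero => simp
  | tmul b m =>
    rw [Module.End.mul_apply, Module.End.mul_apply, YE_tmul, YE_tmul, YE_tmul, YE_tmul, smul_comm]
  | add a b ha hb => rw [map_add, ha, hb, map_add]

theorem GE_smul (b : B) (m : M) :
    GE M h ((1 : B) ⊗ₜ[A] (b • m)) = b • GE M h ((1 : B) ⊗ₜ[A] m) := by
  obtain ⟨q, rfl⟩ := h.map_surjective b
  induction q using Polynomial.induction_on' with
  | add q r hq hr => rw [map_add, add_smul, TensorProduct.tmul_add, map_add, hq, hr, add_smul]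
  | monomial i a =>
    have h1 : h.map (monomial i a) = algebraMap A B a * h.root ^ i := by
      rw [← Polynomial.C_mul_X_pow_eq_monomial, map_mul, map_pow, h.map_X,
        ← IsAdjoinRoot.algebraMap_apply]
    rw [h1, mul_smul, mul_smul, algebraMap_smul, TensorProduct.tmul_smul, algebraMap_smul,
      LinearMap.map_smul_of_tower]
    congr 1
    clear h1
    induction i generalizing m with
    | zero => simp
    | succ i ih =>
      rw [pow_succ, mul_smul, mul_smul, ih (h.root • m)]
      congr 1
      rw [YE_one_tmul_smul]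
      have e1 : (GE M h) ((YE A M h.root) ((1 : B) ⊗ₜ[A] m)) =
          (YE A M h.root) ((GE M h) ((1 : B) ⊗ₜ[A] m)) := by
        rw [← Module.End.mul_apply, ← Module.End.mul_apply, (commGY M h h.root).eq]
      rw [e1]
      have e2 := LinearMap.congr_fun (tE_GE M h) ((1 : B) ⊗ₜ[A] m)
      rw [Module.End.mul_apply, LinearMap.zero_apply] at e2
      unfold tE at e2
      rw [LinearMap.sub_apply, XE_apply, sub_eq_zero] at e2
      exact e2.symm

/-- The map `Δ : M → B ⊗[A] M`. -/
noncomputable def ΔE : M →ₗ[B] B ⊗[A] M where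
  toFun := fun m => GE M h ((1 : B) ⊗ₜ[A] m)
  map_add' := fun m m' => by rw [TensorProduct.tmul_add, map_add]
  map_smul' := fun b m => GE_smul M h b m

theorem ΔE_apply (m : M) : ΔE M h m = GE M h ((1 : B) ⊗ₜ[A] m) := rfl

/-- coordinates -/
noncomputable def co (i : Fin p.natDegree) : B ⊗[A] M →ₗ[A] M :=
  (TensorProduct.lid A M).toLinearMap ∘ₗ (h.basis.coord i).rTensor M

theorem co_tmul (i : Fin p.natDegree) (b : B) (m : M) :
    co M h i (b ⊗ₜ[A] m) = (h.basis.repr b i) • m := by
  simp [co]

theorem co_pow (i : Fin p.natDegree) (j : ℕ) (hj : j < p.natDegree) (m : M) :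
    co M h i ((h.root ^ j) ⊗ₜ[A] m) = if (i : ℕ) = j then m else 0 := by
  have : h.root ^ j = h.basis ⟨j, hj⟩ := by rw [h.basis_apply]
  rw [co_tmul, this, Module.Basis.repr_self, Finsupp.single_apply]
  by_cases hij : (i : ℕ) = j
  · rw [if_pos hij, if_pos (Fin.ext hij.symm), one_smul]
  · rw [if_neg hij, if_neg (fun hh => hij (by rw [← hh])), zero_smul]

theorem co_expand (w : B ⊗[A] M) :
    w = ∑ i : Fin p.natDegree, (h.root ^ (i : ℕ)) ⊗ₜ[A] (co M h i w) := by
  induction w using TensorProduct.induction_on with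
  | zero => simp
  | tmul b m =>
    conv_lhs => rw [← h.basis.sum_repr b]
    rw [TensorProduct.sum_tmul]
    refine Finset.sum_congr rfl fun i _ => ?_
    rw [co_tmul, h.basis_apply, TensorProduct.smul_tmul]
  | add a b ha hb =>
    conv_lhs => rw [ha, hb]
    rw [← Finset.sum_add_distrib]
    refine Finset.sum_congr rfl fun i _ => ?_
    rw [map_add, TensorProduct.tmul_add]

theorem co_ext (w : B ⊗[A] M) (hw : ∀ i, co M h i w = 0) : w = 0 := by
  rw [co_expand M h w]
  exact Finset.sum_eq_zero fun i _ => by rw [hw i, TensorProduct.tmul_zero]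

theorem co_YE (x : B) (i : Fin p.natDegree) (w : B ⊗[A] M) :
    co M h i (YE A M x w) = x • co M h i w := by
  induction w using TensorProduct.induction_on with
  | zero => simp
  | tmul b m => rw [YE_tmul, co_tmul, co_tmul, smul_comm]
  | add a b ha hb => rw [map_add, map_add, map_add, ha, hb, smul_add]

theorem co_ΔE (i : Fin p.natDegree) (hi : (i : ℕ) + 1 = p.natDegree) (m : M) :
    co M h i (ΔE M h m) = m := by
  rw [ΔE_apply]
  unfold GE
  rw [LinearMap.sum_apply, map_sum]
  have hmem : (i : ℕ) ∈ Finset.range p.natDegree := Finset.mem_range.2 i.2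
  rw [Finset.sum_eq_single_of_mem (i : ℕ) hmem]
  · rw [LinearMap.smul_apply, LinearMap.sum_apply, hi, Polynomial.Monic.coeff_natDegree h.monic,
      map_one, one_smul, map_sum]
    rw [← hi, Finset.sum_eq_single_of_mem (i : ℕ) (Finset.mem_range.2 (Nat.lt_succ_self _))]
    · rw [Module.End.mul_apply, YE_pow_tmul, XE_pow_apply, TensorProduct.smul_tmul', smul_eq_mul,
        mul_one, co_pow M h i (i : ℕ) i.2, if_pos rfl]
      simp
    · intro j hj hji
      rw [Finset.mem_range] at hj
      rw [Module.End.mul_apply, YE_pow_tmul, XE_pow_apply, TensorProduct.smul_tmul', smul_eq_mul,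
        mul_one, co_pow M h i j (by omega), if_neg (fun hh => hji hh.symm)]
  · intro k hk hki
    rw [Finset.mem_range] at hk
    rw [LinearMap.smul_apply, LinearMap.sum_apply, algebraMap_smul, map_smul, map_sum]
    rw [Finset.sum_eq_zero, smul_zero]
    intro j hj
    rw [Finset.mem_range] at hj
    rw [Module.End.mul_apply, YE_pow_tmul, XE_pow_apply, TensorProduct.smul_tmul', smul_eq_mul,
        mul_one, co_pow M h i j (by omega), if_neg (by omega)]

theorem ΔE_inj [Nontrivial B] : Injective (ΔE M h) := by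
  have hn : 0 < p.natDegree := h.deg_pos
  intro m m' hm
  have := congrArg (co M h ⟨p.natDegree - 1, by omega⟩) hm
  rwa [co_ΔE M h _ (by simp; omega), co_ΔE M h _ (by simp; omega)] at this

theorem ker_tE_zero (i : Fin p.natDegree) (hi : (i : ℕ) + 1 = p.natDegree) (w : B ⊗[A] M)
    (hw : tE A M h.root w = 0) (hc : co M h i w = 0) : w = 0 := by
  have hXY : h.root • w = YE A M h.root w := by
    unfold tE at hw
    rw [LinearMap.sub_apply, XE_apply, sub_eq_zero] at hw
    exact hw
  -- shift
  have hshift : ∀ (j : ℕ) (hj : j + 1 < p.natDegree),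
      co M h ⟨j, by omega⟩ w = h.root • co M h ⟨j + 1, hj⟩ w := by
    intro j hj
    rw [← co_YE, ← hXY]
    conv_rhs => rw [co_expand M h w]
    rw [Finset.smul_sum, map_sum]
    rw [Finset.sum_eq_single_of_mem (⟨j, by omega⟩ : Fin p.natDegree) (Finset.mem_univ _)]
    · rw [TensorProduct.smul_tmul', smul_eq_mul, ← pow_succ', co_pow M h _ (j + 1) hj, if_pos rfl]
    · intro k _ hk
      by_cases hk2 : (k : ℕ) + 1 = p.natDegree
      · have : k = i := Fin.ext (by omega)
        rw [this, hc, TensorProduct.tmul_zero, smul_zero, map_zero]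
      · rw [TensorProduct.smul_tmul', smul_eq_mul, ← pow_succ', co_pow M h _ _ (by omega), if_neg]
        intro hh
        apply hk
        apply Fin.ext
        simp at hh ⊢
        omega
  have hall : ∀ (s : ℕ) (j : ℕ) (hj : j < p.natDegree), j + s + 1 = p.natDegree →
      co M h ⟨j, hj⟩ w = 0 := by
    intro s
    induction s with
    | zero =>
      intro j hj hjs
      have : (⟨j, hj⟩ : Fin p.natDegree) = i := Fin.ext (by simp; omega)
      rw [this, hc]
    | succ s ih =>
      intro j hj hjs
      rw [hshift j (by omega), ih (j + 1) (by omega) (by omega), smul_zero]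
  refine co_ext M h w fun j => ?_
  exact hall (p.natDegree - 1 - (j : ℕ)) j j.2 (by omega)

theorem exact_Δt [Nontrivial B] : Exact (ΔE M h) (tE A M h.root) := by
  have hn : 0 < p.natDegree := h.deg_pos
  intro w
  constructor
  · intro hw
    let i : Fin p.natDegree := ⟨p.natDegree - 1, by omega⟩
    have hi : (i : ℕ) + 1 = p.natDegree := by simp [i]; omega
    refine ⟨co M h i w, ?_⟩
    have h1 : tE A M h.root (ΔE M h (co M h i w) - w) = 0 := by
      rw [map_sub, hw, sub_zero, ΔE_apply, ← Module.End.mul_apply, tE_GE, LinearMap.zero_apply]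
    have h2 : co M h i (ΔE M h (co M h i w) - w) = 0 := by
      rw [map_sub, co_ΔE M h i hi, sub_self]
    exact sub_eq_zero.1 (ker_tE_zero M h i hi _ h1 h2)
  · rintro ⟨m, rfl⟩
    rw [ΔE_apply, ← Module.End.mul_apply, tE_GE, LinearMap.zero_apply]

end Mono

end Pool.Agent.H578R3.TorRigid
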