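import Mathlib
import Pool.Agent.H578R3.TorStep
import Pool.Agent.H578R3.TorMono

set_option autoImplicit false

/-! The inductive step along a monogenic extension. -/

namespace Pool.Agent.H578R3.TorRigid

open Function TensorProduct Polynomial

universe u v w

/-- Exactness of `P_{i+2} ⊗ M → P_{i+1} ⊗ M → P_i ⊗ M` in the middle. -/
def ExactAt (A : Type*) [CommRing A] (M : Type*) [AddCommGroup M] [Module A M]
    {P : ℕ → Type*} [∀ i, AddCommGroup (P i)] [∀ i, Module A (P i)]
    (d : ∀ i, P (i + 1) →ₗ[A] P i) (i : ℕ) : Prop :=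
  Exact (LinearMap.rTensor M (d (i + 1))) (LinearMap.rTensor M (d i))

theorem pow_sub_mem {B 𝒟 : Type*} [CommRing B] [AddCommGroup 𝒟] [Module B 𝒟]
    (W Z : Submodule B 𝒟) (X Y : Module.End B 𝒟) (hXY : Commute X Y)
    (YZ : ∀ z ∈ Z, Y z ∈ Z) (XW : ∀ z ∈ W, X z ∈ W) (YW : ∀ z ∈ W, Y z ∈ W) (j q : ℕ)
    (hX : ∀ z ∈ Z, (X ^ j) z ∈ W) (hY : ∀ z ∈ Z, (Y ^ q) z ∈ W) :
    ∀ z ∈ Z, ((X - Y) ^ (j + q)) z ∈ W := by
  intro z hz
  have hXW : ∀ (k : ℕ) (y : 𝒟), y ∈ W → (X ^ k) y ∈ W := fun k => by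
    induction k with
    | zero => intro y hy; simpa using hy
    | succ k ih => intro y hy; rw [pow_succ, Module.End.mul_apply]; exact ih _ (XW _ hy)
  have hYW : ∀ (k : ℕ) (y : 𝒟), y ∈ W → (Y ^ k) y ∈ W := fun k => by
    induction k with
    | zero => intro y hy; simpa using hy
    | succ k ih => intro y hy; rw [pow_succ, Module.End.mul_apply]; exact ih _ (YW _ hy)
  have hYZ : ∀ (k : ℕ) (y : 𝒟), y ∈ Z → (Y ^ k) y ∈ Z := fun k => by
    induction k with
    | zero => intro y hy; simpa using hy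
    | succ k ih => intro y hy; rw [pow_succ, Module.End.mul_apply]; exact ih _ (YZ _ hy)
  have hneg : ∀ (k : ℕ) (y : 𝒟) (V : Submodule B 𝒟), (Y ^ k) y ∈ V → ((-Y) ^ k) y ∈ V := by
    intro k y V hy
    rcases Nat.even_or_odd k with hk | hk
    · rw [hk.neg_pow]; exact hy
    · rw [hk.neg_pow, LinearMap.neg_apply]; exact Submodule.neg_mem _ hy
  rw [sub_eq_add_neg, hXY.neg_right.add_pow, LinearMap.sum_apply]
  refine Submodule.sum_mem _ fun m _ => ?_
  have hmain : (X ^ m * (-Y) ^ (j + q - m)) z ∈ W := by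
    rw [Module.End.mul_apply]
    by_cases hm : j ≤ m
    · obtain ⟨r, rfl⟩ := Nat.exists_eq_add_of_le hm
      rw [add_comm j r, pow_add, Module.End.mul_apply]
      exact hXW _ _ (hX _ (hneg _ _ Z (hYZ _ _ hz)))
    · refine hXW _ _ (hneg _ _ W ?_)
      obtain ⟨r, hr⟩ := Nat.exists_eq_add_of_le (show q ≤ j + q - m by omega)
      rw [hr, add_comm q r, pow_add, Module.End.mul_apply]
      exact hYW _ _ (hY _ hz)
  have : (X ^ m * (-Y) ^ (j + q - m) * ((j + q).choose m : Module.End B 𝒟)) z =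
      ((j + q).choose m) • ((X ^ m * (-Y) ^ (j + q - m)) z) := by
    rw [← nsmul_eq_mul', LinearMap.smul_apply]
  rw [this]
  exact Submodule.smul_of_tower_mem _ _ hmain

section Homotopy

variable {B : Type*} [CommRing B] {P : ℕ → Type*} [∀ i, AddCommGroup (P i)] [∀ i, Module B (P i)]
variable (d : ∀ i, P (i + 1) →ₗ[B] P i)

theorem homotopy_zero (hex : ∀ i, Exact (d (i + 1)) (d i))
    [Module.Projective B (P 1)] [Module.Projective B (P 2)] (b : B) (hb : ∀ n : P 0, b • n = 0) :
    ∃ (s0 : P 1 →ₗ[B] P 2) (s1 : P 2 →ₗ[B] P 3),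
      ∀ z, b • z = d 2 (s1 z) + s0 (d 1 z) := by
  have h0 : ∀ y : P 1, b • y ∈ LinearMap.range (d 1) := fun y => by
    have : d 0 (b • y) = 0 := by rw [map_smul, hb]
    exact (hex 0 _).1 this
  obtain ⟨s0, hs0⟩ := Module.projective_lifting_property (d 1).rangeRestrict
    ((b • (LinearMap.id : P 1 →ₗ[B] P 1)).codRestrict (LinearMap.range (d 1)) h0)
    (LinearMap.surjective_rangeRestrict _)
  have hs0' : ∀ y, d 1 (s0 y) = b • y := fun y =>
    congrArg Subtype.val (LinearMap.congr_fun hs0 y)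
  have h1 : ∀ y : P 2, (b • (LinearMap.id : P 2 →ₗ[B] P 2) - s0 ∘ₗ d 1) y ∈
      LinearMap.range (d 2) := fun y => by
    refine (hex 1 _).1 ?_
    simp only [LinearMap.sub_apply, LinearMap.smul_apply, LinearMap.id_apply,
      LinearMap.comp_apply, map_sub, map_smul]
    rw [hs0', sub_self]
  obtain ⟨s1, hs1⟩ := Module.projective_lifting_property (d 2).rangeRestrict
    ((b • (LinearMap.id : P 2 →ₗ[B] P 2) - s0 ∘ₗ d 1).codRestrict (LinearMap.range (d 2)) h1)
    (LinearMap.surjective_rangeRestrict _)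
  refine ⟨s0, s1, fun z => ?_⟩
  have : d 2 (s1 z) = b • z - s0 (d 1 z) := congrArg Subtype.val (LinearMap.congr_fun hs1 z)
  rw [this, sub_add_cancel]

theorem smul_mem_range (hex : ∀ i, Exact (d (i + 1)) (d i))
    [Module.Projective B (P 1)] [Module.Projective B (P 2)] (b : B) (hb : ∀ n : P 0, b • n = 0)
    (E : Type*) [AddCommGroup E] [Module B E] (z : P 2 ⊗[B] E)
    (hz : LinearMap.rTensor E (d 1) z = 0) :
    b • z ∈ LinearMap.range (LinearMap.rTensor E (d 2)) := by
  obtain ⟨s0, s1, hs⟩ := homotopy_zero d hex b hb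
  have key : ∀ z : P 2 ⊗[B] E, b • z = LinearMap.rTensor E (d 2) (LinearMap.rTensor E s1 z) +
      LinearMap.rTensor E s0 (LinearMap.rTensor E (d 1) z) := by
    intro z
    induction z using TensorProduct.induction_on with
    | zero => simp
    | tmul x y =>
      simp only [LinearMap.rTensor_tmul]
      rw [← TensorProduct.add_tmul, ← hs, TensorProduct.smul_tmul']
    | add a b ha hb => rw [smul_add, ha, hb]; simp only [map_add]; abel
  rw [key z, hz, map_zero, add_zero]
  exact ⟨_, rfl⟩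

end Homotopy

section Step

variable {A B : Type*} [CommRing A] [CommRing B] [Algebra A B]
variable (M : Type*) [AddCommGroup M] [Module A M] [Module B M] [IsScalarTower A B M]
variable {p : A[X]} (h : IsAdjoinRootMonic B p)
variable {P : ℕ → Type*} [∀ i, AddCommGroup (P i)] [∀ i, Module B (P i)]
variable (d : ∀ i, P (i + 1) →ₗ[B] P i)

theorem fourTerm [Nontrivial B] (hsurj : Surjective (d 0)) (hex : ∀ i, Exact (d (i + 1)) (d i))
    [∀ i, Module.Flat B (P (i + 1))] :
    FourTerm (R₀ := B) (C := fun i => P i ⊗[B] M) (D := fun i => P i ⊗[B] (B ⊗[A] M))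
      (fun i => LinearMap.rTensor M (d i)) (fun i => LinearMap.rTensor (B ⊗[A] M) (d i))
      (fun i => LinearMap.lTensor (P i) (ΔE M h)) (fun i => LinearMap.lTensor (P i) (tE A M h.root))
      (fun i => LinearMap.lTensor (P i) (eE (A := A) M)) where
  dC_dC i x := by
    rw [← LinearMap.comp_apply, ← LinearMap.rTensor_comp, (hex i).linearMap_comp_eq_zero,
      LinearMap.rTensor_zero, LinearMap.zero_apply]
  dD_dD i x := by
    rw [← LinearMap.comp_apply, ← LinearMap.rTensor_comp, (hex i).linearMap_comp_eq_zero,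
      LinearMap.rTensor_zero, LinearMap.zero_apply]
  commΔ i x := by
    rw [← LinearMap.comp_apply, ← LinearMap.comp_apply, LinearMap.lTensor_comp_rTensor,
      LinearMap.rTensor_comp_lTensor]
  commt i x := by
    rw [← LinearMap.comp_apply, ← LinearMap.comp_apply, LinearMap.lTensor_comp_rTensor,
      LinearMap.rTensor_comp_lTensor]
  comme i x := by
    rw [← LinearMap.comp_apply, ← LinearMap.comp_apply, LinearMap.lTensor_comp_rTensor,
      LinearMap.rTensor_comp_lTensor]
  e_surj i := LinearMap.lTensor_surjective _ (eE_surj M)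
  ex_te i := lTensor_exact (P i) (exact_te M h) (eE_surj M)
  ex_Δt i := Module.Flat.lTensor_exact (P (i + 1)) (exact_Δt M h)
  Δ_inj i := Module.Flat.lTensor_preserves_injective_linearMap (M := P (i + 1)) _ (ΔE_inj M h)
  surjC := LinearMap.rTensor_surjective _ hsurj
  surjD := LinearMap.rTensor_surjective _ hsurj
  exC := rTensor_exact M (hex 0) hsurj
  exD := rTensor_exact _ (hex 0) hsurj

theorem finiteLength_tensor (N E : Type*) [AddCommGroup N] [Module B N] [AddCommGroup E]
    [Module B E] [IsArtinian B N] [IsNoetherian B N] [Module.Finite B E] :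
    IsArtinian B (N ⊗[B] E) ∧ IsNoetherian B (N ⊗[B] E) := by
  obtain ⟨n, f, hf⟩ := Module.Finite.exists_fin' B E
  let g : (Fin n → N) →ₗ[B] N ⊗[B] E :=
    (LinearMap.lTensor N f) ∘ₗ (TensorProduct.piScalarRight B B N (Fin n)).symm.toLinearMap
  have hg : Surjective g :=
    (LinearMap.lTensor_surjective N hf).comp (TensorProduct.piScalarRight B B N (Fin n)).symm.surjective
  exact ⟨isArtinian_of_surjective _ g hg, isNoetherian_of_surjective g (LinearMap.range_eq_top.2 hg)⟩

variable {d}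

/-- Nilpotency of `t` on `H₁`. -/
theorem t_pow_mem (hex : ∀ i, Exact (d (i + 1)) (d i))
    [Module.Projective B (P 1)] [Module.Projective B (P 2)] (x : B)
    (j q : ℕ) (hj : ∀ n : P 0, x ^ j • n = 0) (a : A) (U : M →ₗ[A] M)
    (hq : ∀ m : M, x ^ q • m = a • U m) (ha : ∀ n : P 0, algebraMap A B a • n = 0)
    (z : P 2 ⊗[B] (B ⊗[A] M)) (hz : LinearMap.rTensor (B ⊗[A] M) (d 1) z = 0) :
    ((LinearMap.lTensor (P 2) (tE A M x)) ^ (j + q)) z ∈
      LinearMap.range (LinearMap.rTensor (B ⊗[A] M) (d 2)) := by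
  set X : Module.End B (P 2 ⊗[B] (B ⊗[A] M)) := algebraMap B _ x with hX
  set Y : Module.End B (P 2 ⊗[B] (B ⊗[A] M)) := LinearMap.lTensor (P 2) (YE A M x) with hY
  have ht : LinearMap.lTensor (P 2) (tE A M x) = X - Y := by
    apply LinearMap.ext
    intro w
    induction w using TensorProduct.induction_on with
    | zero => simp
    | tmul b m =>
      simp only [hX, hY, LinearMap.lTensor_tmul, tE, LinearMap.sub_apply,
        Module.algebraMap_end_apply, XE_apply, TensorProduct.tmul_sub,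
        TensorProduct.tmul_smul]
    | add a b ha hb => rw [map_add, map_add, ha, hb]
  have hYpow : ∀ k : ℕ, Y ^ k = LinearMap.lTensor (P 2) ((YE A M x) ^ k) := fun k => by
    rw [hY, LinearMap.lTensor_pow]
  rw [ht]
  refine pow_sub_mem (LinearMap.range (LinearMap.rTensor (B ⊗[A] M) (d 2)))
    (LinearMap.ker (LinearMap.rTensor (B ⊗[A] M) (d 1))) X Y ?_ ?_ ?_ ?_ j q ?_ ?_ z
    (LinearMap.mem_ker.2 hz)
  · rw [hX]; exact Algebra.commutes x Y
  · intro y hy
    rw [LinearMap.mem_ker] at hy ⊢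
    rw [hY, ← LinearMap.comp_apply, LinearMap.rTensor_comp_lTensor,
      ← LinearMap.lTensor_comp_rTensor, LinearMap.comp_apply, hy, map_zero]
  · intro y hy
    rw [hX, Module.algebraMap_end_apply]
    exact Submodule.smul_mem _ _ hy
  · rintro _ ⟨w, rfl⟩
    rw [hY, ← LinearMap.comp_apply, LinearMap.lTensor_comp_rTensor,
      ← LinearMap.rTensor_comp_lTensor, LinearMap.comp_apply]
    exact ⟨_, rfl⟩
  · intro y hy
    rw [hX, ← map_pow, Module.algebraMap_end_apply]
    exact smul_mem_range d hex (x ^ j) hj _ y (LinearMap.mem_ker.1 hy)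
  · intro y hy
    have e1 : (YE A M x) ^ q = (algebraMap A B a) • (LinearMap.baseChange B U) := by
      apply LinearMap.ext
      intro w
      induction w using TensorProduct.induction_on with
      | zero => simp
      | tmul b m =>
        rw [YE_pow_tmul, hq, LinearMap.smul_apply, LinearMap.baseChange_tmul,
          TensorProduct.tmul_smul a b (U m), algebraMap_smul B a (b ⊗ₜ[A] (U m))]
      | add a b ha hb => rw [map_add, map_add, ha, hb]
    rw [hYpow, e1, LinearMap.lTensor_smul, LinearMap.smul_apply]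
    refine smul_mem_range d hex _ ha _ _ ?_
    rw [← LinearMap.comp_apply, LinearMap.rTensor_comp_lTensor,
      ← LinearMap.lTensor_comp_rTensor, LinearMap.comp_apply, LinearMap.mem_ker.1 hy, map_zero]

include h

theorem step1 [Nontrivial B] (hsurj : Surjective (d 0)) (hex : ∀ i, Exact (d (i + 1)) (d i))
    [∀ i, Module.Projective B (P (i + 1))] [IsArtinian B (P 0)] [IsNoetherian B (P 0)]
    [Module.Finite A M]
    (j q : ℕ) (hj : ∀ n : P 0, h.root ^ j • n = 0) (a : A) (U : M →ₗ[A] M)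
    (hq : ∀ m : M, h.root ^ q • m = a • U m) (ha : ∀ n : P 0, algebraMap A B a • n = 0)
    (E1 : ExactAt B M d 1) : ExactAt B (B ⊗[A] M) d 1 := by
  obtain ⟨i1, i2⟩ := finiteLength_tensor (B := B) (P 0) (B ⊗[A] M)
  have F := fourTerm M h d hsurj hex
  have : IsArtinian B ((fun i => P i ⊗[B] (B ⊗[A] M)) 0) := i1
  have : IsNoetherian B ((fun i => P i ⊗[B] (B ⊗[A] M)) 0) := i2
  intro z
  constructor
  · intro hz
    have iter : ∀ (n : ℕ), ∃ (z' : P 2 ⊗[B] (B ⊗[A] M)),
        LinearMap.rTensor (B ⊗[A] M) (d 1) z' = 0 ∧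
        z - ((LinearMap.lTensor (P 2) (tE A M h.root)) ^ n) z' ∈
          LinearMap.range (LinearMap.rTensor (B ⊗[A] M) (d 2)) := by
      intro n
      induction n with
      | zero => exact ⟨z, hz, by simp⟩
      | succ n ih =>
        obtain ⟨z', hz', hmem⟩ := ih
        obtain ⟨z'', w, hz'', hw⟩ := F.t_surj E1 z' hz'
        refine ⟨z'', hz'', ?_⟩
        have e1 : z - ((LinearMap.lTensor (P 2) (tE A M h.root)) ^ (n + 1)) z'' =
            (z - ((LinearMap.lTensor (P 2) (tE A M h.root)) ^ n) z') +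
            ((LinearMap.lTensor (P 2) (tE A M h.root)) ^ n)
              (LinearMap.rTensor (B ⊗[A] M) (d 2) w) := by
          have e2 : z' = (LinearMap.lTensor (P 2) (tE A M h.root)) z'' +
              LinearMap.rTensor (B ⊗[A] M) (d 2) w := hw
          rw [pow_succ, Module.End.mul_apply]
          conv_rhs => rw [e2]
          rw [map_add]
          abel
        rw [e1]
        refine Submodule.add_mem _ hmem ?_
        rw [LinearMap.lTensor_pow, ← LinearMap.comp_apply, LinearMap.lTensor_comp_rTensor,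
          ← LinearMap.rTensor_comp_lTensor, LinearMap.comp_apply]
        exact ⟨_, rfl⟩
    obtain ⟨z', hz', hmem⟩ := iter (j + q)
    have h2 := t_pow_mem M hex h.root j q hj a U hq ha z' hz'
    have h3 := Submodule.add_mem _ hmem h2
    rw [sub_add_cancel] at h3
    exact h3
  · rintro ⟨w, rfl⟩
    exact F.dD_dD 1 w

theorem step2 [Nontrivial B] (hsurj : Surjective (d 0)) (hex : ∀ i, Exact (d (i + 1)) (d i))
    [∀ i, Module.Projective B (P (i + 1))] [IsArtinian B (P 0)] [IsNoetherian B (P 0)]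
    [Module.Finite A M]
    (E1 : ExactAt B M d 1) (D1 : ExactAt B (B ⊗[A] M) d 1) (D2 : ExactAt B (B ⊗[A] M) d 2) :
    ExactAt B M d 2 := by
  obtain ⟨i1, i2⟩ := finiteLength_tensor (B := B) (P 0) (B ⊗[A] M)
  have F := fourTerm M h d hsurj hex
  have : IsArtinian B ((fun i => P i ⊗[B] (B ⊗[A] M)) 0) := i1
  have : IsNoetherian B ((fun i => P i ⊗[B] (B ⊗[A] M)) 0) := i2
  exact F.exact2 E1 D1 D2

end Step

end Pool.Agent.H578R3.TorRigid
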