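import Mathlib
import Pool.Agent.H578R3.TorRes

set_option autoImplicit false

/-! Base change, base case, and dimension shifting. -/

namespace Pool.Agent.H578R3.TorRigid

open Function TensorProduct Polynomial

section BaseChange

variable {A B : Type*} [CommRing A] [CommRing B] [Algebra A B]
variable (M : Type*) [AddCommGroup M] [Module A M]
variable {P : ℕ → Type*} [∀ i, AddCommGroup (P i)] [∀ i, Module B (P i)] [∀ i, Module A (P i)]
  [∀ i, IsScalarTower A B (P i)]
variable (d : ∀ i, P (i + 1) →ₗ[B] P i)

theorem cancel_comm (i : ℕ) (z : P (i + 1) ⊗[B] (B ⊗[A] M)) :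
    TensorProduct.AlgebraTensorModule.cancelBaseChange A B B (P i) M
      (LinearMap.rTensor (B ⊗[A] M) (d i) z) =
    LinearMap.rTensor M ((d i).restrictScalars A)
      (TensorProduct.AlgebraTensorModule.cancelBaseChange A B B (P (i + 1)) M z) := by
  induction z using TensorProduct.induction_on with
  | zero => simp
  | tmul x w =>
    induction w using TensorProduct.induction_on with
    | zero => simp
    | tmul b m =>
      rw [LinearMap.rTensor_tmul, TensorProduct.AlgebraTensorModule.cancelBaseChange_tmul,
        TensorProduct.AlgebraTensorModule.cancelBaseChange_tmul, LinearMap.rTensor_tmul,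
        LinearMap.restrictScalars_apply, map_smul]
    | add a b ha hb =>
      rw [TensorProduct.tmul_add, map_add, map_add, map_add, map_add, ha, hb]
  | add a b ha hb => rw [map_add, map_add, map_add, map_add, ha, hb]

theorem exactAt_baseChange (i : ℕ) :
    ExactAt B (B ⊗[A] M) d i ↔ ExactAt A M (fun i => (d i).restrictScalars A) i := by
  unfold ExactAt
  constructor
  · intro hE y
    constructor
    · intro hy
      obtain ⟨z, rfl⟩ := (TensorProduct.AlgebraTensorModule.cancelBaseChange A B B
        (P (i + 1)) M).surjective y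
      rw [← cancel_comm] at hy
      have hy' : LinearMap.rTensor (B ⊗[A] M) (d i) z = 0 :=
        (TensorProduct.AlgebraTensorModule.cancelBaseChange A B B (P i) M).injective
          (by rw [hy, map_zero])
      obtain ⟨w, rfl⟩ := (hE z).1 hy'
      exact ⟨_, (cancel_comm M d (i + 1) w).symm⟩
    · rintro ⟨w, rfl⟩
      obtain ⟨w, rfl⟩ := (TensorProduct.AlgebraTensorModule.cancelBaseChange A B B
        (P (i + 1 + 1)) M).surjective w
      rw [← cancel_comm, ← cancel_comm, hE.apply_apply_eq_zero, map_zero]
  · intro hE z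
    constructor
    · intro hz
      have h1 := cancel_comm M d i z
      rw [hz, map_zero] at h1
      obtain ⟨w, hw⟩ := (hE _).1 h1.symm
      obtain ⟨w, rfl⟩ := (TensorProduct.AlgebraTensorModule.cancelBaseChange A B B
        (P (i + 1 + 1)) M).surjective w
      refine ⟨w, ?_⟩
      apply (TensorProduct.AlgebraTensorModule.cancelBaseChange A B B (P (i + 1)) M).injective
      rw [cancel_comm]
      exact hw
    · rintro ⟨w, rfl⟩
      apply (TensorProduct.AlgebraTensorModule.cancelBaseChange A B B (P i) M).injective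
      rw [cancel_comm, cancel_comm, hE.apply_apply_eq_zero, map_zero]

end BaseChange

section FlatQuot

variable {V : Type*} [CommRing V] {K P Q M : Type*} [AddCommGroup K] [Module V K]
  [AddCommGroup P] [Module V P] [AddCommGroup Q] [Module V Q] [AddCommGroup M] [Module V M]

theorem inj_of_flat_quot (ι : K →ₗ[V] P) (π : P →ₗ[V] Q) (hι : Injective ι) (hπ : Surjective π)
    (hex : Exact ι π) [Module.Flat V Q] : Injective (LinearMap.rTensor M ι) := by
  rw [injective_iff_map_eq_zero]
  intro z hz
  obtain ⟨F, _, _, f, hF, hf⟩ : ∃ (F : Type _) (_ : AddCommGroup F) (_ : Module V F)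
      (f : F →ₗ[V] M), Module.Free V F ∧ Surjective f :=
    ⟨M →₀ V, inferInstance, inferInstance, Finsupp.linearCombination V (id : M → M),
      inferInstance, Finsupp.linearCombination_id_surjective V M⟩
  obtain ⟨L, hLdef⟩ : ∃ L : Submodule V F, L = LinearMap.ker f := ⟨_, rfl⟩
  have hL : Exact L.subtype f := by
    rw [hLdef]; exact LinearMap.exact_subtype_ker_map f
  obtain ⟨z', rfl⟩ := LinearMap.lTensor_surjective K hf z
  have h1 : LinearMap.lTensor P f (LinearMap.rTensor F ι z') = 0 := by
    rw [← LinearMap.comp_apply, LinearMap.lTensor_comp_rTensor, ← LinearMap.rTensor_comp_lTensor,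
      LinearMap.comp_apply]
    exact hz
  obtain ⟨w, hw⟩ := ((lTensor_exact P hL hf) _).1 h1
  have h2 : LinearMap.lTensor Q L.subtype (LinearMap.rTensor L π w) = 0 := by
    rw [← LinearMap.comp_apply, LinearMap.lTensor_comp_rTensor, ← LinearMap.rTensor_comp_lTensor,
      LinearMap.comp_apply, hw, ← LinearMap.comp_apply, ← LinearMap.rTensor_comp,
      hex.linearMap_comp_eq_zero, LinearMap.rTensor_zero, LinearMap.zero_apply]
  have h3 : LinearMap.rTensor L π w = 0 :=
    (Module.Flat.lTensor_preserves_injective_linearMap (M := Q) L.subtype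
      L.subtype_injective) (by rw [h2, map_zero])
  obtain ⟨y, rfl⟩ := ((rTensor_exact L hex hπ) _).1 h3
  have h4 : LinearMap.rTensor F ι (LinearMap.lTensor K L.subtype y) = LinearMap.rTensor F ι z' := by
    rw [← hw, ← LinearMap.comp_apply, ← LinearMap.comp_apply, LinearMap.lTensor_comp_rTensor,
      LinearMap.rTensor_comp_lTensor]
  have h5 : LinearMap.lTensor K L.subtype y = z' :=
    (Module.Flat.rTensor_preserves_injective_linearMap (M := F) ι hι) h4
  rw [← h5, ← LinearMap.comp_apply, ← LinearMap.lTensor_comp, hL.linearMap_comp_eq_zero,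
    LinearMap.lTensor_zero, LinearMap.zero_apply]

end FlatQuot

section Base

variable {V : Type*} [CommRing V] [IsDedekindDomain V]
variable (M : Type*) [AddCommGroup M] [Module V M]
variable {P : ℕ → Type*} [∀ i, AddCommGroup (P i)] [∀ i, Module V (P i)]
variable (d : ∀ i, P (i + 1) →ₗ[V] P i)

theorem exactAt_two (hex : ∀ i, Exact (d (i + 1)) (d i)) [Module.Flat V (P 1)] :
    ExactAt V M d 2 := by
  unfold ExactAt
  -- `K₁ = range (d 1) ⊆ P 1` is flat
  let K1 := LinearMap.range (d 1)
  let K2 := LinearMap.range (d 2)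
  have hflat : Module.Flat V K1 := by
    have : Module.IsTorsionFree V (P 1) := inferInstance
    have : Module.IsTorsionFree V K1 := inferInstance
    infer_instance
  have hinj : Injective (LinearMap.rTensor M K2.subtype) := by
    refine inj_of_flat_quot K2.subtype (d 1).rangeRestrict K2.subtype_injective
      (LinearMap.surjective_rangeRestrict _) ?_
    intro y
    constructor
    · intro hy
      have : d 1 y = 0 := congrArg Subtype.val hy
      exact ⟨⟨y, (hex 1 y).1 this⟩, rfl⟩
    · rintro ⟨⟨y, hy⟩, rfl⟩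
      exact Subtype.ext ((hex 1 y).2 hy)
  have hr : Exact (LinearMap.rTensor M (d 3)) (LinearMap.rTensor M (d 2).rangeRestrict) := by
    refine rTensor_exact M ?_ (LinearMap.surjective_rangeRestrict _)
    intro y
    constructor
    · intro hy
      exact (hex 2 y).1 (congrArg Subtype.val hy)
    · intro hy
      exact Subtype.ext ((hex 2 y).2 hy)
  have hfac : LinearMap.rTensor M (d 2) =
      LinearMap.rTensor M K2.subtype ∘ₗ LinearMap.rTensor M (d 2).rangeRestrict := by
    rw [← LinearMap.rTensor_comp]
    rfl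
  intro z
  rw [hfac, LinearMap.comp_apply]
  constructor
  · intro hz
    exact (hr z).1 (hinj (by rw [hz, map_zero]))
  · intro hz
    rw [(hr z).2 hz, map_zero]

end Base

section Shift

variable {R : Type*} [CommRing R] {K F M : Type*} [AddCommGroup K] [Module R K]
  [AddCommGroup F] [Module R F] [AddCommGroup M] [Module R M]
variable {P : ℕ → Type*} [∀ i, AddCommGroup (P i)] [∀ i, Module R (P i)]
  [∀ i, Module.Flat R (P (i + 1))]
variable (d : ∀ i, P (i + 1) →ₗ[R] P i) (hex : ∀ i, Exact (d (i + 1)) (d i))
variable (ι : K →ₗ[R] F) (π : F →ₗ[R] M) (hι : Injective ι) (hπ : Surjective π)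
  (hιπ : Exact ι π) [Module.Flat R F]

include hex

theorem dd_zero (E : Type*) [AddCommGroup E] [Module R E] (i : ℕ) (x : P (i + 1 + 1) ⊗[R] E) :
    LinearMap.rTensor E (d i) (LinearMap.rTensor E (d (i + 1)) x) = 0 := by
  rw [← LinearMap.comp_apply, ← LinearMap.rTensor_comp, (hex i).linearMap_comp_eq_zero,
      LinearMap.rTensor_zero, LinearMap.zero_apply]

include hι hπ hιπ

theorem shift_down (i : ℕ) (hE : ExactAt R M d (i + 2)) : ExactAt R K d (i + 1) := by
  have hF : ExactAt R F d (i + 1) := Module.Flat.rTensor_exact F (hex (i + 1))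
  intro z
  constructor
  · intro hz
    -- `w = ι z`
    have h1 : LinearMap.rTensor F (d (i + 1)) (LinearMap.lTensor _ ι z) = 0 := by
      rw [← LinearMap.comp_apply, LinearMap.rTensor_comp_lTensor,
        ← LinearMap.lTensor_comp_rTensor, LinearMap.comp_apply, hz, map_zero]
    obtain ⟨v, hv⟩ := (hF _).1 h1
    have h2 : LinearMap.rTensor M (d (i + 1 + 1)) (LinearMap.lTensor _ π v) = 0 := by
      rw [← LinearMap.comp_apply, LinearMap.rTensor_comp_lTensor,
        ← LinearMap.lTensor_comp_rTensor, LinearMap.comp_apply, hv, ← LinearMap.comp_apply,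
        ← LinearMap.lTensor_comp, hιπ.linearMap_comp_eq_zero, LinearMap.lTensor_zero,
        LinearMap.zero_apply]
    obtain ⟨u, hu⟩ := (hE _).1 h2
    obtain ⟨u', rfl⟩ := LinearMap.lTensor_surjective _ hπ u
    have h3 : LinearMap.lTensor _ π (v - LinearMap.rTensor F (d (i + 1 + 1 + 1)) u') = 0 := by
      rw [map_sub, sub_eq_zero, ← hu, ← LinearMap.comp_apply, ← LinearMap.comp_apply,
        LinearMap.rTensor_comp_lTensor, LinearMap.lTensor_comp_rTensor]
    obtain ⟨y, hy⟩ := ((lTensor_exact _ hιπ hπ) _).1 h3
    refine ⟨y, ?_⟩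
    apply Module.Flat.lTensor_preserves_injective_linearMap (M := P (i + 1 + 1)) ι hι
    rw [← hv, ← LinearMap.comp_apply, LinearMap.lTensor_comp_rTensor,
      ← LinearMap.rTensor_comp_lTensor, LinearMap.comp_apply, hy, map_sub,
      dd_zero d hex F (i + 1 + 1), sub_zero]
  · rintro ⟨x, rfl⟩
    exact dd_zero d hex K (i + 1) x

theorem shift_up (i : ℕ) (hE : ExactAt R K d (i + 1)) : ExactAt R M d (i + 2) := by
  have hF : ExactAt R F d (i + 2) := Module.Flat.rTensor_exact F (hex (i + 2))
  intro u
  constructor
  · intro hu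
    obtain ⟨u', rfl⟩ := LinearMap.lTensor_surjective _ hπ u
    have h1 : LinearMap.lTensor _ π (LinearMap.rTensor F (d (i + 2)) u') = 0 := by
      rw [← LinearMap.comp_apply, LinearMap.lTensor_comp_rTensor,
        ← LinearMap.rTensor_comp_lTensor, LinearMap.comp_apply, hu]
    obtain ⟨z, hz⟩ := ((lTensor_exact _ hιπ hπ) _).1 h1
    have h2 : LinearMap.rTensor K (d (i + 1)) z = 0 := by
      apply Module.Flat.lTensor_preserves_injective_linearMap (M := P (i + 1)) ι hι
      rw [map_zero, ← LinearMap.comp_apply, LinearMap.lTensor_comp_rTensor,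
        ← LinearMap.rTensor_comp_lTensor, LinearMap.comp_apply, hz, dd_zero d hex F (i + 1)]
    obtain ⟨y, rfl⟩ := (hE z).1 h2
    have h3 : LinearMap.rTensor F (d (i + 2)) (u' - LinearMap.lTensor _ ι y) = 0 := by
      rw [map_sub, sub_eq_zero, ← hz, ← LinearMap.comp_apply, ← LinearMap.comp_apply,
        LinearMap.rTensor_comp_lTensor, LinearMap.lTensor_comp_rTensor]
    obtain ⟨v, hv⟩ := (hF _).1 h3
    refine ⟨LinearMap.lTensor _ π v, ?_⟩
    rw [← LinearMap.comp_apply, LinearMap.rTensor_comp_lTensor,
      ← LinearMap.lTensor_comp_rTensor, LinearMap.comp_apply, hv, map_sub,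
      ← LinearMap.comp_apply (LinearMap.lTensor _ π) (LinearMap.lTensor _ ι),
      ← LinearMap.lTensor_comp, hιπ.linearMap_comp_eq_zero, LinearMap.lTensor_zero,
      LinearMap.zero_apply, sub_zero]
  · rintro ⟨x, rfl⟩
    exact dd_zero d hex M (i + 2) x

end Shift

end Pool.Agent.H578R3.TorRigid
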