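import Mathlib
import Pool.Agent.H578R3.TorShift

set_option autoImplicit false

/-! Comparison with Mathlib's `Tor`. -/

namespace Pool.Agent.H578R3.TorRigid

open Function TensorProduct CategoryTheory CategoryTheory.Limits MonoidalCategory

universe u

set_option linter.unusedSectionVars false
set_option linter.style.haveILetI false

theorem exact_comm {R : Type*} [CommRing R] (M : Type*) [AddCommGroup M] [Module R M]
    {A B C : Type*} [AddCommGroup A] [Module R A] [AddCommGroup B] [Module R B] [AddCommGroup C]
    [Module R C] (f : A →ₗ[R] B) (g : B →ₗ[R] C) :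
    Exact (LinearMap.lTensor M f) (LinearMap.lTensor M g) ↔
      Exact (LinearMap.rTensor M f) (LinearMap.rTensor M g) := by
  constructor
  · intro h z
    constructor
    · intro hz
      have h1 : LinearMap.lTensor M g (TensorProduct.comm R B M z) = 0 := by
        rw [LinearMap.lTensor_comm, hz, map_zero]
      obtain ⟨w, hw⟩ := (h _).1 h1
      refine ⟨TensorProduct.comm R M A w, ?_⟩
      rw [LinearMap.rTensor_comm, hw, TensorProduct.comm_comm]
    · rintro ⟨w, rfl⟩
      apply (TensorProduct.comm R C M).injective
      rw [map_zero, ← LinearMap.lTensor_comm, ← LinearMap.lTensor_comm]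
      exact h.apply_apply_eq_zero _
  · intro h z
    constructor
    · intro hz
      have h1 : LinearMap.rTensor M g (TensorProduct.comm R M B z) = 0 := by
        rw [LinearMap.rTensor_comm, hz, map_zero]
      obtain ⟨w, hw⟩ := (h _).1 h1
      refine ⟨TensorProduct.comm R A M w, ?_⟩
      rw [LinearMap.lTensor_comm, hw, TensorProduct.comm_comm]
    · rintro ⟨w, rfl⟩
      apply (TensorProduct.comm R M C).injective
      rw [map_zero, ← LinearMap.rTensor_comm, ← LinearMap.rTensor_comm]
      exact h.apply_apply_eq_zero _

section

variable {R : Type u} [CommRing R] (N : Type u) [AddCommGroup N] [Module R N]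

/-- The chosen projective resolution. -/
noncomputable def res : ProjectiveResolution (ModuleCat.of R N) :=
  projectiveResolution (ModuleCat.of R N)

/-- The augmented resolution. -/
def PP (Q : ProjectiveResolution (ModuleCat.of R N)) : ℕ → Type u
  | 0 => N
  | (i + 1) => Q.complex.X i

variable (Q : ProjectiveResolution (ModuleCat.of R N))

noncomputable instance instPPgroup : ∀ i, AddCommGroup (PP N Q i)
  | 0 => inferInstanceAs (AddCommGroup N)
  | (i + 1) => inferInstanceAs (AddCommGroup (Q.complex.X i))

noncomputable instance instPPmodule : ∀ i, Module R (PP N Q i)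
  | 0 => inferInstanceAs (Module R N)
  | (i + 1) => inferInstanceAs (Module R (Q.complex.X i))

/-- The augmentation map. -/
noncomputable def augm : Q.complex.X 0 ⟶ ModuleCat.of R N := Q.π.f 0 

/-- The differentials. -/
noncomputable def dd : ∀ i, PP N Q (i + 1) →ₗ[R] PP N Q i
  | 0 => (augm N Q).hom
  | (i + 1) => (Q.complex.d (i + 1) i).hom

theorem dd_surj : Surjective (dd N Q 0) := by
  have h : Epi (Q.π.f 0) := by infer_instance
  have : Epi (augm N Q) := h
  exact (ModuleCat.epi_iff_surjective _).1 this

theorem dd_exact : ∀ i, Exact (dd N Q (i + 1)) (dd N Q i)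
  | 0 => by
    have h := Q.exact₀
    rw [ShortComplex.ShortExact.moduleCat_exact_iff_function_exact] at h
    exact h
  | (i + 1) => by
    have h := Q.exact_succ i
    rw [ShortComplex.ShortExact.moduleCat_exact_iff_function_exact] at h
    exact h

instance dd_proj : ∀ i, Module.Projective R (PP N Q (i + 1)) := fun i => by
  have : Projective (Q.complex.X i) := Q.projective i
  exact (IsProjective.iff_projective (R := R) (Q.complex.X i)).2 this

variable (M : Type u) [AddCommGroup M] [Module R M]

theorem tor_isZero_iff (i : ℕ) :
    IsZero (((Tor (ModuleCat.{u} R) (i + 1)).obj (ModuleCat.of R M)).obj (ModuleCat.of R N)) ↔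
      ExactAt R M (dd N Q) (i + 1) := by
  have e := Q.isoLeftDerivedObj ((tensoringLeft (ModuleCat.{u} R)).obj (ModuleCat.of R M)) (i + 1)
  have h1 : IsZero (((Tor (ModuleCat.{u} R) (i + 1)).obj (ModuleCat.of R M)).obj
      (ModuleCat.of R N)) ↔ IsZero ((HomologicalComplex.homologyFunctor (ModuleCat.{u} R) _ (i + 1)).obj
      ((((tensoringLeft (ModuleCat.{u} R)).obj (ModuleCat.of R M)).mapHomologicalComplex _).obj
        Q.complex)) := e.isZero_iff
  rw [h1]
  change IsZero (HomologicalComplex.homology _ (i + 1)) ↔ _
  rw [← HomologicalComplex.exactAt_iff_isZero_homology,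
    HomologicalComplex.exactAt_iff' _ (i + 1 + 1) (i + 1) i (by simp) (by simp),
    ShortComplex.ShortExact.moduleCat_exact_iff_function_exact]
  change Exact (LinearMap.lTensor M (dd N Q (i + 1 + 1))) (LinearMap.lTensor M (dd N Q (i + 1))) ↔
    Exact (LinearMap.rTensor M (dd N Q (i + 1 + 1))) (LinearMap.rTensor M (dd N Q (i + 1)))
  exact exact_comm M _ _

end

end Pool.Agent.H578R3.TorRigid
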