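import Mathlib
import Pool.Agent.H578R3.TorShift

set_option autoImplicit false

/-! Towers of monogenic extensions. -/

namespace Pool.Agent.H578R3.TorRigid

open Function TensorProduct Polynomial

universe u

set_option linter.unusedSectionVars false
set_option linter.style.haveILetI false

variable {R : Type u} [CommRing R]

/-- `B = A[x]` for a root `x` of a monic polynomial `p` over `A` with `A[X]/(p) ≅ A[x]`, where `x`
lies in the maximal ideal of the local ring `R`. -/
def MonoStep (R : Type u) [CommRing R] [IsLocalRing R] (A B : Subring R) : Prop :=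
  ∃ (x : R) (p : Polynomial A), x ∈ IsLocalRing.maximalIdeal R ∧ p.Monic ∧
    (∀ b : R, b ∈ B ↔ ∃ q : Polynomial A, Polynomial.aeval x q = b) ∧
    (∀ q : Polynomial A, Polynomial.aeval x q = 0 ↔ p ∣ q)

theorem MonoStep.le [IsLocalRing R] {A B : Subring R} (h : MonoStep R A B) : A ≤ B := by
  obtain ⟨x, p, -, -, hB, -⟩ := h
  intro a ha
  exact (hB a).2 ⟨Polynomial.C ⟨a, ha⟩, by rw [Polynomial.aeval_C]; rfl⟩

theorem proj_trans (A B Q : Type*) [CommRing A] [CommRing B] [Algebra A B] [Module.Free A B]
    [AddCommGroup Q] [Module B Q] [Module A Q] [IsScalarTower A B Q] [Module.Projective B Q] :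
    Module.Projective A Q := by
  obtain ⟨i, hi⟩ := Module.projective_lifting_property
    (Finsupp.linearCombination B (id : Q → Q)) (LinearMap.id : Q →ₗ[B] Q)
    (Finsupp.linearCombination_id_surjective B Q)
  refine Module.Projective.of_split (R := A) (i.restrictScalars A)
    ((Finsupp.linearCombination B (id : Q → Q)).restrictScalars A) ?_
  apply LinearMap.ext
  intro x
  exact LinearMap.congr_fun hi x

theorem proj_trans' (A B Q : Type*) [CommRing A] [CommRing B] [Algebra A B]
    [Module.Projective A B]
    [AddCommGroup Q] [Module B Q] [Module A Q] [IsScalarTower A B Q] [Module.Projective B Q] :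
    Module.Projective A Q := by
  classical
  haveI : Module.Projective A (Q →₀ B) :=
    Module.Projective.of_equiv (finsuppLequivDFinsupp (M := B) (ι := Q) A).symm
  obtain ⟨i, hi⟩ := Module.projective_lifting_property
    (Finsupp.linearCombination B (id : Q → Q)) (LinearMap.id : Q →ₗ[B] Q)
    (Finsupp.linearCombination_id_surjective B Q)
  refine Module.Projective.of_split (R := A) (i.restrictScalars A)
    ((Finsupp.linearCombination B (id : Q → Q)).restrictScalars A) ?_
  apply LinearMap.ext
  intro x
  exact LinearMap.congr_fun hi x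

section

variable [IsLocalRing R] {A B : Subring R} (hAB : A ≤ B)

/-- The algebra structure of a larger subring over a smaller one. -/
@[reducible] def algSub (hAB : A ≤ B) : Algebra A B := (Subring.inclusion hAB).toAlgebra

theorem towerSub (hAB : A ≤ B) (M : Type*) [AddCommGroup M] [Module R M] :
    letI := algSub hAB
    IsScalarTower A B M :=
  letI := algSub hAB
  ⟨fun a b m => by
    change ((a : R) * (b : R)) • m = (a : R) • (b : R) • m
    exact mul_smul _ _ _⟩

theorem exists_adjoin (hAB : A ≤ B) (x : R) (p : Polynomial A) (hp : p.Monic)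
    (hB : ∀ b : R, b ∈ B ↔ ∃ q : Polynomial A, Polynomial.aeval x q = b)
    (hker : ∀ q : Polynomial A, Polynomial.aeval x q = 0 ↔ p ∣ q) :
    letI := algSub hAB
    ∃ h : IsAdjoinRootMonic B p, (h.root : R) = x := by
  letI := algSub hAB
  haveI := towerSub hAB R
  have hx : x ∈ B := (hB x).2 ⟨Polynomial.X, Polynomial.aeval_X x⟩
  have hcoe : ∀ q : Polynomial A, ((Polynomial.aeval (⟨x, hx⟩ : B) q : B) : R) =
      Polynomial.aeval x q := by
    intro q
    induction q using Polynomial.induction_on' with
    | add q r hq hr => rw [map_add, map_add, ← hq, ← hr]; rfl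
    | monomial i a =>
      rw [Polynomial.aeval_monomial, Polynomial.aeval_monomial]
      rfl
  refine ⟨{ map := Polynomial.aeval (⟨x, hx⟩ : B)
            map_surjective := ?_
            ker_map := ?_
            monic := hp }, ?_⟩
  · rintro ⟨b, hb⟩
    obtain ⟨q, hq⟩ := (hB b).1 hb
    exact ⟨q, Subtype.ext (by rw [hcoe, hq])⟩
  · ext q
    rw [Ideal.mem_span_singleton, ← hker, RingHom.mem_ker]
    constructor
    · intro hq
      rw [← hcoe]
      exact congrArg Subtype.val hq
    · intro hq
      exact Subtype.ext (by
        have := hcoe q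
        rw [hq] at this
        exact this)
  · change ((Polynomial.aeval (⟨x, hx⟩ : B) (Polynomial.X : Polynomial A) : B) : R) = x
    rw [hcoe, Polynomial.aeval_X]

end

section Chain

variable [IsLocalRing R]
variable {P : ℕ → Type u} [∀ i, AddCommGroup (P i)] [∀ i, Module R (P i)]
variable (d : ∀ i, P (i + 1) →ₗ[R] P i)

/-- Tor₁ vanishing implies Tor₂ vanishing, over the subring `A`. -/
def Rig (A : Subring R) : Prop :=
  ∀ (M : Type u) [AddCommGroup M] [Module R M] [Module.Finite R M],
    ExactAt A M (fun i => (d i).restrictScalars A) 1 →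
    ExactAt A M (fun i => (d i).restrictScalars A) 2

variable (V : Subring R)

theorem chain (hsurj : Surjective (d 0)) (hex : ∀ i, Exact (d (i + 1)) (d i))
    [∀ i, Module.Projective R (P (i + 1))] [IsArtinian V (P 0)] [IsNoetherian V (P 0)]
    (hN : ∀ x ∈ IsLocalRing.maximalIdeal R, ∃ j, ∀ n : P 0, x ^ j • n = 0)
    (a : V) (ha : ∀ n : P 0, a • n = 0)
    (hnil : ∀ x ∈ IsLocalRing.maximalIdeal R, ∃ (q : ℕ) (r : R), x ^ q = a * r)
    (B : Subring R) (hchain : Relation.ReflTransGen (MonoStep R) B ⊤) (hVB : V ≤ B) :
    Module.Projective B R ∧ Module.Finite B R ∧ (Rig d B → Rig d (⊤ : Subring R)) := by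
  induction hchain using Relation.ReflTransGen.head_induction_on with
  | refl =>
    refine ⟨?_, ?_, fun h => h⟩
    · let e : (⊤ : Subring R) ≃ₗ[(⊤ : Subring R)] R :=
        { toFun := fun r => (r : R)
          map_add' := fun _ _ => rfl
          map_smul' := fun _ _ => rfl
          invFun := fun r => ⟨r, trivial⟩
          left_inv := fun _ => rfl
          right_inv := fun _ => rfl }
      exact Module.Projective.of_equiv e
    · let e : (⊤ : Subring R) ≃ₗ[(⊤ : Subring R)] R :=
        { toFun := fun r => (r : R)
          map_add' := fun _ _ => rfl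
          map_smul' := fun _ _ => rfl
          invFun := fun r => ⟨r, trivial⟩
          left_inv := fun _ => rfl
          right_inv := fun _ => rfl }
      exact Module.Finite.equiv e
  | @head A B hstep hrest ih =>
    have hAB : A ≤ B := hstep.le
    obtain ⟨ihproj, ihfin, ihrig⟩ := ih (hVB.trans hAB)
    obtain ⟨x, p, hxm, hp, hB, hker⟩ := hstep
    letI := algSub hAB
    obtain ⟨h, hroot⟩ := exists_adjoin hAB x p hp hB hker
    haveI : IsScalarTower A B R := towerSub hAB R
    have hfreeAB : Module.Free A B := Module.Free.of_basis h.basis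
    have hfinAB : Module.Finite A B := h.finite
    have hfinAR : Module.Finite A R := Module.Finite.trans B R
    have hprojAR : Module.Projective A R := by
      exact proj_trans A B R
    refine ⟨hprojAR, hfinAR, fun hA => ihrig ?_⟩
    intro M _ _ _ hE1
    haveI : IsScalarTower A B M := towerSub hAB M
    haveI : ∀ i, IsScalarTower A B (P i) := fun i => towerSub hAB (P i)
    haveI : Module.Finite A M := Module.Finite.trans R M
    haveI : ∀ i, Module.Projective B (P (i + 1)) := fun i => proj_trans' B R (P (i + 1))
    letI : Algebra V B := algSub (hVB.trans hAB)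
    haveI : IsScalarTower V B (P 0) := towerSub (hVB.trans hAB) (P 0)
    haveI : IsArtinian B (P 0) := isArtinian_of_tower V inferInstance
    haveI : IsNoetherian B (P 0) := isNoetherian_of_tower V inferInstance
    obtain ⟨j, hj⟩ := hN x hxm
    obtain ⟨q, r, hq⟩ := hnil x hxm
    let U : M →ₗ[A] M :=
      { toFun := fun m => r • m
        map_add' := smul_add r
        map_smul' := fun a m => by
          change r • (a : R) • m = (a : R) • r • m
          exact smul_comm _ _ _ }
    have hex' : ∀ i, Exact ((d (i + 1)).restrictScalars B) ((d i).restrictScalars B) := hex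
    have hs : ExactAt B (B ⊗[A] M) (fun i => (d i).restrictScalars B) 1 := by
      refine step1 M h hsurj hex' j q ?_ ⟨a, hVB a.2⟩ U ?_ ?_ hE1
      · intro n
        change ((h.root ^ j : B) : R) • n = 0
        rw [SubmonoidClass.coe_pow, hroot]
        exact hj n
      · intro m
        change ((h.root ^ q : B) : R) • m = (a : R) • r • m
        rw [SubmonoidClass.coe_pow, hroot, hq, mul_smul]
      · intro n
        exact ha n
    have hs1 := (exactAt_baseChange M (fun i => (d i).restrictScalars B) 1).1 hs
    have hs2 := hA M hs1
    have hs3 := (exactAt_baseChange M (fun i => (d i).restrictScalars B) 2).2 hs2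
    exact step2 M h hsurj hex' hE1 hs hs3

end Chain

end Pool.Agent.H578R3.TorRigid
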