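import Mathlib
import Pool.Agent.H578R3.TorTower

set_option autoImplicit false

/-! Finiteness facts. -/

namespace Pool.Agent.H578R3.TorRigid

open Function TensorProduct Polynomial

universe u

set_option linter.unusedSectionVars false
set_option linter.style.haveILetI false

section Nil

variable {R : Type u} [CommRing R] [IsLocalRing R]

theorem nilp_on (N : Type*) [AddCommGroup N] [Module R N] [IsArtinian R N] [IsNoetherian R N]
    (x : R) (hx : x ∈ IsLocalRing.maximalIdeal R) : ∃ j, ∀ n : N, x ^ j • n = 0 := by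
  obtain ⟨j, hj⟩ := IsArtinian.range_smul_pow_stabilizes N x
  refine ⟨j, ?_⟩
  have h1 := hj (j + 1) (Nat.le_succ j)
  have hbot : LinearMap.range (x ^ j • (LinearMap.id : N →ₗ[R] N)) = ⊥ := by
    refine Submodule.eq_bot_of_le_smul_of_le_jacobson_bot (IsLocalRing.maximalIdeal R) _
      (IsNoetherian.noetherian _) ?_ (IsLocalRing.maximalIdeal_le_jacobson _)
    intro y hy
    rw [h1] at hy
    obtain ⟨z, rfl⟩ := hy
    have : (x ^ (j + 1) • (LinearMap.id : N →ₗ[R] N)) z =
        x • ((x ^ j • (LinearMap.id : N →ₗ[R] N)) z) := by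
      simp only [LinearMap.smul_apply, LinearMap.id_apply]
      rw [pow_succ', mul_smul]
    rw [this]
    exact Submodule.smul_mem_smul hx ⟨z, rfl⟩
  intro n
  have : (x ^ j • (LinearMap.id : N →ₗ[R] N)) n ∈
      LinearMap.range (x ^ j • (LinearMap.id : N →ₗ[R] N)) := ⟨n, rfl⟩
  rw [hbot] at this
  exact this

theorem artinian_quot {V : Type*} [CommRing V] [IsDedekindDomain V] (I : Ideal V)
    (h : I ≠ ⊥ ∨ IsField V) : IsArtinianRing (V ⧸ I) := by
  rw [isArtinianRing_iff_krullDimLE_zero]
  refine Ring.KrullDimLE.mk₀ fun J hJ => ?_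
  have hJ' : (J.comap (Ideal.Quotient.mk I)).IsPrime := inferInstance
  have hmax : (J.comap (Ideal.Quotient.mk I)).IsMaximal := by
    by_cases hb : J.comap (Ideal.Quotient.mk I) = ⊥
    · rcases h with h | h
      · exfalso
        apply h
        rw [eq_bot_iff, ← hb]
        intro y hy
        rw [Ideal.mem_comap, Ideal.Quotient.eq_zero_iff_mem.2 hy]
        exact J.zero_mem
      · rw [hb]
        letI := h.toField
        exact Ideal.bot_isMaximal
    · exact Ring.DimensionLEOne.maximalOfPrime hb hJ'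
  have := Ideal.map_eq_top_or_isMaximal_of_surjective (Ideal.Quotient.mk I)
    Ideal.Quotient.mk_surjective hmax
  rw [Ideal.map_comap_of_surjective _ Ideal.Quotient.mk_surjective] at this
  rcases this with h' | h'
  · exact absurd h' hJ.ne_top
  · exact h'

theorem artinian_of_killed (V N : Type*) [CommRing V] [AddCommGroup N] [Module V N]
    [Module.Finite V N] (a : V) (ha : ∀ n : N, a • n = 0)
    [IsArtinianRing (V ⧸ Ideal.span {a})] : IsArtinian V N := by
  have hT : Module.IsTorsionBySet V N (Ideal.span {a} : Ideal V) := by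
    rintro n ⟨b, hb⟩
    obtain ⟨c, rfl⟩ := Ideal.mem_span_singleton'.1 hb
    change (c * a) • n = 0
    rw [mul_smul, ha, smul_zero]
  letI : Module (V ⧸ Ideal.span {a}) N := Module.IsTorsionBySet.module hT
  haveI : IsScalarTower V (V ⧸ Ideal.span {a}) N := hT.isScalarTower
  haveI : Module.Finite (V ⧸ Ideal.span {a}) N :=
    Module.Finite.of_restrictScalars_finite V (V ⧸ Ideal.span {a}) N
  haveI : IsArtinian (V ⧸ Ideal.span {a}) N := inferInstance
  exact isArtinian_of_surjective_algebraMap (R := V ⧸ Ideal.span {a}) Ideal.Quotient.mk_surjective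

/-- The element `a` of the base ring. -/
theorem exists_a (V : Subring R) [IsDedekindDomain V] [Module.Finite V R]
    (N : Type*) [AddCommGroup N] [Module R N] [IsArtinian R N] [IsNoetherian R N] :
    ∃ a : V, (∀ n : N, a • n = 0) ∧ IsArtinianRing (V ⧸ Ideal.span {a}) := by
  by_cases hf : IsField V
  · exact ⟨0, fun n => zero_smul _ n, artinian_quot _ (Or.inr hf)⟩
  · obtain ⟨v, hv0, hvu⟩ := Ring.exists_not_isUnit_of_not_isField hf
    haveI : FaithfulSMul V R := (faithfulSMul_iff_algebraMap_injective V R).2 Subtype.val_injective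
    haveI : Algebra.IsIntegral V R := Algebra.IsIntegral.of_finite V R
    have hloc : IsLocalHom (algebraMap V R) := inferInstance
    have hvm : (v : R) ∈ IsLocalRing.maximalIdeal R := by
      rw [IsLocalRing.mem_maximalIdeal, mem_nonunits_iff]
      intro hu
      exact hvu (hloc.map_nonunit v hu)
    obtain ⟨j, hj⟩ := nilp_on N (v : R) hvm
    refine ⟨v ^ j, fun n => ?_, artinian_quot _ (Or.inl ?_)⟩
    · change ((v ^ j : V) : R) • n = 0
      rw [SubmonoidClass.coe_pow]
      exact hj n
    · rw [Ne, Ideal.span_singleton_eq_bot]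
      exact pow_ne_zero j hv0

theorem nil_mod (V : Subring R) [Module.Finite V R] (a : V)
    [IsArtinianRing (V ⧸ Ideal.span {a})] (x : R) (hx : x ∈ IsLocalRing.maximalIdeal R) :
    ∃ (q : ℕ) (r : R), x ^ q = a * r := by
  let I : Ideal R := (Ideal.span {a}).map (algebraMap V R)
  haveI : Module.Finite V (R ⧸ I) := Module.Finite.trans R (R ⧸ I)
  haveI : Module.Finite (V ⧸ Ideal.span {a}) (R ⧸ I) :=
    Module.Finite.of_restrictScalars_finite V (V ⧸ Ideal.span {a}) (R ⧸ I)
  haveI : IsArtinianRing (R ⧸ I) := IsArtinianRing.of_finite (V ⧸ Ideal.span {a}) (R ⧸ I)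
  obtain ⟨q, hq⟩ := IsLocalRing.exists_maximalIdeal_pow_le_of_isArtinianRing_quotient I
  have h1 : x ^ q ∈ I := hq (Ideal.pow_mem_pow hx q)
  have hI : I = Ideal.span {(a : R)} := by
    change (Ideal.span {a}).map (algebraMap V R) = _
    rw [Ideal.map_span, Set.image_singleton]
    rfl
  rw [hI] at h1
  obtain ⟨r, hr⟩ := Ideal.mem_span_singleton'.1 h1
  exact ⟨q, r, by rw [← hr, mul_comm]⟩

end Nil

end Pool.Agent.H578R3.TorRigid
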