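import Mathlib
import Pool.Agent.H578R3.TorNil
import Pool.Agent.H578R3.TorBridge

set_option autoImplicit false

/-! Tor-rigidity over towers of monogenic extensions. -/

namespace Pool.Agent.H578R3.TorRigid

open Function TensorProduct CategoryTheory CategoryTheory.Limits

universe u

set_option linter.unusedSectionVars false
set_option linter.style.haveILetI false

/-- The pair `(M, N)` of `R`-modules is Tor-rigid: if `Tor_i(M, N) = 0` for some `i > 0` then
`Tor_j(M, N) = 0` for all `j ≥ i`. -/
def IsTorRigid (R : Type u) [CommRing R] (M N : Type u) [AddCommGroup M] [Module R M]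
    [AddCommGroup N] [Module R N] : Prop :=
  ∀ i : ℕ, 0 < i →
    IsZero (((Tor (ModuleCat.{u} R) i).obj (ModuleCat.of R M)).obj (ModuleCat.of R N)) →
    ∀ j : ℕ, i ≤ j →
      IsZero (((Tor (ModuleCat.{u} R) j).obj (ModuleCat.of R M)).obj (ModuleCat.of R N))

section Top

variable {R : Type u} [CommRing R]

theorem exactAt_congr {P : ℕ → Type*} [∀ i, AddCommGroup (P i)] [∀ i, Module R (P i)]
    (d : ∀ i, P (i + 1) →ₗ[R] P i) {M M' : Type*} [AddCommGroup M] [Module R M]
    [AddCommGroup M'] [Module R M'] (e : M ≃ₗ[R] M') (i : ℕ) (h : ExactAt R M d i) :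
    ExactAt R M' d i := by
  have hc : ∀ (j : ℕ) (z : P (j + 1) ⊗[R] M), LinearEquiv.lTensor (P j) e
      (LinearMap.rTensor M (d j) z) = LinearMap.rTensor M' (d j)
        (LinearEquiv.lTensor (P (j + 1)) e z) := by
    intro j z
    induction z using TensorProduct.induction_on with
    | zero => simp
    | tmul x y => rfl
    | add a b ha hb => rw [map_add, map_add, map_add, map_add, ha, hb]
  intro y
  obtain ⟨z, rfl⟩ := (LinearEquiv.lTensor (P (i + 1)) e).surjective y
  constructor
  · intro hy
    rw [← hc] at hy
    have hz : LinearMap.rTensor M (d i) z = 0 :=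
      (LinearEquiv.lTensor (P i) e).injective (by rw [hy, map_zero])
    obtain ⟨w, rfl⟩ := (h z).1 hz
    exact ⟨LinearEquiv.lTensor (P (i + 1 + 1)) e w, (hc (i + 1) w).symm⟩
  · rintro ⟨w, hw⟩
    obtain ⟨w, rfl⟩ := (LinearEquiv.lTensor (P (i + 1 + 1)) e).surjective w
    rw [← hw, ← hc (i + 1), ← hc i, h.apply_apply_eq_zero, map_zero]

theorem exactAt_top {P : ℕ → Type u} [∀ i, AddCommGroup (P i)] [∀ i, Module R (P i)]
    (d : ∀ i, P (i + 1) →ₗ[R] P i) (M : Type u) [AddCommGroup M] [Module R M] (i : ℕ) :
    ExactAt R M d i ↔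
      ExactAt (⊤ : Subring R) M (fun i => (d i).restrictScalars (⊤ : Subring R)) i := by
  rw [← exactAt_baseChange (A := (⊤ : Subring R)) (B := R) M d i]
  let e : M ≃ₗ[R] R ⊗[(⊤ : Subring R)] M :=
    LinearEquiv.symm
      { (eE (A := (⊤ : Subring R)) (B := R) M) with
        invFun := fun m => 1 ⊗ₜ m
        left_inv := by
          intro w
          change (1 : R) ⊗ₜ[(⊤ : Subring R)] (eE (A := (⊤ : Subring R)) (B := R) M w) = w
          induction w using TensorProduct.induction_on with
          | zero => rw [map_zero, TensorProduct.tmul_zero]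
          | tmul b m =>
            rw [eE_tmul]
            have h1 : b • m = (⟨b, trivial⟩ : (⊤ : Subring R)) • m := rfl
            have h2 : b ⊗ₜ[(⊤ : Subring R)] m =
                ((⟨b, trivial⟩ : (⊤ : Subring R)) • (1 : R)) ⊗ₜ[(⊤ : Subring R)] m := by
              congr 1
              change b = b * 1
              rw [mul_one]
            rw [h1, h2, TensorProduct.smul_tmul]
          | add a b ha hb => rw [map_add, TensorProduct.tmul_add, ha, hb]
        right_inv := by
          intro m
          change eE (A := (⊤ : Subring R)) (B := R) M ((1 : R) ⊗ₜ m) = m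
          rw [eE_tmul, one_smul] }
  exact ⟨exactAt_congr d e i, exactAt_congr d e.symm i⟩

end Top

section Main

variable {R : Type u} [CommRing R] [IsLocalRing R]

theorem chain_finite (B : Subring R) (hchain : Relation.ReflTransGen (MonoStep R) B ⊤) :
    Module.Projective B R ∧ Module.Finite B R := by
  induction hchain using Relation.ReflTransGen.head_induction_on with
  | refl =>
    let e : (⊤ : Subring R) ≃ₗ[(⊤ : Subring R)] R :=
        { toFun := fun r => (r : R)
          map_add' := fun _ _ => rfl
          map_smul' := fun _ _ => rfl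
          invFun := fun r => ⟨r, trivial⟩
          left_inv := fun _ => rfl
          right_inv := fun _ => rfl }
    exact ⟨Module.Projective.of_equiv e, Module.Finite.equiv e⟩
  | @head A B hstep hrest ih =>
    have hAB : A ≤ B := hstep.le
    obtain ⟨ihproj, ihfin⟩ := ih
    obtain ⟨x, p, hxm, hp, hB, hker⟩ := hstep
    letI := algSub hAB
    obtain ⟨h, hroot⟩ := exists_adjoin hAB x p hp hB hker
    haveI : IsScalarTower A B R := towerSub hAB R
    have hfreeAB : Module.Free A B := Module.Free.of_basis h.basis
    have hfinAB : Module.Finite A B := h.finite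
    exact ⟨proj_trans A B R, Module.Finite.trans B R⟩

theorem rig_succ {P : ℕ → Type u} [∀ i, AddCommGroup (P i)] [∀ i, Module R (P i)]
    [IsNoetherianRing R] [∀ i, Module.Flat R (P (i + 1))]
    (d : ∀ i, P (i + 1) →ₗ[R] P i) (hex : ∀ i, Exact (d (i + 1)) (d i))
    (h : ∀ (M : Type u) [AddCommGroup M] [Module R M] [Module.Finite R M],
      ExactAt R M d 1 → ExactAt R M d 2) (i : ℕ) :
    ∀ (M : Type u) [AddCommGroup M] [Module R M] [Module.Finite R M],
      ExactAt R M d (i + 1) → ExactAt R M d (i + 2) := by
  induction i with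
  | zero => exact h
  | succ i ih =>
    intro M _ _ _ hE
    obtain ⟨k, f, hf⟩ := Module.Finite.exists_fin' R M
    have hK : Exact (LinearMap.ker f).subtype f := LinearMap.exact_subtype_ker_map f
    have h1 : ExactAt R (LinearMap.ker f) d (i + 1) :=
      shift_down d hex (LinearMap.ker f).subtype f (Submodule.subtype_injective _) hf hK i hE
    have h2 := ih (LinearMap.ker f) h1
    exact shift_up d hex (LinearMap.ker f).subtype f (Submodule.subtype_injective _) hf hK
      (i + 1) h2

/-- **Main theorem.** -/
theorem torRigid (V : Subring R) [IsDedekindDomain V]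
    (hV : Relation.ReflTransGen (MonoStep R) V ⊤)
    (M N : Type u) [AddCommGroup M] [Module R M] [Module.Finite R M]
    [AddCommGroup N] [Module R N] (hN : IsFiniteLength R N) : IsTorRigid R M N := by
  obtain ⟨hproj, hfin⟩ := chain_finite V hV
  obtain ⟨hN1, hN2⟩ := isFiniteLength_iff_isNoetherian_isArtinian.1 hN
  haveI : IsNoetherian V R := inferInstance
  haveI : IsNoetherianRing R := isNoetherian_of_tower V inferInstance
  haveI : Module.Finite V N := Module.Finite.trans R N
  obtain ⟨a, ha, hart⟩ := exists_a V N
  haveI : IsArtinian V N := artinian_of_killed V N a ha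
  haveI : IsNoetherian V N := inferInstance
  let Q := res (R := R) N
  have hsurj := dd_surj N Q
  have hex := dd_exact N Q
  haveI : IsArtinian V (PP N Q 0) := inferInstanceAs (IsArtinian V N)
  haveI : IsNoetherian V (PP N Q 0) := inferInstanceAs (IsNoetherian V N)
  obtain ⟨-, -, hrig⟩ := chain (dd N Q) V hsurj hex (fun x hx => nilp_on N x hx) a ha
    (fun x hx => nil_mod V a x hx) V hV le_rfl
  have hV1 : Rig (dd N Q) V := by
    intro M' _ _ _ _
    haveI : Module.Projective V (PP N Q 1) := proj_trans' V R (PP N Q 1)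
    exact exactAt_two M' (fun i => (dd N Q i).restrictScalars V) hex
  have htop := hrig hV1
  have hR : ∀ (M : Type u) [AddCommGroup M] [Module R M] [Module.Finite R M],
      ExactAt R M (dd N Q) 1 → ExactAt R M (dd N Q) 2 := by
    intro M' _ _ _ h
    exact (exactAt_top (dd N Q) M' 2).2 (htop M' ((exactAt_top (dd N Q) M' 1).1 h))
  have hsucc := rig_succ (dd N Q) hex hR
  intro i hi h0 j hij
  obtain ⟨i, rfl⟩ : ∃ i', i = i' + 1 := ⟨i - 1, by omega⟩
  obtain ⟨s, rfl⟩ := Nat.exists_eq_add_of_le hij
  rw [tor_isZero_iff N Q M] at h0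
  have hall : ∀ s, ExactAt R M (dd N Q) (i + s + 1) := by
    intro s
    induction s with
    | zero => exact h0
    | succ s ih => exact hsucc (i + s) M ih
  have := hall s
  rw [show i + 1 + s = (i + s) + 1 by ring, tor_isZero_iff N Q M]
  exact this

end Main

end Pool.Agent.H578R3.TorRigid
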